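import Pool.Agent.U44.KLS.Dob2

/-!
The limit of the approximation and the embedding into the rational vector space.
-/

namespace Pool.Agent.U44.KLS

open Encodable Finsupp Pool.Agent.Helper446 Pool.Agent.Helper446.RE

open Appr

/-- A run of the approximation. -/
structure BSeq (H : Type) [AddCommGroup H] (ν : ℕ ≃ H) (D : ℕ → ℕ → Prop)
    (s : ℕ → ℕ × List ℕ) : Prop extends Appr H ν D where
  comp : Computable s
  step : ∀ n, R1 ν D n (s n) (s (n + 1))
  len : ∀ n, (s n).2.length = n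
  tri : ∀ n, Tri ν D (s n).1 (s n).2

variable {H : Type} [AddCommGroup H] {ν : ℕ ≃ H} {D : ℕ → ℕ → Prop}

theorem exists_BSeq (A : Appr H ν D) : ∃ s, BSeq H ν D s := by
  obtain ⟨f, h1, -, h3⟩ := exists_seq (R1 ν D)
    (A.re_R1 (n := fun x : (ℕ × (ℕ × List ℕ)) × (ℕ × List ℕ) => x.1.1) (s := fun x => x.1.2)
      (s' := fun x => x.2) (by fun_prop) (by fun_prop) (by fun_prop))
    (fun n s => s.2.length = n ∧ Tri ν D s.1 s.2) (0, [])
    ⟨rfl, fun i hi => absurd hi (Nat.not_lt_zero i)⟩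
    (fun n s hs => A.step1 n s hs.1 hs.2)
    (fun n s s' hs hR => ⟨by rw [hR.2.1, hs.1], hR.2.2.1⟩)
  exact ⟨f, A, h1, fun n => (h3 n).1, fun n => (h3 n).2.1, fun n => (h3 n).2.2⟩

namespace BSeq

variable {s : ℕ → ℕ × List ℕ}

theorem le_t (B : BSeq H ν D s) (n : ℕ) : n ≤ (s n).1 := by
  induction n with
  | zero => exact Nat.zero_le _
  | succ n ih => exact lt_of_le_of_lt ih (B.step n).1

theorem conv (B : BSeq H ν D s) (k : ℕ) : ∃ n0, ∀ n ≥ n0, ∀ i < k,
    (s n).2.getD i 0 = (s n0).2.getD i 0 := by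
  obtain ⟨t0, ht0⟩ := B.bb_const k
  refine ⟨max t0 k, fun n hn i hi => ?_⟩
  induction n, hn using Nat.le_induction with
  | base => rfl
  | succ n hn ih =>
    rw [← ih]
    have hlen : i < (s n).2.length := by rw [B.len]; omega
    rcases (B.step n).2.2.2 i hlen with h | ⟨⟨j, hj, hne⟩, -⟩
    · exact h
    · exfalso
      apply hne
      refine ht0 _ ?_ _ ?_ j (by omega)
      · have := B.le_t (n + 1); omega
      · have := B.le_t n; omega

theorem exists_lim (B : BSeq H ν D s) : ∃ h : ℕ → H, ∀ k, ∃ n0, ∀ n ≥ n0, ∀ i < k,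
    ν ((s n).2.getD i 0) = h i := by
  choose n0 hn0 using B.conv
  refine ⟨fun i => ν ((s (n0 (i + 1))).2.getD i 0), fun k => ⟨n0 k, fun n hn i hi => ?_⟩⟩
  have h1 := hn0 k n hn i hi
  have h2 := hn0 k (max (n0 k) (n0 (i + 1))) (le_max_left _ _) i hi
  have h3 := hn0 (i + 1) (max (n0 k) (n0 (i + 1))) (le_max_right _ _) i (Nat.lt_succ_self i)
  simp only
  rw [h1, ← h2, h3]

end BSeq

/-- The limit basis. -/
structure BLim (H : Type) [AddCommGroup H] (ν : ℕ ≃ H) (D : ℕ → ℕ → Prop)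
    (s : ℕ → ℕ × List ℕ) (h : ℕ → H) : Prop extends BSeq H ν D s where
  lim : ∀ k, ∃ n0, ∀ n ≥ n0, ∀ i < k, ν ((s n).2.getD i 0) = h i

namespace BLim

variable {s : ℕ → ℕ × List ℕ} {h : ℕ → H}

theorem tri_lim (B : BLim H ν D s h) (i : ℕ) : ∃ (N : ℤ) (c : ℕ → ℤ), N ≠ 0 ∧ c i ≠ 0 ∧
    N • h i = ∑ l ∈ Finset.range (i + 1), c l • tb ν l := by
  obtain ⟨n0, hn0⟩ := B.lim (i + 1)
  obtain ⟨t0, ht0⟩ := B.bb_tb (i + 1)
  set n := max (max n0 t0) (i + 1) with hn
  obtain ⟨N, c, h1, h2, h3⟩ := (B.tri n).spec (i := i) (by rw [B.len]; omega)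
  refine ⟨N, c, h1, h2, ?_⟩
  rw [← hn0 n (by omega) i (Nat.lt_succ_self i), h3]
  refine Finset.sum_congr rfl fun l hl => ?_
  rw [ht0 _ ?_ l (Finset.mem_range.1 hl)]
  have := B.le_t n
  omega

theorem h_mem (B : BLim H ν D s h) (i : ℕ) : h i ∈ cl (sp (tb ν) (i + 1)) := by
  obtain ⟨N, c, h1, -, h3⟩ := B.tri_lim i
  exact ⟨N, h1, mem_sp.2 ⟨c, h3⟩⟩

theorem tb_mem (B : BLim H ν D s h) (l : ℕ) : tb ν l ∈ cl (sp h (l + 1)) := by
  induction l using Nat.strong_induction_on with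
  | _ l ih =>
    obtain ⟨N, c, h1, h2, h3⟩ := B.tri_lim l
    rw [Finset.sum_range_succ] at h3
    refine cl_of_smul h2 ?_
    have h4 : c l • tb ν l = N • h l - ∑ j ∈ Finset.range l, c j • tb ν j := by
      rw [h3]; abel
    rw [h4]
    refine Submodule.sub_mem _ (Submodule.smul_mem _ _ (le_cl _ (sp_mem (Nat.lt_succ_self l)))) ?_
    refine Submodule.sum_mem _ fun j hj => Submodule.smul_mem _ _ ?_
    have := Finset.mem_range.1 hj
    exact cl_mono (sp_mono (by omega)) (ih j this)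

theorem h_not_mem (B : BLim H ν D s h) (i : ℕ) : h i ∉ cl (sp h i) := by
  intro hi
  obtain ⟨N, c, h1, h2, h3⟩ := B.tri_lim i
  rw [Finset.sum_range_succ] at h3
  apply B.tb_not_mem i
  refine cl_of_smul h2 ?_
  have h4 : c i • tb ν i = N • h i - ∑ j ∈ Finset.range i, c j • tb ν j := by
    rw [h3]; abel
  rw [h4]
  have h5 : h i ∈ cl (sp (tb ν) i) := by
    refine cl_le_cl (sp_le fun j hj => ?_) hi
    exact cl_mono (sp_mono (by omega)) (B.h_mem j)
  refine Submodule.sub_mem _ (Submodule.smul_mem _ _ h5) ?_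
  exact le_cl _ (mem_sp.2 ⟨c, rfl⟩)

theorem span (B : BLim H ν D s h) (x : H) : ∃ k, x ∈ cl (sp h k) := by
  obtain ⟨k, hk⟩ := Appr.mem_tb (ν := ν) x
  refine ⟨k, cl_le_cl (sp_le fun j hj => ?_) hk⟩
  exact cl_mono (sp_mono (by omega)) (B.tb_mem j)

/-- The linear combination map. -/
noncomputable def Th (h : ℕ → H) : (ℕ →₀ ℤ) →ₗ[ℤ] H := Finsupp.linearCombination ℤ h

theorem Th_eq (c : ℕ →₀ ℤ) {k : ℕ} (hk : ∀ i, k ≤ i → c i = 0) :
    Th h c = ∑ i ∈ Finset.range k, c i • h i := by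
  unfold Th
  rw [Finsupp.linearCombination_apply, Finsupp.sum_of_support_subset]
  · intro i hi
    by_contra hcon
    rw [Finset.mem_range, not_lt] at hcon
    exact (Finsupp.mem_support_iff.1 hi) (hk i hcon)
  · intro i _; simp

theorem Th_inj (B : BLim H ν D s h) {c : ℕ →₀ ℤ} (hc : Th h c = 0) : c = 0 := by
  by_contra hne
  have hex : ∃ i, c i ≠ 0 := by
    by_contra hcon; push Not at hcon; exact hne (Finsupp.ext hcon)
  obtain ⟨i, hi⟩ := hex
  -- the largest index in the support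
  have hmax : ∃ k, c k ≠ 0 ∧ ∀ j, k + 1 ≤ j → c j = 0 := by
    have hsup : c.support.Nonempty := ⟨i, Finsupp.mem_support_iff.2 hi⟩
    refine ⟨c.support.max' hsup, Finsupp.mem_support_iff.1 (Finset.max'_mem _ _), fun j hj => ?_⟩
    by_contra hcon
    have := Finset.le_max' _ _ (Finsupp.mem_support_iff.2 hcon)
    omega
  obtain ⟨k, hk, hk2⟩ := hmax
  rw [Th_eq c hk2, Finset.sum_range_succ] at hc
  apply B.h_not_mem k
  refine cl_of_smul hk ?_
  have h4 : c k • h k = -∑ j ∈ Finset.range k, c j • h j := by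
    rw [eq_neg_iff_add_eq_zero, add_comm]; exact hc
  rw [h4]
  exact Submodule.neg_mem _ (le_cl _ (mem_sp.2 ⟨c, rfl⟩))

/-- The inclusion of integral vectors. -/
noncomputable def io : (ℕ →₀ ℤ) →+ V := Finsupp.mapRange.addMonoidHom (Int.castAddHom ℚ)

theorem io_apply (c : ℕ →₀ ℤ) (i : ℕ) : io c i = (c i : ℚ) := rfl

theorem io_inj {c d : ℕ →₀ ℤ} (h : io c = io d) : c = d := by
  ext i
  have := DFunLike.congr_fun h i
  rw [io_apply, io_apply] at this
  exact_mod_cast this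

/-- The vector `v` represents the element `x`. -/
def Rep (h : ℕ → H) (x : H) (v : V) : Prop :=
  ∃ (N : ℕ) (c : ℕ →₀ ℤ), N ≠ 0 ∧ N • x = Th h c ∧ N • v = io c

theorem nsmul_cancel {v w : V} {N : ℕ} (hN : N ≠ 0) (h : N • v = N • w) : v = w := by
  ext i
  have := DFunLike.congr_fun h i
  simp only [Finsupp.smul_apply, nsmul_eq_mul] at this
  exact mul_left_cancel₀ (by exact_mod_cast hN) this

theorem Rep.uniq (B : BLim H ν D s h) {x : H} {v w : V} (h1 : Rep h x v) (h2 : Rep h x w) :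
    v = w := by
  obtain ⟨N, c, hN, a1, a2⟩ := h1
  obtain ⟨M, d, hM, b1, b2⟩ := h2
  have h3 : Th h (M • c - N • d) = 0 := by
    rw [map_sub, map_nsmul, map_nsmul, ← a1, ← b1, smul_smul, smul_smul, mul_comm M N, sub_self]
  have h4 : M • c = N • d := sub_eq_zero.1 (B.Th_inj h3)
  refine nsmul_cancel (mul_ne_zero hM hN) ?_
  rw [mul_smul, a2, mul_comm M N, mul_smul, b2, ← map_nsmul, ← map_nsmul, h4]

theorem Rep.add {x y : H} {v w : V} (h1 : Rep h x v) (h2 : Rep h y w) :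
    Rep h (x + y) (v + w) := by
  obtain ⟨N, c, hN, a1, a2⟩ := h1
  obtain ⟨M, d, hM, b1, b2⟩ := h2
  refine ⟨M * N, M • c + N • d, mul_ne_zero hM hN, ?_, ?_⟩
  · rw [map_add, map_nsmul, map_nsmul, ← a1, ← b1, smul_add, mul_smul, mul_comm M N, mul_smul N M]
  · rw [map_add, map_nsmul, map_nsmul, ← a2, ← b2, smul_add, mul_smul, mul_comm M N, mul_smul N M]

theorem Rep.exists (B : BLim H ν D s h) (x : H) : ∃ v, Rep h x v := by
  obtain ⟨k, N, hN, hx⟩ := B.span x
  obtain ⟨c, hc⟩ := mem_sp.1 hx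
  have hN' : N.natAbs ≠ 0 := Int.natAbs_ne_zero.2 hN
  -- the finitely supported version of `sign N * c`
  let d : ℕ →₀ ℤ := Finsupp.onFinset (Finset.range k) (fun i => if i < k then N.sign * c i else 0)
    (fun i hi => by
      by_contra hcon
      rw [Finset.mem_range] at hcon
      exact hi (if_neg hcon))
  have hd : ∀ i, d i = if i < k then N.sign * c i else 0 := fun i => rfl
  refine ⟨((N.natAbs : ℚ)⁻¹) • io d, N.natAbs, d, hN', ?_, ?_⟩
  · rw [Th_eq d (k := k) (fun i hi => by rw [hd, if_neg (by omega)])]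
    have h1 : (N.natAbs : ℕ) • x = N.sign • (N • x) := by
      rw [smul_smul, ← natCast_zsmul]
      congr 1
      exact (Int.sign_mul_self_eq_natAbs N).symm
    rw [h1, hc, Finset.smul_sum]
    refine Finset.sum_congr rfl fun i hi => ?_
    rw [hd, if_pos (Finset.mem_range.1 hi), smul_smul]
  · have hq : (N.natAbs : ℚ) ≠ 0 := by exact_mod_cast hN'
    rw [← Nat.cast_smul_eq_nsmul ℚ, smul_smul, mul_inv_cancel₀ hq, one_smul]

/-- The finitely supported function of a list. -/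
noncomputable def ofL (Y : List ℤ) : ℕ →₀ ℤ :=
  Finsupp.onFinset (Finset.range Y.length) (fun i => co Y i) (fun i hi => by
    by_contra hcon
    rw [Finset.mem_range, not_lt] at hcon
    exact hi (co_zero hcon))

theorem ofL_apply (Y : List ℤ) (i : ℕ) : ofL Y i = co Y i := rfl

theorem Th_ofL (Y : List ℤ) : Th h (ofL Y) = ∑ i ∈ Finset.range Y.length, co Y i • h i :=
  Th_eq _ fun i hi => by rw [ofL_apply, co_zero hi]

theorem smul_vec (Y : List ℤ) (E : ℕ) : (E + 1) • vec Y E = io (ofL Y) := by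
  ext i
  rw [Finsupp.smul_apply, vec_apply, io_apply, ofL_apply, nsmul_eq_mul]
  have := (dpos E).ne'
  push_cast
  field_simp

/-- The stage-wise divisibility relation. -/
def Dv (ν : ℕ ≃ H) (s : ℕ → ℕ × List ℕ) (Y : List ℤ) (E n : ℕ) : Prop :=
  ∃ z : ℕ, ν.symm ((E + 1) • ν z) =
    ν.symm (∑ i ∈ Finset.range Y.length, co Y i • ν ((s n).2.getD i 0))

theorem Dv_succ (B : BLim H ν D s h) {Y : List ℤ} {E n : ℕ} (hE : E ≤ n) (hY : Y.length ≤ n)
    (hd : Dv ν s Y E n) : Dv ν s Y E (n + 1) := by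
  obtain ⟨z, hz⟩ := hd
  have hz' := ν.symm.injective hz
  have hdv : (E + 1) ∣ (n + 1).factorial := Nat.dvd_factorial (Nat.succ_pos _) (by omega)
  obtain ⟨m, hm⟩ := hdv
  have hw : ∀ i, ∃ w : H, i < Y.length →
      ν ((s (n + 1)).2.getD i 0) = ν ((s n).2.getD i 0) + (E + 1) • w := by
    intro i
    by_cases hi : i < Y.length
    · rcases (B.step n).2.2.2 i (by rw [B.len]; omega) with h1 | ⟨-, z, h1⟩
      · exact ⟨0, fun _ => by rw [h1]; simp⟩
      · refine ⟨m • ν z, fun _ => ?_⟩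
        rw [h1, Equiv.apply_symm_apply, Equiv.apply_symm_apply, hm, mul_smul]
    · exact ⟨0, fun h => absurd h hi⟩
  choose w hw using hw
  refine ⟨ν.symm (ν z + ∑ i ∈ Finset.range Y.length, co Y i • w i), ?_⟩
  congr 1
  rw [Equiv.apply_symm_apply, smul_add, hz', Finset.smul_sum, ← Finset.sum_add_distrib]
  refine Finset.sum_congr rfl fun i hi => ?_
  rw [hw i (Finset.mem_range.1 hi), smul_add, smul_comm (E + 1) (co Y i) (w i)]

theorem mem_iff (B : BLim H ν D s h) (Y : List ℤ) (E : ℕ) :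
    (∃ x, Rep h x (vec Y E)) ↔ ∃ n, E ≤ n ∧ Y.length ≤ n ∧ Dv ν s Y E n := by
  constructor
  · rintro ⟨x, N, c, hN, h1, h2⟩
    have h3 : N • ofL Y = (E + 1) • c := by
      apply io_inj
      rw [map_nsmul, map_nsmul, ← smul_vec, ← h2, smul_smul, smul_smul, mul_comm]
    have h4 : Th h (ofL Y) = (E + 1) • x := by
      have h5 : (N : ℤ) • (Th h (ofL Y) - (E + 1) • x) = 0 := by
        rw [natCast_zsmul, smul_sub, ← map_nsmul, h3, map_nsmul, ← h1, smul_smul, smul_smul,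
          mul_comm, sub_self]
      exact sub_eq_zero.1 (B.tf _ _ (by exact_mod_cast hN) h5)
    obtain ⟨n0, hn0⟩ := B.lim Y.length
    refine ⟨max n0 (max E Y.length), by omega, by omega, ν.symm x, ?_⟩
    rw [Equiv.apply_symm_apply, ← h4, Th_ofL]
    congr 1
    refine Finset.sum_congr rfl fun i hi => ?_
    rw [hn0 _ (le_max_left _ _) i (Finset.mem_range.1 hi)]
  · rintro ⟨n, h1, h2, h3⟩
    have h4 : ∀ m ≥ n, Dv ν s Y E m := by
      intro m hm
      induction m, hm using Nat.le_induction with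
      | base => exact h3
      | succ m hm ih => exact B.Dv_succ (h1.trans hm) (h2.trans hm) ih
    obtain ⟨n0, hn0⟩ := B.lim Y.length
    obtain ⟨z, hz⟩ := h4 (max n n0) (le_max_left _ _)
    have hz' := ν.symm.injective hz
    refine ⟨ν z, E + 1, ofL Y, Nat.succ_ne_zero _, ?_, smul_vec Y E⟩
    rw [hz', Th_ofL]
    refine Finset.sum_congr rfl fun i hi => ?_
    rw [hn0 _ (le_max_right _ _) i (Finset.mem_range.1 hi)]

theorem re_mem (B : BLim H ν D s h) :
    REPred fun y : List ℤ × ℕ => ∃ x, Rep h x (vec y.1 y.2) := by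
  have hs : Computable s := B.comp
  have h1 : REPred fun y : List ℤ × ℕ => ∃ n, y.2 ≤ n ∧ y.1.length ≤ n ∧ Dv ν s y.1 y.2 n := by
    refine RE.exN (p := fun (y : List ℤ × ℕ) n => y.2 ≤ n ∧ y.1.length ≤ n ∧
      Dv ν s y.1 y.2 n) ?_
    refine RE.and (RE.le (by fun_prop) (by fun_prop)) (RE.and (RE.le (by fun_prop) (by fun_prop)) ?_)
    unfold Dv
    refine RE.exN (p := fun (x : (List ℤ × ℕ) × ℕ) z => ν.symm ((x.1.2 + 1) • ν z) =
      ν.symm (∑ i ∈ Finset.range x.1.1.length, co x.1.1 i • ν ((s x.2).2.getD i 0))) ?_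
    refine RE.eq (c_nsm B.hadd (by fun_prop) (by fun_prop)) ?_
    exact c_lc B.hadd (Y := fun x : ((List ℤ × ℕ) × ℕ) × ℕ => x.1.1.1)
      (k := fun x => x.1.1.1.length) (g := fun x i => (s x.1.2).2.getD i 0) (by fun_prop)
      (by fun_prop) (by unfold Computable₂; fun_prop)
  exact h1.of_eq fun y => (B.mem_iff _ _).symm

theorem rep_single (i : ℕ) : Rep h (h i) (single i 1) := by
  refine ⟨1, single i 1, one_ne_zero, ?_, ?_⟩
  · rw [one_smul]; unfold Th; simp
  · rw [one_smul]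
    ext j
    rw [io_apply, Finsupp.single_apply, Finsupp.single_apply]
    split_ifs <;> simp

theorem main (B : BLim H ν D s h) : ∃ (Hs : AddSubgroup V) (_ : H ≃+ Hs),
    (∀ i, (single i 1 : V) ∈ Hs) ∧ REPred fun y : List ℤ × ℕ => vec y.1 y.2 ∈ Hs := by
  choose f hf using Rep.exists B
  let F : H →+ V := AddMonoidHom.mk' f fun x y =>
    Rep.uniq B (hf (x + y)) (Rep.add (hf x) (hf y))
  have hF : ∀ x, F x = f x := fun x => rfl
  have hinj : Function.Injective F := by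
    rw [injective_iff_map_eq_zero]
    intro x hx
    obtain ⟨N, c, hN, h1, h2⟩ := hf x
    rw [hF] at hx
    rw [hx, smul_zero] at h2
    have h3 : c = 0 := io_inj (by rw [← h2, map_zero])
    rw [h3, map_zero] at h1
    exact B.tf (N : ℤ) x (by exact_mod_cast hN) (by rw [natCast_zsmul]; exact h1)
  have hmem : ∀ v, v ∈ F.range ↔ ∃ x, Rep h x v := by
    intro v
    constructor
    · rintro ⟨x, rfl⟩; exact ⟨x, hf x⟩
    · rintro ⟨x, hx⟩; exact ⟨x, Rep.uniq B (hf x) hx⟩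
  refine ⟨F.range, AddMonoidHom.ofInjective hinj, fun i => (hmem _).2 ⟨h i, rep_single i⟩, ?_⟩
  exact B.re_mem.of_eq fun y => (hmem _).symm

end BLim

/-- Every computable torsion-free group of infinite rank is isomorphic to a recursively
enumerable subgroup of the rational vector space which contains the unit vectors. -/
theorem exists_sub (H : Type) [AddCommGroup H]
    (htf : ∀ (n : ℕ) (x : H), n ≠ 0 → n • x = 0 → x = 0)
    (hrank : Cardinal.aleph0 ≤ Module.rank ℤ H) (ν : ℕ ≃ H)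
    (hadd : Computable₂ fun a b : ℕ => ν.symm (ν a + ν b)) :
    ∃ (Hs : AddSubgroup V) (_ : H ≃+ Hs), (∀ i, (single i 1 : V) ∈ Hs) ∧
      REPred fun y : List ℤ × ℕ => vec y.1 y.2 ∈ Hs := by
  obtain ⟨D, d0, d1, d2, d3⟩ := exists_approx (re_dep hadd)
  have A : Appr H ν D := ⟨hadd, d0, d1, d2, d3, infinite_not_dep ν.surjective hrank, by
    intro n x hn hx
    refine htf n.natAbs x (Int.natAbs_ne_zero.2 hn) ?_
    have h1 : (n.natAbs : ℕ) • x = n.sign • (n • x) := by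
      rw [smul_smul, ← natCast_zsmul]
      congr 1
      exact (Int.sign_mul_self_eq_natAbs n).symm
    rw [h1, hx, smul_zero]⟩
  obtain ⟨s, B⟩ := exists_BSeq A
  obtain ⟨h, hh⟩ := B.exists_lim
  exact BLim.main ⟨B, hh⟩

end Pool.Agent.U44.KLS
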