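import Pool.Agent.U44.KLS.StepEx

/-!
The computable sequence of states and its limit.
-/

namespace Pool.Agent.U44.KLS

open Encodable Finsupp Pool.Agent.Helper446 Pool.Agent.Helper446.RE

theorem exists_seq {S : Type} [Primcodable S] (R : ℕ → S → S → Prop)
    (hR : REPred fun x : (ℕ × S) × S => R x.1.1 x.1.2 x.2) (Good : ℕ → S → Prop) (s0 : S)
    (h0 : Good 0 s0) (hex : ∀ n s, Good n s → ∃ s', R n s s')
    (hg : ∀ n s s', Good n s → R n s s' → Good (n + 1) s') :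
    ∃ f : ℕ → S, Computable f ∧ f 0 = s0 ∧ ∀ n, R n (f n) (f (n + 1)) ∧ Good n (f n) := by
  obtain ⟨g, hg1, hg2, hg3⟩ := uniformize (r := fun (x : ℕ × S) s' => R x.1 x.2 s') hR
  let F : ℕ → Part S := fun n => Nat.rec (motive := fun _ => Part S) (Part.some s0)
    (fun n IH => IH.bind fun s => g (n, s)) n
  have hF : Partrec F := by
    have h1 : Partrec₂ fun (a : ℕ) (y : ℕ × S) => g (y.1, y.2) := by
      have : Partrec fun z : ℕ × (ℕ × S) => g (z.2.1, z.2.2) :=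
        hg1.comp (by fun_prop : Computable fun z : ℕ × (ℕ × S) => (z.2.1, z.2.2))
      exact this
    exact Partrec.nat_rec (f := fun a : ℕ => a) (g := fun _ : ℕ => Part.some s0)
      (h := fun (a : ℕ) (y : ℕ × S) => g (y.1, y.2)) Computable.id (Computable.const s0).partrec h1
  have hF1 : ∀ n, F (n + 1) = (F n).bind fun s => g (n, s) := fun n => rfl
  have hex2 : ∀ n, ∃ s, s ∈ F n ∧ Good n s := by
    intro n
    induction n with
    | zero => exact ⟨s0, Part.mem_some s0, h0⟩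
    | succ n ih =>
      obtain ⟨s, hs, hgs⟩ := ih
      have hd : (g (n, s)).Dom := (hg2 (n, s)).2 (hex n s hgs)
      refine ⟨(g (n, s)).get hd, ?_, hg n s _ hgs (hg3 (n, s) _ (Part.get_mem hd))⟩
      rw [hF1]
      exact Part.mem_bind hs (Part.get_mem hd)
  choose f hf1 hf2 using hex2
  refine ⟨f, hF.of_eq_tot hf1, ?_, fun n => ⟨?_, hf2 n⟩⟩
  · have := hf1 0
    exact Part.mem_some_iff.1 this
  · have h1 := hf1 (n + 1)
    rw [hF1] at h1
    obtain ⟨s, hs, h2⟩ := Part.mem_bind_iff.1 h1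
    have : s = f n := Part.mem_unique hs (hf1 n)
    rw [this] at h2
    exact hg3 (n, f n) _ h2

/-- The parameter of a stage. -/
def par (n : ℕ) : Pr := ((decode (α := Pr) n.unpair.1).getD default)

theorem cpar : Computable par := by
  unfold par
  exact Primrec.option_getD.to_comp.comp
    (by fun_prop : Computable fun n : ℕ => decode (α := Pr) n.unpair.1) (Computable.const default)

theorem par_inf (p : Pr) (N : ℕ) : ∃ n, N ≤ n ∧ par n = p := by
  refine ⟨Nat.pair (encode p) N, Nat.right_le_pair _ _, ?_⟩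
  unfold par
  simp

/-- A run of the construction. -/
structure Run (Hs : AddSubgroup V) (q : List ℤ × ℕ → ℕ → Bool) (σ : ℕ → St) : Prop where
  comp : Computable σ
  init : (σ 0).2.2 = []
  step : ∀ n, Step Hs q (par n) n (σ n) (σ (n + 1))
  inv : ∀ n, Inv Hs (σ n)
  hq : ∀ y : List ℤ × ℕ, vec y.1 y.2 ∈ Hs ↔ ∃ k, q y k = true

theorem exists_run (Hs : AddSubgroup V)
    (hre : REPred fun y : List ℤ × ℕ => vec y.1 y.2 ∈ Hs) : ∃ q σ, Run Hs q σ := by
  obtain ⟨q, hq, h⟩ := re_iff.1 hre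
  have hR : REPred fun x : (ℕ × St) × St => Step Hs q (par x.1.1) x.1.1 x.1.2 x.2 :=
    re_Step Hs hre q hq (cpar.comp (by fun_prop)) (by fun_prop) (by fun_prop) (by fun_prop)
  obtain ⟨f, h1, h2, h3⟩ := exists_seq (fun n σ σ' => Step Hs q (par n) n σ σ') hR
    (fun _ σ => Inv Hs σ) ((0, []), ([], []))
    ⟨fun m hm => absurd hm (Nat.not_lt_zero m), fun m hm => absurd hm (Nat.not_lt_zero m),
      fun m hm => absurd hm (Nat.not_lt_zero m)⟩
    (fun n σ hσ => step_exists (fun y k hk => (h y).2 ⟨k, hk⟩) (par n) n hσ)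
    (fun n σ σ' _ hs => hs.2.1)
  exact ⟨q, f, h1, by rw [h2], fun n => (h3 n).1, fun n => (h3 n).2, h⟩

namespace Run

variable {Hs : AddSubgroup V} {q : List ℤ × ℕ → ℕ → Bool} {σ : ℕ → St}

/-- `e` acts at stage `n`. -/
def Acts (σ : ℕ → St) (n e : ℕ) : Prop := TrigP (par n) n (σ n) ∧ (par n).1.1.1 = e

theorem len_mono (h : Run Hs q σ) {n n' : ℕ} (hn : n ≤ n') : len (σ n) ≤ len (σ n') := by
  induction n', hn using Nat.le_induction with
  | base => exact le_rfl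
  | succ k _ ih => exact ih.trans (h.step k).1

/-- The linear map of a step. -/
theorem exists_T (h : Run Hs q σ) (n : ℕ) : ∃ T : V →ₗ[ℚ] V,
    (∀ m < len (σ n), nm (σ (n + 1)) m = T (nm (σ n) m)) ∧
    ∀ k, (∀ e < k, ¬ Acts σ n e) → (∀ v, Lv k v → T v = v) ∧
      ∀ m < len (σ n), m < k → T (nm (σ n) m) = nm (σ n) m := by
  obtain ⟨-, -, -, ⟨al, X, E⟩, hTR, hor⟩ := h.step n
  refine ⟨LinearMap.id + (fn al).smulRight (vec X E), fun m hm => hTR m hm, fun k hk => ?_⟩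
  have hTv : ∀ v, fn al v = 0 → (LinearMap.id + (fn al).smulRight (vec X E) : V →ₗ[ℚ] V) v = v := by
    intro v hv
    simp [hv]
  rcases hor with ⟨hT, hlow, -, -⟩ | ⟨-, hal, -, -⟩
  · have hlow' : ∀ i < (par n).1.1.2, fn al (single i 1) = 0 := by
      intro i hi
      rw [fn_single]
      exact_mod_cast hlow i hi
    have he : k ≤ (par n).1.1.1 := by
      by_contra hcon
      exact hk _ (by omega) ⟨hT, rfl⟩
    obtain ⟨⟨-, hei, -⟩, hle, -⟩ := hT
    refine ⟨fun v hv => hTv v (map_low hlow' (Lv_mono (by omega) hv)), fun m hm hmk => ?_⟩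
    exact hTv _ (map_low hlow' (hle m hm (by omega)))
  · have hal' : fn al = 0 := by
      simp only at hal
      rw [hal, fn_nil]
    exact ⟨fun v _ => hTv v (by rw [hal']; rfl), fun m _ _ => hTv _ (by rw [hal']; rfl)⟩

theorem Z_mono (h : Run Hs q σ) {n n' : ℕ} (hn : n ≤ n') {e : ℕ} (he : e ∈ (σ n).2.2) :
    e ∈ (σ n').2.2 := by
  induction n', hn using Nat.le_induction with
  | base => exact he
  | succ k _ ih =>
    obtain ⟨-, -, -, ⟨al, X, E⟩, -, hor⟩ := h.step k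
    rcases hor with ⟨-, -, -, hZ⟩ | ⟨-, -, hZ, -⟩
    · rw [hZ]; exact List.mem_cons_of_mem _ ih
    · rw [hZ]; exact ih

theorem acts_Z (h : Run Hs q σ) {n e : ℕ} (ha : Acts σ n e) : e ∈ (σ (n + 1)).2.2 := by
  obtain ⟨-, -, -, ⟨al, X, E⟩, -, hor⟩ := h.step n
  obtain ⟨ht, rfl⟩ := ha
  rcases hor with ⟨-, -, -, hZ⟩ | ⟨hT, -⟩
  · rw [hZ]; exact List.mem_cons_self
  · exact absurd ht hT

theorem eventually_quiet (h : Run Hs q σ) (k : ℕ) : ∃ n0, ∀ n ≥ n0, ∀ e < k, ¬ Acts σ n e := by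
  induction k with
  | zero => exact ⟨0, fun n _ e he => absurd he (Nat.not_lt_zero e)⟩
  | succ k ih =>
    obtain ⟨n0, hn0⟩ := ih
    by_cases hk : ∃ n, Acts σ n k
    · obtain ⟨n1, hn1⟩ := hk
      refine ⟨max n0 (n1 + 1), fun n hn e he => ?_⟩
      rcases Nat.lt_succ_iff_lt_or_eq.1 he with h1 | rfl
      · exact hn0 n ((le_max_left _ _).trans hn) e h1
      · rintro ⟨hT, he⟩
        have h2 := h.Z_mono ((le_max_right _ _).trans hn) (h.acts_Z hn1)
        exact hT.1.1 (he ▸ h2)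
    · refine ⟨n0, fun n hn e he => ?_⟩
      rcases Nat.lt_succ_iff_lt_or_eq.1 he with h1 | rfl
      · exact hn0 n hn e h1
      · exact fun h2 => hk ⟨n, h2⟩

/-- Every element gets a permanent name. -/
theorem named (h : Run Hs q σ) {v : V} (hv : v ∈ Hs) :
    ∃ m n0, ∀ n ≥ n0, m < len (σ n) ∧ nm (σ n) m = v := by
  obtain ⟨k, hk⟩ := exists_Lv v
  obtain ⟨n0, hn0⟩ := h.eventually_quiet k
  obtain ⟨D, L, -, hD⟩ := code_vecs (fun _ => v) 1
  have hvD : vec (row L 0) D = v := hD 0 (by norm_num)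
  obtain ⟨kk, hkk⟩ := (h.hq (row L 0, D)).1 (by rw [hvD]; exact hv)
  obtain ⟨n, hn, hpar⟩ := par_inf (((0, 0), (0, 0), (0, 0), (0, false)), (row L 0, D), kk) n0
  obtain ⟨-, -, -, ⟨al, X, E⟩, -, hor⟩ := h.step n
  have hnot : ¬ TrigP (par n) n (σ n) := by
    rw [hpar]
    rintro ⟨⟨-, h1, -⟩, -⟩
    exact absurd h1 (lt_irrefl _)
  rcases hor with ⟨hT, -⟩ | ⟨-, -, -, hq'⟩
  · exact absurd hT hnot
  rw [hpar] at hq'
  simp only [hkk, Bool.true_eq_false, false_or] at hq'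
  obtain ⟨m, hm, hmv⟩ := hq'
  refine ⟨m, n + 1, fun n' hn' => ?_⟩
  induction n', hn' using Nat.le_induction with
  | base => exact ⟨hm, hmv.trans hvD⟩
  | succ l hl ih =>
    obtain ⟨T, hT1, hT2⟩ := h.exists_T l
    refine ⟨lt_of_lt_of_le ih.1 (h.step l).1, ?_⟩
    rw [hT1 m ih.1, ih.2]
    exact (hT2 k (hn0 l (by omega))).1 v hk

theorem len_unbdd (h : Run Hs q σ) (he : ∀ i, (single i 1 : V) ∈ Hs) (M : ℕ) :
    ∃ n0, ∀ n ≥ n0, M < len (σ n) := by
  choose m n0 hm using fun i => h.named (he i)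
  have hinj : Function.Injective m := by
    intro i j hij
    have h1 := hm i (max (n0 i) (n0 j)) (le_max_left _ _)
    have h2 := hm j (max (n0 i) (n0 j)) (le_max_right _ _)
    rw [hij] at h1
    have h3 : (single i 1 : V) = single j 1 := h1.2.symm.trans h2.2
    have h4 := (Finsupp.single_left_inj (one_ne_zero : (1 : ℚ) ≠ 0)).1 h3
    exact h4
  have hinf : (Set.range m).Infinite := Set.infinite_range_of_injective hinj
  obtain ⟨_, ⟨i, rfl⟩, hi⟩ := hinf.exists_gt M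
  exact ⟨n0 i, fun n hn => hi.trans (hm i n hn).1⟩

theorem exists_lim (h : Run Hs q σ) (he : ∀ i, (single i 1 : V) ∈ Hs) (m : ℕ) :
    ∃ v : V, ∃ n0, ∀ n ≥ n0, m < len (σ n) ∧ nm (σ n) m = v := by
  obtain ⟨n0, hn0⟩ := h.eventually_quiet (m + 1)
  obtain ⟨n1, hn1⟩ := h.len_unbdd he m
  refine ⟨nm (σ (max n0 n1)) m, max n0 n1, fun n hn => ?_⟩
  induction n, hn using Nat.le_induction with
  | base => exact ⟨hn1 _ (le_max_right _ _), rfl⟩
  | succ l hl ih =>
    obtain ⟨T, hT1, hT2⟩ := h.exists_T l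
    refine ⟨lt_of_lt_of_le ih.1 (h.step l).1, ?_⟩
    rw [hT1 m ih.1, (hT2 (m + 1) (hn0 l ((le_max_left _ _).trans hl))).2 m ih.1 (by omega), ih.2]

/-- Relations persist. -/
theorem rel_step (h : Run Hs q σ) {n : ℕ} {l l' : List ℕ} (hl : ∀ m ∈ l, m < len (σ n))
    (hl' : ∀ m ∈ l', m < len (σ n)) (hr : (l.map (nm (σ n))).sum = (l'.map (nm (σ n))).sum) :
    (l.map (nm (σ (n + 1)))).sum = (l'.map (nm (σ (n + 1)))).sum := by
  obtain ⟨T, hT1, -⟩ := h.exists_T n
  have key : ∀ l : List ℕ, (∀ m ∈ l, m < len (σ n)) →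
      (l.map (nm (σ (n + 1)))).sum = T (l.map (nm (σ n))).sum := by
    intro l hl
    rw [map_list_sum, List.map_map]
    congr 1
    exact List.map_congr_left fun m hm => hT1 m (hl m hm)
  rw [key l hl, key l' hl', hr]

theorem rel_mono (h : Run Hs q σ) {n n' : ℕ} (hn : n ≤ n') {l l' : List ℕ}
    (hl : ∀ m ∈ l, m < len (σ n)) (hl' : ∀ m ∈ l', m < len (σ n))
    (hr : (l.map (nm (σ n))).sum = (l'.map (nm (σ n))).sum) :
    (l.map (nm (σ n'))).sum = (l'.map (nm (σ n'))).sum := by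
  induction n', hn using Nat.le_induction with
  | base => exact hr
  | succ k hk ih =>
    exact h.rel_step (fun m hm => lt_of_lt_of_le (hl m hm) (h.len_mono hk))
      (fun m hm => lt_of_lt_of_le (hl' m hm) (h.len_mono hk)) ih

theorem sgn_mono (h : Run Hs q σ) {n n' : ℕ} (hn : n ≤ n') {m : ℕ} (hm : m < len (σ n)) :
    SS (rho (σ n) (nm (σ n) m)) (rho (σ n') (nm (σ n') m)) := by
  induction n', hn using Nat.le_induction with
  | base => exact SS_refl _
  | succ k hk ih =>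
    have h1 := (h.step k).2.2.1 m (lt_of_lt_of_le hm (h.len_mono hk))
    exact ⟨ih.1.trans h1.1, ih.2.trans h1.2⟩

end Run

/-- A run together with its limit. -/
structure Lim (Hs : AddSubgroup V) (q : List ℤ × ℕ → ℕ → Bool) (σ : ℕ → St) (X : ℕ → V) : Prop
    extends Run Hs q σ where
  unit : ∀ i, (single i 1 : V) ∈ Hs
  lim : ∀ m, ∃ n0, ∀ n ≥ n0, m < len (σ n) ∧ nm (σ n) m = X m

theorem exists_Lim (Hs : AddSubgroup V) (he : ∀ i, (single i 1 : V) ∈ Hs)
    (hre : REPred fun y : List ℤ × ℕ => vec y.1 y.2 ∈ Hs) : ∃ q σ X, Lim Hs q σ X := by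
  obtain ⟨q, σ, h⟩ := exists_run Hs hre
  choose X hX using h.exists_lim he
  exact ⟨q, σ, X, ⟨h, he, hX⟩⟩

namespace Lim

variable {Hs : AddSubgroup V} {q : List ℤ × ℕ → ℕ → Bool} {σ : ℕ → St} {X : ℕ → V}

/-- Simultaneous convergence. -/
theorem lim_all (h : Lim Hs q σ X) (M : ℕ) :
    ∃ n0, ∀ n ≥ n0, ∀ m < M, m < len (σ n) ∧ nm (σ n) m = X m := by
  induction M with
  | zero => exact ⟨0, fun n _ m hm => absurd hm (Nat.not_lt_zero m)⟩
  | succ M ih =>
    obtain ⟨n0, hn0⟩ := ih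
    obtain ⟨n1, hn1⟩ := h.lim M
    refine ⟨max n0 n1, fun n hn m hm => ?_⟩
    rcases Nat.lt_succ_iff_lt_or_eq.1 hm with h1 | rfl
    · exact hn0 n ((le_max_left _ _).trans hn) m h1
    · exact hn1 n ((le_max_right _ _).trans hn)

theorem mem (h : Lim Hs q σ X) (m : ℕ) : X m ∈ Hs := by
  obtain ⟨n0, hn0⟩ := h.lim m
  obtain ⟨h1, h2⟩ := hn0 n0 le_rfl
  rw [← h2]
  exact (h.inv n0).1 m h1

theorem surj (h : Lim Hs q σ X) {v : V} (hv : v ∈ Hs) : ∃ m, X m = v := by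
  obtain ⟨m, n0, hm⟩ := h.toRun.named hv
  obtain ⟨n1, hn1⟩ := h.lim m
  refine ⟨m, ?_⟩
  rw [← (hn1 (max n0 n1) (le_max_right _ _)).2, (hm (max n0 n1) (le_max_left _ _)).2]

theorem inj (h : Lim Hs q σ X) : Function.Injective X := by
  intro m l hml
  by_contra hne
  wlog hlt : l < m generalizing m l with H
  · exact H hml.symm (Ne.symm hne) (by omega)
  obtain ⟨n0, hn0⟩ := h.lim_all (m + 1)
  have h1 := hn0 n0 le_rfl m (by omega)
  have h2 := hn0 n0 le_rfl l (by omega)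
  exact (h.inv n0).2.1 m h1.1 l hlt (by rw [h1.2, h2.2, hml])

theorem rel_lim (h : Lim Hs q σ X) {n : ℕ} {l l' : List ℕ} (hl : ∀ m ∈ l, m < len (σ n))
    (hl' : ∀ m ∈ l', m < len (σ n)) (hr : (l.map (nm (σ n))).sum = (l'.map (nm (σ n))).sum) :
    (l.map X).sum = (l'.map X).sum := by
  obtain ⟨n0, hn0⟩ := h.lim_all (len (σ n))
  have h1 := h.toRun.rel_mono (le_max_left n n0) hl hl' hr
  have key : ∀ l : List ℕ, (∀ m ∈ l, m < len (σ n)) →
      (l.map (nm (σ (max n n0)))).sum = (l.map X).sum := by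
    intro l hl
    congr 1
    exact List.map_congr_left fun m hm => (hn0 _ (le_max_right _ _) m (hl m hm)).2
  rw [← key l hl, ← key l' hl', h1]

theorem add_iff (h : Lim Hs q σ X) (m l k : ℕ) :
    X m + X l = X k ↔ ∃ n, m < len (σ n) ∧ l < len (σ n) ∧ k < len (σ n) ∧
      nm (σ n) m = nm (σ n) k + ((-1 : ℤ) : ℚ) • nm (σ n) l := by
  constructor
  · intro hX
    obtain ⟨n0, hn0⟩ := h.lim_all (max m (max l k) + 1)
    have h1 := hn0 n0 le_rfl m (by omega)
    have h2 := hn0 n0 le_rfl l (by omega)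
    have h3 := hn0 n0 le_rfl k (by omega)
    refine ⟨n0, h1.1, h2.1, h3.1, ?_⟩
    rw [h1.2, h2.2, h3.2, ← hX]
    push_cast
    module
  · rintro ⟨n, h1, h2, h3, h4⟩
    have h5 := h.rel_lim (n := n) (l := [m, l]) (l' := [k])
      (by intro x hx; simp at hx; rcases hx with rfl | rfl <;> assumption)
      (by intro x hx; simp at hx; rw [hx]; exact h3)
      (by
        simp only [List.map_cons, List.map_nil, List.sum_cons, List.sum_nil, add_zero]
        rw [h4]; push_cast; module)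
    simpa using h5

theorem add_re (h : Lim Hs q σ X) : REPred fun x : (ℕ × ℕ) × ℕ => X x.1.1 + X x.1.2 = X x.2 := by
  have hσ : Computable σ := h.comp
  have h1 : REPred fun x : (ℕ × ℕ) × ℕ => ∃ n, x.1.1 < len (σ n) ∧ x.1.2 < len (σ n) ∧
      x.2 < len (σ n) ∧
      nm (σ n) x.1.1 = nm (σ n) x.2 + ((-1 : ℤ) : ℚ) • nm (σ n) x.1.2 := by
    refine RE.exN (p := fun (x : (ℕ × ℕ) × ℕ) n => x.1.1 < len (σ n) ∧ x.1.2 < len (σ n) ∧
      x.2 < len (σ n) ∧
      nm (σ n) x.1.1 = nm (σ n) x.2 + ((-1 : ℤ) : ℚ) • nm (σ n) x.1.2) ?_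
    refine RE.and ?_ (RE.and ?_ (RE.and ?_ ?_))
    · unfold len; exact RE.lt (by fun_prop) (by fun_prop)
    · unfold len; exact RE.lt (by fun_prop) (by fun_prop)
    · unfold len; exact RE.lt (by fun_prop) (by fun_prop)
    · exact (cp_nm_rel (σ := fun x : ((ℕ × ℕ) × ℕ) × ℕ => σ x.2)
        (τ := fun x : ((ℕ × ℕ) × ℕ) × ℕ => σ x.2) (m := fun x => x.1.1.1) (l := fun x => x.1.2)
        (k := fun _ => -1) (X := fun x => row (σ x.2).1.2 x.1.1.2) (E := fun x => (σ x.2).1.1)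
        (by fun_prop) (by fun_prop) (by fun_prop) (by fun_prop) (by fun_prop) (by fun_prop)
        (by fun_prop)).to_re
  exact h1.of_eq fun x => (h.add_iff _ _ _).symm

end Lim

end Pool.Agent.U44.KLS
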