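import Pool.Agent.Helper446.Oracle
import Pool.Agent.U44.KLS.Seq

/-!
A noncomputable oracle which computes no new members of a closed class.
-/

namespace Pool.Agent.U44.KLS

open Encodable Pool.Agent.Helper446 Pool.Agent.Helper446.RE Pool.Agent.Helper446.Defs
open Pool.Agent.Helper446.Oracle

/-- Finite information. -/
abbrev Info := List ℕ × List ℕ

/-- Consistent information. -/
def Cons (τ : Info) : Prop := ∀ x ∈ τ.1, x ∉ τ.2

/-- Extension. -/
def Ext (τ τ' : Info) : Prop := (∀ x ∈ τ.1, x ∈ τ'.1) ∧ ∀ x ∈ τ.2, x ∈ τ'.2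

theorem Ext.refl (τ : Info) : Ext τ τ := ⟨fun _ h => h, fun _ h => h⟩

theorem Ext.trans {a b c : Info} (h1 : Ext a b) (h2 : Ext b c) : Ext a c :=
  ⟨fun x h => h2.1 x (h1.1 x h), fun x h => h2.2 x (h1.2 x h)⟩

theorem Ok.of_ext {A : Set ℕ} {τ τ' : Info} (h : Ok A τ') (he : Ext τ τ') : Ok A τ :=
  ⟨fun x hx => h.1 x (he.1 x hx), fun x hx => h.2 x (he.2 x hx)⟩

theorem Ok.cons {A : Set ℕ} {τ : Info} (h : Ok A τ) : Cons τ := fun x h1 h2 => h.2 x h2 (h.1 x h1)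

theorem generic {ι : Type} [Encodable ι] (Q : ι → Set ℕ → Prop)
    (hQ : ∀ k τ, Cons τ → ∃ τ', Cons τ' ∧ Ext τ τ' ∧ ∀ A, Ok A τ' → Q k A) : ∃ A, ∀ k, Q k A := by
  have h1 : ∀ (n : ℕ) (τ : {τ : Info // Cons τ}), ∃ τ' : {τ : Info // Cons τ}, Ext τ.1 τ'.1 ∧
      ∀ k, decode (α := ι) n = some k → ∀ A, Ok A τ'.1 → Q k A := by
    rintro n ⟨τ, hτ⟩
    rcases hd : decode (α := ι) n with _ | k
    · exact ⟨⟨τ, hτ⟩, Ext.refl _, fun k h => by simp at h⟩
    · obtain ⟨τ', a1, a2, a3⟩ := hQ k τ hτ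
      refine ⟨⟨τ', a1⟩, a2, fun k' h => ?_⟩
      obtain rfl := Option.some.inj h
      exact a3
  choose g hg1 hg2 using h1
  let f : ℕ → {τ : Info // Cons τ} := fun n => Nat.rec (motive := fun _ => {τ : Info // Cons τ})
    ⟨([], []), fun x hx => by simp at hx⟩ (fun n τ => g n τ) n
  have hf : ∀ n, f (n + 1) = g n (f n) := fun n => rfl
  have hmono : ∀ m n, m ≤ n → Ext (f m).1 (f n).1 := by
    intro m n hmn
    induction n, hmn using Nat.le_induction with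
    | base => exact Ext.refl _
    | succ n _ ih => exact ih.trans (by rw [hf]; exact hg1 n (f n))
  let A : Set ℕ := {x | ∃ n, x ∈ (f n).1.1}
  have hok : ∀ n, Ok A (f n).1 := by
    intro n
    refine ⟨fun x hx => ⟨n, hx⟩, ?_⟩
    rintro x hx ⟨m, hm⟩
    exact (f (max m n)).2 x ((hmono m _ (le_max_left _ _)).1 x hm)
      ((hmono n _ (le_max_right _ _)).2 x hx)
  refine ⟨A, fun k => ?_⟩
  refine hg2 (encode k) (f (encode k)) k (encodek k) A ?_
  have := hok (encode k + 1)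
  rwa [hf] at this

/-- The class is closed. -/
def Closed (C : Set (ℕ → ℕ)) : Prop :=
  ∀ g, (∀ n, ∃ g' ∈ C, ∀ i < n, g i = g' i) → g ∈ C

theorem re_Ext {α : Type} [Primcodable α] {f g : α → Info} (hf : Computable f)
    (hg : Computable g) : REPred fun a => Ext (f a) (g a) := by
  unfold Ext
  refine RE.and ?_ ?_
  · refine RE.all_mem (p := fun a x => x ∈ (g a).1) (l := fun a => (f a).1) ?_ (by fun_prop)
    exact RE.mem_list (by fun_prop) (by fun_prop)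
  · refine RE.all_mem (p := fun a x => x ∈ (g a).2) (l := fun a => (f a).2) ?_ (by fun_prop)
    exact RE.mem_list (by fun_prop) (by fun_prop)

theorem re_Cons {α : Type} [Primcodable α] {f : α → Info} (hf : Computable f) :
    REPred fun a => Cons (f a) := by
  unfold Cons
  refine RE.all_mem (p := fun a x => x ∉ (f a).2) (l := fun a => (f a).1) ?_ (by fun_prop)
  exact RE.not_mem_list (by fun_prop) (by fun_prop)

/-- The enumeration operator `R` computes `g` from `A`. -/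
def Red (R : ℕ × ℕ → Info → Prop) (A : Set ℕ) (g : ℕ → ℕ) : Prop :=
  ∀ p : ℕ × ℕ, g p.1 = p.2 ↔ ∃ c, R p c ∧ Ok A c

theorem dense_red {C : Set (ℕ → ℕ)} (hC : Closed C) {g1 g2 : ℕ → ℕ}
    (hcomp : ∀ g ∈ C, Computable g → g = g1 ∨ g = g2) {R : ℕ × ℕ → Info → Prop}
    (hR : REPred fun x : (ℕ × ℕ) × Info => R x.1 x.2) (u u' : ℕ) {τ : Info} (hτ : Cons τ) :
    ∃ τ', Cons τ' ∧ Ext τ τ' ∧ ∀ A, Ok A τ' →
      ¬ ∃ g ∈ C, Red R A g ∧ g u ≠ g1 u ∧ g u' ≠ g2 u' := by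
  by_contra hcon
  push Not at hcon
  have hex : ∀ (n : ℕ) (s : Info × ℕ), (Cons s.1 ∧ Ext τ s.1) → ∃ s' : Info × ℕ,
      Ext s.1 s'.1 ∧ Cons s'.1 ∧ ∃ c, R (n, s'.2) c ∧ Ext c s'.1 := by
    rintro n ⟨ρ, v⟩ ⟨h1, h2⟩
    obtain ⟨A, hA, g, -, hg, -, -⟩ := hcon ρ h1 h2
    obtain ⟨c, hc, hcA⟩ := (hg (n, g n)).1 rfl
    have h3 : Ok A (ρ.1 ++ c.1, ρ.2 ++ c.2) := hA.append hcA
    refine ⟨((ρ.1 ++ c.1, ρ.2 ++ c.2), g n), ⟨fun x hx => List.mem_append_left _ hx,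
      fun x hx => List.mem_append_left _ hx⟩, Ok.cons h3, c, hc,
      ⟨fun x hx => List.mem_append_right _ hx, fun x hx => List.mem_append_right _ hx⟩⟩
  have hRre : REPred fun x : (ℕ × (Info × ℕ)) × (Info × ℕ) =>
      Ext x.1.2.1 x.2.1 ∧ Cons x.2.1 ∧ ∃ c, R (x.1.1, x.2.2) c ∧ Ext c x.2.1 := by
    refine RE.and (re_Ext (by fun_prop) (by fun_prop)) (RE.and (re_Cons (by fun_prop)) ?_)
    refine RE.ex (p := fun (x : (ℕ × (Info × ℕ)) × (Info × ℕ)) (c : Info) =>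
      R (x.1.1, x.2.2) c ∧ Ext c x.2.1) ?_
    refine RE.and ?_ (re_Ext (by fun_prop) (by fun_prop))
    exact RE.comp hR (f := fun y : ((ℕ × (Info × ℕ)) × (Info × ℕ)) × Info =>
      ((y.1.1.1, y.1.2.2), y.2)) (by fun_prop)
  obtain ⟨f, hf1, hf0, hf2⟩ := exists_seq
    (fun n (s s' : Info × ℕ) => Ext s.1 s'.1 ∧ Cons s'.1 ∧ ∃ c, R (n, s'.2) c ∧ Ext c s'.1)
    hRre (fun _ s => Cons s.1 ∧ Ext τ s.1) (τ, 0) ⟨hτ, Ext.refl _⟩ hex
    (fun n s s' hs hR => ⟨hR.2.1, hs.2.trans hR.1⟩)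
  have hmono : ∀ m n, m ≤ n → Ext (f m).1 (f n).1 := by
    intro m n hmn
    induction n, hmn using Nat.le_induction with
    | base => exact Ext.refl _
    | succ n _ ih => exact ih.trans (hf2 n).1.1
  let G : ℕ → ℕ := fun n => (f (n + 1)).2
  have hG : Computable G := by
    have : Computable fun n => (f (n + 1)).2 := by fun_prop
    exact this
  have hagree : ∀ n, ∃ g' ∈ C, (∀ i < n, G i = g' i) ∧ g' u ≠ g1 u ∧ g' u' ≠ g2 u' := by
    intro n
    obtain ⟨A, hA, g, hgC, hg, h3, h4⟩ := hcon (f n).1 (hf2 n).2.1 (hf2 n).2.2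
    refine ⟨g, hgC, fun i hi => ?_, h3, h4⟩
    obtain ⟨c, hc, hce⟩ := (hf2 i).1.2.2
    have h5 : Ok A c := Ok.of_ext hA (hce.trans (hmono (i + 1) n hi))
    exact ((hg (i, (f (i + 1)).2)).2 ⟨c, hc, h5⟩).symm
  have hGC : G ∈ C := hC G fun n => by
    obtain ⟨g', h1, h2, -⟩ := hagree n
    exact ⟨g', h1, h2⟩
  obtain ⟨g', -, h2, h3, h4⟩ := hagree (max u u' + 1)
  rcases hcomp G hGC hG with h | h
  · apply h3
    rw [← h, h2 u (by omega)]
  · apply h4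
    rw [← h, h2 u' (by omega)]

theorem exists_generic {C : Set (ℕ → ℕ)} (hC : Closed C) {g1 g2 : ℕ → ℕ}
    (hcomp : ∀ g ∈ C, Computable g → g = g1 ∨ g = g2) :
    ∃ A : Set ℕ, (¬ REPred fun n => n ∉ A) ∧
      ∀ g ∈ C, TuringReducible (fun n => Part.some (g n)) (chi A) → g = g1 ∨ g = g2 := by
  classical
  let Q : ((ℕ × ℕ × ℕ) ⊕ ℕ) → Set ℕ → Prop := fun k A => match k with
    | Sum.inl (e, u, u') => ¬ ∃ g ∈ C,
        Red (fun p c => ∃ s, wst ((ℕ × ℕ) × Info) e s (p, c) = true) A g ∧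
          g u ≠ g1 u ∧ g u' ≠ g2 u'
    | Sum.inr e => ¬ ∀ n, n ∉ A ↔ ∃ s, wst ℕ e s n = true
  have hQ : ∀ k τ, Cons τ → ∃ τ', Cons τ' ∧ Ext τ τ' ∧ ∀ A, Ok A τ' → Q k A := by
    rintro (⟨e, u, u'⟩ | e) τ hτ
    · exact dense_red hC hcomp (R := fun p c => ∃ s, wst ((ℕ × ℕ) × Info) e s (p, c) = true)
        (wst_re e) u u' hτ
    · obtain ⟨n, hn⟩ : ∃ n, n ∉ τ.1 ∧ n ∉ τ.2 := by
        obtain ⟨n, hn⟩ := Infinite.exists_notMem_finset (τ.1.toFinset ∪ τ.2.toFinset)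
        rw [Finset.mem_union, not_or] at hn
        exact ⟨n, fun h => hn.1 (List.mem_toFinset.2 h), fun h => hn.2 (List.mem_toFinset.2 h)⟩
      by_cases h : ∃ s, wst ℕ e s n = true
      · refine ⟨(n :: τ.1, τ.2), ?_, ⟨fun x hx => List.mem_cons_of_mem _ hx, fun x hx => hx⟩, ?_⟩
        · intro x hx
          rcases List.mem_cons.1 hx with rfl | hx
          · exact hn.2
          · exact hτ x hx
        · intro A hA hcon
          exact (hcon n).2 h (hA.1 n List.mem_cons_self)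
      · refine ⟨(τ.1, n :: τ.2), ?_, ⟨fun x hx => hx, fun x hx => List.mem_cons_of_mem _ hx⟩, ?_⟩
        · intro x hx hx2
          rcases List.mem_cons.1 hx2 with rfl | hx2
          · exact hn.1 hx
          · exact hτ x hx hx2
        · intro A hA hcon
          exact h ((hcon n).1 (hA.2 n List.mem_cons_self))
  obtain ⟨A, hA⟩ := generic Q hQ
  refine ⟨A, ?_, ?_⟩
  · intro hre
    obtain ⟨e, he⟩ := wst_univ hre
    exact hA (Sum.inr e) he
  · intro g hg hred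
    obtain ⟨R, hR, hRg⟩ := turingReducible_fun_iff.1 hred
    obtain ⟨e, he⟩ := wst_univ hR
    by_contra hcon
    push Not at hcon
    obtain ⟨hn1, hn2⟩ := hcon
    obtain ⟨u, hu⟩ := Function.ne_iff.1 hn1
    obtain ⟨u', hu'⟩ := Function.ne_iff.1 hn2
    refine hA (Sum.inl (e, u, u')) ⟨g, hg, fun p => ?_, hu, hu'⟩
    refine (hRg p).trans ?_
    constructor
    · rintro ⟨c, h1, h2⟩
      exact ⟨c, (he (p, c)).1 h1, h2⟩
    · rintro ⟨c, h1, h2⟩
      exact ⟨c, (he (p, c)).2 h1, h2⟩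

/-- Enumerability in a computable oracle is enumerability. -/
theorem REIn.re {B : Set ℕ} (hB : ComputablePred fun n => n ∈ B) {S : ℕ → Prop}
    (h : REIn B S) : REPred S := by
  obtain ⟨R, hR, hS⟩ := h
  have h1 : REPred fun a : ℕ => ∃ c : Info, R a c ∧ Ok B c := by
    refine RE.ex (p := fun (a : ℕ) (c : Info) => R a c ∧ Ok B c) ?_
    refine RE.and hR ?_
    unfold Ok
    refine RE.and ?_ ?_
    · refine RE.all_mem (p := fun (_ : ℕ × Info) x => x ∈ B) (l := fun y => y.2.1) ?_ (by fun_prop)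
      exact (cp_comp hB (f := fun y : (ℕ × Info) × ℕ => y.2) (by fun_prop)).to_re
    · refine RE.all_mem (p := fun (_ : ℕ × Info) x => x ∉ B) (l := fun y => y.2.2) ?_ (by fun_prop)
      exact (cp_comp hB (f := fun y : (ℕ × Info) × ℕ => y.2) (by fun_prop)).not.to_re
  exact h1.of_eq fun a => (hS a).symm

end Pool.Agent.U44.KLS
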