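import Pool.Agent.U44.KLS.Ord
import Pool.Agent.U44.KLS.Dob3
import Pool.Agent.U44.KLS.Gen

/-!
Final assembly.
-/

namespace Pool.Agent.U44.KLS

open Encodable Finsupp Pool.Agent.Helper446 Pool.Agent.Helper446.RE Pool.Agent.Helper446.Defs
open Pool.Agent.Helper446.Oracle

/-- Positive cones of orders on `H`. -/
def IsO {H : Type} [AddCommGroup H] (P : Set H) : Prop :=
  (∀ a ∈ P, ∀ b ∈ P, a + b ∈ P) ∧ (∀ a : H, a ∈ P → -a ∈ P → a = 0) ∧ ∀ a : H, a ∈ P ∨ -a ∈ P

theorem ind_eq (S : Set ℕ) : (Set.indicator S (fun _ => (1 : ℕ)) : ℕ → ℕ) = chiN S := by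
  classical
  funext n
  unfold chiN Set.indicator
  split_ifs <;> rfl

theorem comp_ind {S : Set ℕ} (h : ComputablePred fun n => n ∈ S) : Computable (chiN S) := by
  classical
  have h1 : Computable fun n => if n ∈ S then (1 : ℕ) else 0 :=
    cite h (Computable.const 1) (Computable.const 0)
  refine h1.of_eq fun n => ?_
  unfold chiN
  split_ifs <;> rfl

theorem cp_of_comp_ind {S : Set ℕ} (h : Computable (chiN S)) : ComputablePred fun n => n ∈ S :=
  (cp_eq h (Computable.const 1)).of_eq fun _ => chiN_eq_one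

theorem zero_mem_of_IsO {H : Type} [AddCommGroup H] {P : Set H} (h : IsO P) : (0 : H) ∈ P := by
  rcases h.2.2 0 with h1 | h1
  · exact h1
  · rwa [neg_zero] at h1

/-- The main construction. -/
theorem exists_copy (H : Type) [AddCommGroup H]
    (htf : ∀ (n : ℕ) (x : H), n ≠ 0 → n • x = 0 → x = 0)
    (hrank : Cardinal.aleph0 ≤ Module.rank ℤ H) (ν : ℕ ≃ H)
    (hadd : Computable₂ fun a b : ℕ => ν.symm (ν a + ν b)) :
    ∃ μ : ℕ ≃ H, Computable₂ (fun a b : ℕ => μ.symm (μ a + μ b)) ∧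
      ∃ P : Set H, IsO P ∧ (ComputablePred fun m => μ m ∈ P) ∧
        ∀ Q : Set H, IsO Q → (ComputablePred fun m => μ m ∈ Q) →
          (∀ x, x ∈ Q ↔ x ∈ P) ∨ (∀ x, x ∈ Q ↔ -x ∈ P) := by
  obtain ⟨Hs, φ, he, hre⟩ := exists_sub H htf hrank ν hadd
  obtain ⟨q, σ, X, h⟩ := exists_Lim Hs he hre
  let F : ℕ → H := fun m => φ.symm ⟨X m, h.mem m⟩
  have hF : ∀ m, ((φ (F m) : Hs) : V) = X m := fun m => by simp [F]
  have hFb : Function.Bijective F := by
    constructor
    · intro m l hml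
      apply h.inj
      rw [← hF m, ← hF l, hml]
    · intro x
      obtain ⟨m, hm⟩ := h.surj (φ x).2
      refine ⟨m, φ.injective (Subtype.ext ?_)⟩
      rw [hF m, hm]
  let μ : ℕ ≃ H := Equiv.ofBijective F hFb
  have hμ : ∀ m, ((φ (μ m) : Hs) : V) = X m := hF
  have hmemX : ∀ x : H, ∃ m, μ m = x ∧ X m = ((φ x : Hs) : V) := by
    intro x
    obtain ⟨m, rfl⟩ := μ.surjective x
    exact ⟨m, rfl, (hμ m).symm⟩
  have hP := h.isOrd_PP
  refine ⟨μ, ?_, {x | ((φ x : Hs) : V) ∈ PP σ}, ⟨?_, ?_, ?_⟩, ?_, ?_⟩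
  · have h1 : Computable fun x : ℕ × ℕ => μ.symm (μ x.1 + μ x.2) := by
      apply computable_of_graph
      refine h.add_re.of_eq fun x => ?_
      rw [Equiv.symm_apply_eq]
      constructor
      · intro hx
        apply φ.injective
        apply Subtype.ext
        rw [map_add, AddSubgroup.coe_add, hμ, hμ, hμ, hx]
      · intro hx
        rw [← hμ x.2, ← hx, map_add, AddSubgroup.coe_add, hμ, hμ]
    exact h1
  · intro a ha b hb
    show ((φ (a + b) : Hs) : V) ∈ PP σ
    rw [map_add, AddSubgroup.coe_add]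
    exact hP.1 _ (φ a).2 _ (φ b).2 ha hb
  · intro a ha hna
    have hna' : ((φ (-a) : Hs) : V) ∈ PP σ := hna
    rw [map_neg, AddSubgroup.coe_neg] at hna'
    have := hP.2.1 _ (φ a).2 ha hna'
    have h1 : φ a = 0 := Subtype.ext this
    exact (map_eq_zero_iff φ φ.injective).1 h1
  · intro a
    rcases hP.2.2 _ (φ a).2 with h1 | h1
    · exact Or.inl h1
    · right
      show ((φ (-a) : Hs) : V) ∈ PP σ
      rw [map_neg, AddSubgroup.coe_neg]; exact h1
  · refine h.cp_PP.of_eq fun m => ?_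
    show _ ↔ ((φ (μ m) : Hs) : V) ∈ PP σ
    rw [hμ]
  · intro Q hQ hc
    let Q' : Set V := {v | ∃ x ∈ Q, ((φ x : Hs) : V) = v}
    have hQ'mem : ∀ x : H, ((φ x : Hs) : V) ∈ Q' ↔ x ∈ Q := by
      intro x
      constructor
      · rintro ⟨y, hy, hyx⟩
        have : y = x := φ.injective (Subtype.ext hyx)
        rwa [← this]
      · intro hx; exact ⟨x, hx, rfl⟩
    have hlift : ∀ v ∈ Hs, ∃ x : H, ((φ x : Hs) : V) = v := fun v hv =>
      ⟨φ.symm ⟨v, hv⟩, by simp⟩
    have hQ' : IsOrd Hs Q' := by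
      refine ⟨?_, ?_, ?_⟩
      · intro a ha b hb haQ hbQ
        obtain ⟨x, rfl⟩ := hlift a ha
        obtain ⟨y, rfl⟩ := hlift b hb
        rw [hQ'mem] at haQ hbQ
        rw [← AddSubgroup.coe_add, ← map_add, hQ'mem]
        exact hQ.1 x haQ y hbQ
      · intro a ha haQ hna
        obtain ⟨x, rfl⟩ := hlift a ha
        rw [← AddSubgroup.coe_neg, ← map_neg] at hna
        rw [hQ'mem] at haQ hna
        rw [hQ.2.1 x haQ hna, map_zero]; rfl
      · intro a ha
        obtain ⟨x, rfl⟩ := hlift a ha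
        rw [← AddSubgroup.coe_neg, ← map_neg, hQ'mem, hQ'mem]
        exact hQ.2.2 x
    have hc' : ComputablePred fun m => X m ∈ Q' := by
      refine hc.of_eq fun m => ?_
      rw [← hμ m, hQ'mem]
    rcases h.unique hQ' hc' with h1 | h1
    · left
      intro x
      have := h1 _ (φ x).2
      rw [hQ'mem] at this
      exact this
    · right
      intro x
      have := h1 _ (φ x).2
      rw [hQ'mem, ← AddSubgroup.coe_neg, ← map_neg] at this
      exact this

theorem final (H : Type) [AddCommGroup H]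
    (htf : ∀ (n : ℕ) (x : H), n ≠ 0 → n • x = 0 → x = 0)
    (hrank : Cardinal.aleph0 ≤ Module.rank ℤ H) (ν : ℕ ≃ H)
    (hadd : Computable₂ fun a b : ℕ => ν.symm (ν a + ν b)) :
    ∃ μ : ℕ ≃ H, Computable₂ (fun a b : ℕ => μ.symm (μ a + μ b)) ∧
      ∃ P : Set H, IsO P ∧ Computable (chiN (μ ⁻¹' P)) ∧
        ∃ A : Set ℕ, TuringReducible (chi (μ ⁻¹' P)) (chi A) ∧
          ∀ Q : Set H, IsO Q →
            ¬ (TuringReducible (chi (μ ⁻¹' Q)) (chi A) ∧
              TuringReducible (chi A) (chi (μ ⁻¹' Q))) := by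
  classical
  obtain ⟨μ, hμ, P, hP, hcP, huniq⟩ := exists_copy H htf hrank ν hadd
  have hcP' : ComputablePred fun m => m ∈ μ ⁻¹' P := hcP
  have hcN : ComputablePred fun m => m ∈ μ ⁻¹' {x | -x ∈ P} := by
    have h1 : ComputablePred fun m : ℕ => ¬ (μ m ∈ P) ∨ m = μ.symm 0 :=
      cp_or hcP.not (cp_eq Computable.id (Computable.const _))
    refine h1.of_eq fun m => ?_
    show _ ↔ -μ m ∈ P
    constructor
    · rintro (h | h)
      · exact (hP.2.2 (μ m)).resolve_left h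
      · rw [h, Equiv.apply_symm_apply, neg_zero]; exact zero_mem_of_IsO hP
    · intro h
      by_cases h2 : μ m ∈ P
      · right
        rw [Equiv.eq_symm_apply]
        exact hP.2.1 _ h2 h
      · left; exact h2
  let C : Set (ℕ → ℕ) := {g | ∃ Q : Set H, IsO Q ∧ g = chiN (μ ⁻¹' Q)}
  have hC : Closed C := by
    intro g hg
    have h01 : ∀ i, g i = 1 ∨ g i = 0 := by
      intro i
      obtain ⟨g', ⟨Q, -, rfl⟩, h⟩ := hg (i + 1)
      rw [h i (Nat.lt_succ_self i)]
      by_cases hi : i ∈ μ ⁻¹' Q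
      · left; exact chiN_eq_one.2 hi
      · right; exact chiN_eq_zero.2 hi
    have key : ∀ n, ∃ Q : Set H, IsO Q ∧ ∀ x : H, μ.symm x < n → (g (μ.symm x) = 1 ↔ x ∈ Q) := by
      intro n
      obtain ⟨g', ⟨Q, hQ, rfl⟩, h⟩ := hg n
      refine ⟨Q, hQ, fun x hx => ?_⟩
      rw [h _ hx, chiN_eq_one, Set.mem_preimage, Equiv.apply_symm_apply]
    refine ⟨{x | g (μ.symm x) = 1}, ⟨?_, ?_, ?_⟩, ?_⟩
    · intro a ha b hb
      obtain ⟨Q, hQ, h⟩ := key (max (μ.symm a) (max (μ.symm b) (μ.symm (a + b))) + 1)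
      exact (h (a + b) (by omega)).2 (hQ.1 a ((h a (by omega)).1 ha) b ((h b (by omega)).1 hb))
    · intro a ha hna
      obtain ⟨Q, hQ, h⟩ := key (max (μ.symm a) (μ.symm (-a)) + 1)
      exact hQ.2.1 a ((h a (by omega)).1 ha) ((h (-a) (by omega)).1 hna)
    · intro a
      obtain ⟨Q, hQ, h⟩ := key (max (μ.symm a) (μ.symm (-a)) + 1)
      rcases hQ.2.2 a with h1 | h1
      · exact Or.inl ((h a (by omega)).2 h1)
      · exact Or.inr ((h (-a) (by omega)).2 h1)
    · funext i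
      rcases h01 i with h | h
      · rw [h]
        symm
        rw [chiN_eq_one]
        show g (μ.symm (μ i)) = 1
        rw [Equiv.symm_apply_apply]; exact h
      · rw [h]
        symm
        rw [chiN_eq_zero]
        intro h2
        have h3 : g (μ.symm (μ i)) = 1 := h2
        rw [Equiv.symm_apply_apply, h] at h3
        exact absurd h3 (by norm_num)
  have hcomp : ∀ g ∈ C, Computable g →
      g = chiN (μ ⁻¹' P) ∨ g = chiN (μ ⁻¹' {x | -x ∈ P}) := by
    rintro _ ⟨Q, hQ, rfl⟩ hg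
    rcases huniq Q hQ (cp_of_comp_ind hg) with h | h
    · left
      have : Q = P := Set.ext h
      rw [this]
    · right
      have : Q = {x | -x ∈ P} := Set.ext h
      rw [this]
  obtain ⟨A, hA1, hA2⟩ := exists_generic hC hcomp
  refine ⟨μ, hμ, P, hP, comp_ind hcP', A, ?_, ?_⟩
  · rw [turingReducible_iff]
    exact ⟨REIn.of_re hcP'.to_re, REIn.of_re hcP'.not.to_re⟩
  · rintro Q hQ ⟨h1, h2⟩
    have h3 := hA2 _ ⟨Q, hQ, rfl⟩ h1
    have hcQ : ComputablePred fun m => m ∈ μ ⁻¹' Q := by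
      rcases h3 with h3 | h3
      · exact cp_of_comp_ind (by rw [h3]; exact comp_ind hcP')
      · exact cp_of_comp_ind (by rw [h3]; exact comp_ind hcN)
    exact hA1 (REIn.re hcQ (turingReducible_iff.1 h2).2)

end Pool.Agent.U44.KLS
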