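import Mathlib

/-!
The classical existence lemma behind one collapse step.
-/

namespace Pool.Agent.U44.KLS

open Finsupp

/-- The ambient space. -/
abbrev V := ℕ →₀ ℚ

/-- Vectors supported below `k`. -/
def Lv (k : ℕ) (v : V) : Prop := ∀ i, k ≤ i → v i = 0

/-- Primitive vectors and integral functionals. -/
theorem prim (S : Set V) (hS : S.Finite) (x : V) (hx : x ∈ Submodule.span ℤ S) (hx0 : x ≠ 0) :
    ∃ b : ℕ, 0 < b ∧ ∃ c ∈ Submodule.span ℤ S, ∃ a : V →ₗ[ℚ] ℚ,
      x = (b : ℚ) • c ∧ a c = 1 ∧ ∀ y ∈ Submodule.span ℤ S, ∃ n : ℤ, a y = n := by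
  classical
  let Λ := Submodule.span ℤ S
  haveI : Module.Finite ℤ Λ := Module.Finite.span_of_finite ℤ hS
  haveI : Module.Free ℤ Λ := Module.free_of_finite_type_torsion_free'
  let ι := Module.Free.ChooseBasisIndex ℤ Λ
  let β : Module.Basis ι ℤ Λ := Module.Free.chooseBasis ℤ Λ
  haveI : Fintype ι := inferInstance
  let c0 : ι → ℤ := fun i => β.repr ⟨x, hx⟩ i
  let I : Ideal ℤ := Ideal.span (Set.range c0)
  let g : ℤ := Submodule.IsPrincipal.generator I
  have hg : I = Ideal.span {g} := (Ideal.span_singleton_generator I).symm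
  have hdiv : ∀ i, g ∣ c0 i := by
    intro i
    have : c0 i ∈ I := Ideal.subset_span ⟨i, rfl⟩
    rw [hg] at this
    exact Ideal.mem_span_singleton.1 this
  have hgI : g ∈ Ideal.span (Set.range c0) := by
    show g ∈ I
    rw [hg]; exact Ideal.mem_span_singleton_self g
  obtain ⟨t, ht⟩ := Ideal.mem_span_range_iff_exists_fun.1 hgI
  have hg0 : g ≠ 0 := by
    intro h0
    apply hx0
    have h1 : ∀ i, c0 i = 0 := fun i => by
      have := hdiv i; rw [h0] at this; exact zero_dvd_iff.1 this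
    have h2 : (⟨x, hx⟩ : Λ) = 0 := by
      apply β.repr.injective
      ext i
      simpa using h1 i
    simpa using congrArg Subtype.val h2
  choose d hd using hdiv
  -- c' = Σ d_i β_i
  let c1 : Λ := ∑ i, d i • β i
  have hxc : (⟨x, hx⟩ : Λ) = g • c1 := by
    rw [← β.sum_repr ⟨x, hx⟩]
    simp only [c1, Finset.smul_sum]
    refine Finset.sum_congr rfl fun i _ => ?_
    rw [smul_smul]
    congr 1
    exact hd i
  -- the rational functional
  have hli : LinearIndependent ℤ (fun i => (β i : V)) := by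
    have := β.linearIndependent
    exact this.map' Λ.subtype (by simp)
  have hliQ : LinearIndependent ℚ (fun i => (β i : V)) :=
    (LinearIndependent.iff_fractionRing ℤ ℚ).1 hli
  have hext : ∃ a : V →ₗ[ℚ] ℚ, ∀ i, a (β i : V) = t i := by
    have hf : ∃ f : Submodule.span ℚ (Set.range fun i => (β i : V)) →ₗ[ℚ] ℚ,
        ∀ i, f (Module.Basis.span hliQ i) = (t i : ℚ) :=
      ⟨(Module.Basis.span hliQ).constr ℚ (fun i => (t i : ℚ)), fun i => by
        rw [Module.Basis.constr_basis]⟩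
    obtain ⟨f, hf⟩ := hf
    obtain ⟨a, ha⟩ := LinearMap.exists_extend f
    refine ⟨a, fun i => ?_⟩
    have h1 : a (Module.Basis.span hliQ i : V) = f (Module.Basis.span hliQ i) :=
      LinearMap.congr_fun ha (Module.Basis.span hliQ i)
    have h2 : ((Module.Basis.span hliQ i : _) : V) = β i := by
      rw [Module.Basis.span_apply]
    rw [hf, h2] at h1
    exact h1
  obtain ⟨a, haβ⟩ := hext
  have haΛ : ∀ y : Λ, a (y : V) = ((∑ i, β.repr y i * t i : ℤ) : ℚ) := by
    intro y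
    have h1 : (y : V) = ∑ i, (β.repr y i) • (β i : V) := by
      have := congrArg (Submodule.subtype Λ) (β.sum_repr y)
      rw [map_sum] at this
      simpa using this.symm
    rw [h1, map_sum]
    push_cast
    refine Finset.sum_congr rfl fun i _ => ?_
    rw [← haβ i, ← zsmul_eq_mul]
    exact map_zsmul a _ _
  have hac1 : a (c1 : V) = 1 := by
    have h1 : a x = (g : ℚ) := by
      have := haΛ ⟨x, hx⟩
      rw [this]
      have h2 : (∑ i, t i * c0 i) = g := by simpa using ht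
      rw [← h2]
      push_cast
      exact Finset.sum_congr rfl fun i _ => mul_comm _ _
    have h2 : x = g • (c1 : V) := by
      have := congrArg Subtype.val hxc
      simpa using this
    have h3 : a x = (g : ℚ) * a (c1 : V) := by
      conv_lhs => rw [h2]
      rw [map_zsmul, zsmul_eq_mul]
    rw [h1] at h3
    have hgq : (g : ℚ) ≠ 0 := by exact_mod_cast hg0
    exact (mul_left_cancel₀ hgq (show (g : ℚ) * a (c1 : V) = (g : ℚ) * 1 by linarith))
  have hxV : x = g • (c1 : V) := by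
    have := congrArg Subtype.val hxc
    simpa using this
  rcases lt_or_gt_of_ne hg0 with hneg | hpos
  · refine ⟨g.natAbs, Int.natAbs_pos.2 hg0, -(c1 : V), Submodule.neg_mem _ c1.2, -a, ?_, ?_, ?_⟩
    · rw [hxV]
      have h1 : ((g.natAbs : ℕ) : ℚ) = -(g : ℚ) := by
        rw [Nat.cast_natAbs, abs_of_neg hneg]; push_cast; ring
      rw [h1, ← Int.cast_smul_eq_zsmul ℚ]
      simp
    · simp [hac1]
    · intro y hy
      refine ⟨-(∑ i, β.repr ⟨y, hy⟩ i * t i), ?_⟩
      have := haΛ ⟨y, hy⟩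
      simp only [LinearMap.neg_apply]
      rw [this]
      push_cast; ring
  · refine ⟨g.natAbs, Int.natAbs_pos.2 hg0, (c1 : V), c1.2, a, ?_, hac1, ?_⟩
    · rw [hxV]
      have h1 : ((g.natAbs : ℕ) : ℚ) = (g : ℚ) := by
        rw [Nat.cast_natAbs, abs_of_pos hpos]
      rw [h1, ← Int.cast_smul_eq_zsmul ℚ]
    · intro y hy
      exact ⟨_, haΛ ⟨y, hy⟩⟩

/-- The numerical lemma. -/
theorem num (r1 r2 s z : ℚ) (hr : 0 < r1 * r2) (ε : ℚ) (hε : 0 < ε) (K0 : ℚ) :
    ∃ K K2 : ℕ, ∃ τ : ℚ, K0 < K ∧ 0 < K2 ∧ |τ| < ε ∧ τ * (K2 - z) = s + K * r1 - K2 * r2 := by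
  have hr2 : r2 ≠ 0 := by rintro rfl; simp at hr
  have hq : 0 < r1 / r2 := by
    have h1 : r1 / r2 = (r1 * r2) / (r2 * r2) := by field_simp
    rw [h1]
    exact div_pos hr (mul_self_pos.2 hr2)
  obtain ⟨K, hK⟩ := exists_nat_gt (max K0 ((|z| + |r2| / ε + 2 - s / r2) / (r1 / r2)))
  have hK0 : K0 < K := lt_of_le_of_lt (le_max_left _ _) hK
  have hK1 : (|z| + |r2| / ε + 2 - s / r2) / (r1 / r2) < K := lt_of_le_of_lt (le_max_right _ _) hK
  rw [div_lt_iff₀ hq] at hK1
  set u : ℚ := K * (r1 / r2) + s / r2 with hu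
  have hu1 : |z| + |r2| / ε + 2 < u := by rw [hu]; linarith
  have hpos1 : 0 ≤ |z| := abs_nonneg z
  have hpos2 : 0 ≤ |r2| / ε := by positivity
  have hu0 : 0 ≤ u := by linarith
  set K2 := ⌊u⌋₊ with hK2
  have h1 : (K2 : ℚ) ≤ u := Nat.floor_le hu0
  have h2 : u < K2 + 1 := Nat.lt_floor_add_one u
  have hz : z ≤ |z| := le_abs_self z
  have h3 : |r2| / ε + 1 < K2 - z := by linarith
  have h4 : (0 : ℚ) < K2 - z := by linarith
  refine ⟨K, K2, r2 * (u - K2) / (K2 - z), hK0, ?_, ?_, ?_⟩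
  · have : (0 : ℚ) < K2 := by linarith
    exact_mod_cast this
  · rw [abs_div, abs_mul, abs_of_pos h4, div_lt_iff₀ h4]
    have h5 : |u - K2| ≤ 1 := by rw [abs_le]; constructor <;> linarith
    have h6 : |r2| * |u - K2| ≤ |r2| := by
      calc |r2| * |u - K2| ≤ |r2| * 1 := mul_le_mul_of_nonneg_left h5 (abs_nonneg _)
        _ = |r2| := mul_one _
    have h7 : |r2| < ε * (K2 - z) := by
      have : |r2| / ε < K2 - z := by linarith
      rw [div_lt_iff₀ hε] at this
      linarith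
    linarith
  · rw [div_mul_cancel₀ _ h4.ne', hu]
    field_simp
    ring

theorem exists_eps {α : Type*} (S : Set α) (hS : S.Finite) (f : α → ℚ) (hf : ∀ y ∈ S, 0 < f y) :
    ∃ ε : ℚ, 0 < ε ∧ ∀ y ∈ S, ε ≤ f y := by
  induction S, hS using Set.Finite.induction_on with
  | empty => exact ⟨1, one_pos, fun y hy => absurd hy (Set.notMem_empty y)⟩
  | @insert a S _ _ ih =>
    obtain ⟨ε, h1, h2⟩ := ih fun y hy => hf y (Set.mem_insert_of_mem _ hy)
    refine ⟨min ε (f a), lt_min h1 (hf a (Set.mem_insert _ _)), fun y hy => ?_⟩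
    rcases Set.mem_insert_iff.1 hy with rfl | hy
    · exact min_le_right _ _
    · exact (min_le_left _ _).trans (h2 y hy)

theorem exists_bd {α : Type*} (S : Set α) (hS : S.Finite) (f : α → ℚ) :
    ∃ K : ℚ, ∀ y ∈ S, f y < K := by
  induction S, hS using Set.Finite.induction_on with
  | empty => exact ⟨1, fun y hy => absurd hy (Set.notMem_empty y)⟩
  | @insert a S _ _ ih =>
    obtain ⟨K, h2⟩ := ih
    refine ⟨max K (f a + 1), fun y hy => ?_⟩
    rcases Set.mem_insert_iff.1 hy with rfl | hy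
    · exact lt_of_lt_of_le (lt_add_one _) (le_max_right _ _)
    · exact lt_of_lt_of_le (h2 y hy) (le_max_left _ _)

/-- A common denominator of finitely many rationals. -/
theorem common_den (f : ℕ → ℚ) (n : ℕ) : ∃ d : ℕ, 0 < d ∧ ∃ P : ℕ → ℤ, ∀ j < n, (d : ℚ) * f j = P j := by
  induction n with
  | zero => exact ⟨1, one_pos, fun _ => 0, fun j hj => absurd hj (Nat.not_lt_zero j)⟩
  | succ n ih =>
    obtain ⟨d, hd, P, hP⟩ := ih
    refine ⟨d * (f n).den, Nat.mul_pos hd (f n).den_pos,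
      fun j => if j < n then P j * (f n).den else d * (f n).num, fun j hj => ?_⟩
    by_cases hjn : j < n
    · simp only [if_pos hjn]
      push_cast
      rw [← hP j hjn]; ring
    · have : j = n := by omega
      subst this
      simp only [lt_irrefl, if_false]
      push_cast
      have := Rat.mul_den_eq_num (f j)
      rw [← this]; ring

/-- Two rationals have the same sign. -/
def SS (u v : ℚ) : Prop := (0 < u ↔ 0 < v) ∧ (u < 0 ↔ v < 0)

theorem SS_add {u v : ℚ} (h : |v| < |u|) : SS u (u + v) := by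
  rcases lt_trichotomy u 0 with h1 | h1 | h1
  · rw [abs_of_neg h1] at h
    have := abs_lt.1 h
    refine ⟨⟨fun h2 => ?_, fun h2 => ?_⟩, ⟨fun h2 => ?_, fun h2 => ?_⟩⟩ <;> linarith
  · rw [h1, abs_zero] at h
    exact absurd h (not_lt.2 (abs_nonneg _))
  · rw [abs_of_pos h1] at h
    have := abs_lt.1 h
    refine ⟨⟨fun h2 => ?_, fun h2 => ?_⟩, ⟨fun h2 => ?_, fun h2 => ?_⟩⟩ <;> linarith

/-- Forget the coordinates below `i0`. -/
noncomputable def prj (i0 : ℕ) : V →ₗ[ℚ] V :=
  LinearMap.id - ∑ i ∈ Finset.range i0, (Finsupp.lsingle i) ∘ₗ (Finsupp.lapply i)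

theorem prj_apply (i0 : ℕ) (v : V) (j : ℕ) : prj i0 v j = if j < i0 then 0 else v j := by
  unfold prj
  simp only [LinearMap.sub_apply, LinearMap.id_apply, LinearMap.sum_apply, LinearMap.comp_apply,
    Finsupp.sub_apply, Finsupp.finsetSum_apply, Finsupp.lsingle_apply, Finsupp.lapply_apply,
    Finsupp.single_apply]
  rw [Finset.sum_ite_eq' (Finset.range i0) j (fun i => v i)]
  by_cases h : j < i0 <;> simp [h]

theorem act_exists (Hs : AddSubgroup V) (S : Set V) (hfin : S.Finite) (hSH : ∀ y ∈ S, y ∈ Hs)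
    (i0 : ℕ) (he : (single i0 1 : V) ∈ S) (ρ : V →ₗ[ℚ] ℚ) (hρ : ∀ y ∈ S, y ≠ 0 → ρ y ≠ 0)
    (g1 g2 : V) (hg1 : g1 ∈ S) (hg2 : g2 ∈ S)
    (hsgn : 0 < ρ g1 * ρ g2) (k l : ℕ) (hm : g1 k * g2 l - g1 l * g2 k ≠ 0) (q : ℚ)
    (hq : q = 1 ∨ q = -1) :
    ∃ (a : V →ₗ[ℚ] ℚ) (x : V) (ρ' : V →ₗ[ℚ] ℚ),
      (∀ i < i0, a (single i 1) = 0) ∧
      (∀ y ∈ S, y + a y • x ∈ Hs) ∧
      (∀ y ∈ S, ∀ y' ∈ S, y + a y • x = y' + a y' • x → y = y') ∧
      (∀ y ∈ S, SS (ρ y) (ρ' (y + a y • x))) ∧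
      ∃ (d A C : ℕ) (B : ℕ → ℤ), 0 < d ∧ 0 < C ∧
        (q * d) • (single i0 1 + a (single i0 1) • x) + (A : ℚ) • g1 +
          ∑ j ∈ Finset.range i0, (((B j).natAbs : ℕ) : ℚ) •
            (g1 - (q * ((B j).sign : ℤ)) • (single j 1 : V)) = (C : ℚ) • g2 := by
  classical
  have hqq : q * q = 1 := by rcases hq with rfl | rfl <;> norm_num
  -- the primitive vector
  let π := prj i0
  have hπe : π (single i0 1) = single i0 1 := by
    ext j
    rw [prj_apply, Finsupp.single_apply]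
    by_cases h : j < i0
    · rw [if_pos h, if_neg (by omega)]
    · rw [if_neg h]
  have hmem : (single i0 1 : V) ∈ Submodule.span ℤ (π '' S) := by
    rw [← hπe]; exact Submodule.subset_span ⟨_, he, rfl⟩
  obtain ⟨b, hb, c, hc, a0, hbc, hac, haint⟩ := prim (π '' S) (hfin.image _) _ hmem
    (by simp)
  have hcmap : c ∈ (Submodule.span ℤ S).map (π.restrictScalars ℤ) := by
    rw [Submodule.map_span]; exact hc
  obtain ⟨c', hc', hπc⟩ := hcmap
  have hπc' : π c' = c := hπc
  have hbq : (b : ℚ) ≠ 0 := by exact_mod_cast hb.ne'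
  let a : V →ₗ[ℚ] ℚ := a0 ∘ₗ π
  have haS : ∀ y ∈ S, ∃ n : ℤ, a y = n := fun y hy =>
    haint _ (Submodule.subset_span ⟨y, hy, rfl⟩)
  have hae : a (single i0 1) = b := by
    show a0 (π (single i0 1)) = b
    rw [hπe, hbc, map_smul, hac]; simp
  have hac' : a c' = 1 := by show a0 (π c') = 1; rw [hπc', hac]
  have hlow : ∀ i < i0, a (single i 1) = 0 := by
    intro i hi
    have : π (single i 1) = 0 := by
      ext j
      rw [prj_apply, Finsupp.single_apply]
      by_cases h : j < i0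
      · rw [if_pos h]; rfl
      · rw [if_neg h, if_neg (by omega)]; rfl
    show a0 (π (single i 1)) = 0
    rw [this, map_zero]
  set p : V := single i0 1 - (b : ℚ) • c' with hp
  have hplow : ∀ j, i0 ≤ j → p j = 0 := by
    intro j hj
    have h1 : π p = 0 := by rw [hp, map_sub, map_smul, hπe, hπc', ← hbc, sub_self]
    have h2 : π p j = 0 := by rw [h1]; rfl
    rw [prj_apply, if_neg (by omega)] at h2
    exact h2
  -- the dual functionals
  set m := g1 k * g2 l - g1 l * g2 k with hmdef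
  let ζ0 : V →ₗ[ℚ] ℚ := m⁻¹ • (g1 k • Finsupp.lapply l - g1 l • Finsupp.lapply k)
  let ζ1 : V →ₗ[ℚ] ℚ := m⁻¹ • (g2 l • Finsupp.lapply k - g2 k • Finsupp.lapply l)
  have hζ0 : ∀ v, ζ0 v = m⁻¹ * (g1 k * v l - g1 l * v k) := fun v => rfl
  have hζ1 : ∀ v, ζ1 v = m⁻¹ * (g2 l * v k - g2 k * v l) := fun v => rfl
  have h01 : ζ0 g1 = 0 := by rw [hζ0]; ring
  have h02 : ζ0 g2 = 1 := by rw [hζ0, ← hmdef, inv_mul_cancel₀ hm]
  have h11 : ζ1 g1 = 1 := by
    rw [hζ1]
    have : g2 l * g1 k - g2 k * g1 l = m := by rw [hmdef]; ring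
    rw [this, inv_mul_cancel₀ hm]
  have h12 : ζ1 g2 = 0 := by rw [hζ1]; ring
  clear_value ζ0 ζ1
  clear hζ0 hζ1
  -- bounds
  obtain ⟨ε, hε, hε2⟩ := exists_eps {y ∈ S | y ≠ 0} (hfin.subset (fun y hy => hy.1))
    (fun y => |ρ y| / (|ζ0 y| + 1)) (fun y hy => by
      have h1 := abs_pos.2 (hρ y hy.1 hy.2)
      have h2 : 0 < |ζ0 y| + 1 := by linarith [abs_nonneg (ζ0 y)]
      exact div_pos h1 h2)
  obtain ⟨K1, hK1⟩ := exists_bd (S ×ˢ S) (hfin.prod hfin)
    (fun z => |ζ1 (c' - (a z.1 - a z.2)⁻¹ • (z.1 - z.2))|)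
  set P1 : ℚ := ∑ j ∈ Finset.range i0, |p j| with hP1
  obtain ⟨K, K2, τ, hK, hK2, hτ, heq⟩ := num (ρ g1) (ρ g2) (q * ρ c') (q * ζ0 c') hsgn ε hε
    (max K1 P1)
  set w : V := q • (-(K : ℚ) • g1 + (K2 : ℚ) • g2) with hw
  let ρ' : V →ₗ[ℚ] ℚ := ρ + τ • ζ0
  have hρ'x : ρ' (w - c') = 0 := by
    have h1 : ρ' (w - c') = ρ w - ρ c' + τ * (ζ0 w - ζ0 c') := by
      show ρ (w - c') + τ * ζ0 (w - c') = _
      rw [map_sub, map_sub]
    rw [h1, hw]
    simp only [map_smul, map_add, smul_eq_mul, h01, h02]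
    have h2 : q * (τ * (K2 - q * ζ0 c')) = q * (q * ρ c' + K * ρ g1 - K2 * ρ g2) := by rw [heq]
    have h3 : q * (τ * (K2 - q * ζ0 c')) = q * τ * K2 - τ * (q * q) * ζ0 c' := by ring
    have h4 : q * (q * ρ c' + K * ρ g1 - K2 * ρ g2) =
        (q * q) * ρ c' + q * K * ρ g1 - q * K2 * ρ g2 := by ring
    rw [h3, h4, hqq] at h2
    linear_combination h2
  refine ⟨a, w - c', ρ', hlow, ?_, ?_, ?_, ?_⟩
  · intro y hy
    obtain ⟨n, hn⟩ := haS y hy
    have hcH : c' ∈ Hs := by
      have h1 : Submodule.span ℤ S ≤ AddSubgroup.toIntSubmodule Hs :=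
        Submodule.span_le.2 fun y hy => hSH y hy
      exact h1 hc'
    have hwH : w ∈ Hs := by
      have h1 : -(K : ℚ) • g1 + (K2 : ℚ) • g2 = -(K • g1) + K2 • g2 := by
        rw [neg_smul, Nat.cast_smul_eq_nsmul ℚ, Nat.cast_smul_eq_nsmul ℚ]
      have h2 : -(K : ℚ) • g1 + (K2 : ℚ) • g2 ∈ Hs := by
        rw [h1]
        exact Hs.add_mem (Hs.neg_mem (Hs.nsmul_mem (hSH _ hg1) _)) (Hs.nsmul_mem (hSH _ hg2) _)
      rw [hw]
      rcases hq with rfl | rfl
      · rw [one_smul]; exact h2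
      · rw [neg_smul, one_smul]; exact Hs.neg_mem h2
    rw [hn, Int.cast_smul_eq_zsmul]
    exact Hs.add_mem (hSH y hy) (Hs.zsmul_mem (Hs.sub_mem hwH hcH) _)
  · intro y hy y' hy' h
    by_cases haa : a y = a y'
    · rw [haa] at h
      exact add_right_cancel h
    · exfalso
      have h1 : a y - a y' ≠ 0 := sub_ne_zero.2 haa
      have h2 : w = c' - (a y - a y')⁻¹ • (y - y') := by
        have h3 : (a y - a y') • (w - c') = -(y - y') := by
          rw [sub_smul]
          have h4 : a y • (w - c') - a y' • (w - c') =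
            (y + a y • (w - c')) - (y' + a y' • (w - c')) - (y - y') := by abel
          rw [h4, h, sub_self, zero_sub]
        have h5 : w - c' = (a y - a y')⁻¹ • (-(y - y')) := by
          rw [← h3, smul_smul, inv_mul_cancel₀ h1, one_smul]
        rw [smul_neg] at h5
        rw [← sub_add_cancel w c', h5]; abel
      have h6 := hK1 (y, y') ⟨hy, hy'⟩
      simp only at h6
      rw [← h2, hw, map_smul, map_add, map_smul, map_smul, h11, h12] at h6
      have h7 : |q • (-(K : ℚ) • (1 : ℚ) + (K2 : ℚ) • (0 : ℚ))| = K := by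
        simp only [smul_eq_mul, mul_one, mul_zero, add_zero, abs_mul, abs_neg, Nat.abs_cast]
        rcases hq with rfl | rfl <;> simp
      rw [h7] at h6
      have := lt_of_le_of_lt (le_max_left K1 P1) hK
      linarith
  · intro y hy
    have h1 : ρ' (y + a y • (w - c')) = ρ y + τ * ζ0 y := by
      rw [map_add, map_smul, hρ'x, smul_zero, add_zero]; rfl
    rw [h1]
    by_cases hy0 : y = 0
    · rw [hy0]; simp [SS]
    · apply SS_add
      have h2 := hε2 y ⟨hy, hy0⟩
      have h3 : 0 < |ζ0 y| + 1 := by linarith [abs_nonneg (ζ0 y)]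
      rw [le_div_iff₀ h3] at h2
      rw [abs_mul]
      have h4 : |τ| * |ζ0 y| ≤ ε * |ζ0 y| := mul_le_mul_of_nonneg_right hτ.le (abs_nonneg _)
      nlinarith [abs_nonneg (ζ0 y)]
  · obtain ⟨d, hd, P, hP⟩ := common_den p i0
    have hdq : (0 : ℚ) < d := by exact_mod_cast hd
    have hsum : (∑ j ∈ Finset.range i0, (((P j).natAbs : ℕ) : ℚ)) = d * P1 := by
      rw [hP1, Finset.mul_sum]
      refine Finset.sum_congr rfl fun j hj => ?_
      rw [Nat.cast_natAbs, Int.cast_abs, ← hP j (Finset.mem_range.1 hj), abs_mul,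
        abs_of_pos hdq]
    have hA : ∃ A : ℕ, (A : ℚ) = d * b * K - d * P1 := by
      have h1 : ((∑ j ∈ Finset.range i0, (P j).natAbs : ℕ) : ℚ) = d * P1 := by
        rw [← hsum]; push_cast; rfl
      have h2 : d * P1 ≤ ((d * b * K : ℕ) : ℚ) := by
        push_cast
        have h3 : P1 < K := lt_of_le_of_lt (le_max_right K1 P1) hK
        have h4 : (1 : ℚ) ≤ b := by exact_mod_cast hb
        have h5 : (0 : ℚ) ≤ K := Nat.cast_nonneg K
        have h6 : (K : ℚ) ≤ b * K := by nlinarith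
        have h7 : P1 ≤ b * K := by linarith
        calc d * P1 ≤ d * (b * K) := mul_le_mul_of_nonneg_left h7 hdq.le
          _ = d * b * K := by ring
      rw [← h1] at h2
      have h3 : (∑ j ∈ Finset.range i0, (P j).natAbs) ≤ d * b * K := by exact_mod_cast h2
      refine ⟨d * b * K - ∑ j ∈ Finset.range i0, (P j).natAbs, ?_⟩
      rw [Nat.cast_sub h3, h1]; push_cast; ring
    obtain ⟨A, hA⟩ := hA
    refine ⟨d, A, d * b * K2, P, hd, Nat.mul_pos (Nat.mul_pos hd hb) hK2, ?_⟩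
    have h1 : (single i0 1 : V) + a (single i0 1) • (w - c') = p + (b : ℚ) • w := by
      rw [hae, hp, smul_sub]; abel
    have h2 : p = ∑ j ∈ Finset.range i0, p j • (single j 1 : V) := by
      ext i
      simp only [Finsupp.finsetSum_apply, Finsupp.smul_apply, Finsupp.single_apply, smul_eq_mul,
        mul_ite, mul_one, mul_zero]
      rw [Finset.sum_ite_eq' (Finset.range i0) i (fun j => p j)]
      by_cases h : i < i0
      · simp [h]
      · simp [h, hplow i (by omega)]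
    have h3 : (q * d) • p = ∑ j ∈ Finset.range i0, (q * P j) • (single j 1 : V) := by
      conv_lhs => rw [h2]
      rw [Finset.smul_sum]
      refine Finset.sum_congr rfl fun j hj => ?_
      rw [smul_smul, mul_assoc, hP j (Finset.mem_range.1 hj)]
    have h4 : ∑ j ∈ Finset.range i0, (((P j).natAbs : ℕ) : ℚ) •
            (g1 - (q * ((P j).sign : ℤ)) • (single j 1 : V)) =
          (d * P1) • g1 - ∑ j ∈ Finset.range i0, (q * P j) • (single j 1 : V) := by
      rw [← hsum, Finset.sum_smul, ← Finset.sum_sub_distrib]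
      refine Finset.sum_congr rfl fun j _ => ?_
      rw [smul_sub, smul_smul]
      congr 2
      have h5 : ((P j).sign : ℚ) * ((P j).natAbs : ℚ) = P j := by
        rw [Nat.cast_natAbs]
        exact_mod_cast Int.sign_mul_abs (P j)
      calc ((P j).natAbs : ℚ) * (q * ((P j).sign : ℤ)) = q * (((P j).sign : ℚ) * ((P j).natAbs : ℚ)) := by
            ring
        _ = q * P j := by rw [h5]
    have h6 : (q * d) • ((b : ℚ) • w) = (-(d * b * K : ℚ)) • g1 + (d * b * K2 : ℚ) • g2 := by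
      rw [hw, smul_smul, smul_smul]
      have : q * d * b * q = d * b := by
        calc q * d * b * q = (q * q) * (d * b) := by ring
          _ = d * b := by rw [hqq, one_mul]
      rw [this, smul_add, smul_smul, smul_smul]
      congr 2
      ring
    rw [h1, smul_add, h3, h6, h4, hA]
    push_cast
    module

end Pool.Agent.U44.KLS
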