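import Mathlib

/-!
Spans, pure closures and approximate bases in torsion-free groups.
-/

namespace Pool.Agent.U44.KLS

section span

variable {H : Type} [AddCommGroup H]

/-- The span of the first `k` members of a family. -/
def sp (f : ℕ → H) (k : ℕ) : Submodule ℤ H := Submodule.span ℤ (f '' Set.Iio k)

theorem mem_sp {f : ℕ → H} {k : ℕ} {x : H} :
    x ∈ sp f k ↔ ∃ c : ℕ → ℤ, x = ∑ i ∈ Finset.range k, c i • f i := by
  constructor
  · intro hx
    unfold sp at hx
    induction hx using Submodule.span_induction with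
    | mem x hx =>
      obtain ⟨i, hi, rfl⟩ := hx
      refine ⟨fun j => if j = i then 1 else 0, ?_⟩
      rw [Finset.sum_eq_single i]
      · simp
      · intro j _ hj; simp [hj]
      · intro h; exact absurd (Finset.mem_range.2 hi) h
    | zero => exact ⟨fun _ => 0, by simp⟩
    | add x y _ _ h1 h2 =>
      obtain ⟨c, rfl⟩ := h1
      obtain ⟨d, rfl⟩ := h2
      refine ⟨fun i => c i + d i, ?_⟩
      rw [← Finset.sum_add_distrib]
      exact Finset.sum_congr rfl fun i _ => (add_smul _ _ _).symm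
    | smul n x _ h1 =>
      obtain ⟨c, rfl⟩ := h1
      refine ⟨fun i => n * c i, ?_⟩
      rw [Finset.smul_sum]
      exact Finset.sum_congr rfl fun i _ => (mul_smul _ _ _).symm
  · rintro ⟨c, rfl⟩
    refine Submodule.sum_mem _ fun i hi => Submodule.smul_mem _ _ (Submodule.subset_span ?_)
    exact ⟨i, Finset.mem_range.1 hi, rfl⟩

theorem sp_le {f : ℕ → H} {k : ℕ} {S : Submodule ℤ H} (h : ∀ i < k, f i ∈ S) : sp f k ≤ S := by
  refine Submodule.span_le.2 ?_
  rintro _ ⟨i, hi, rfl⟩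
  exact h i hi

theorem sp_mem {f : ℕ → H} {k i : ℕ} (h : i < k) : f i ∈ sp f k :=
  Submodule.subset_span ⟨i, h, rfl⟩

theorem sp_mono {f : ℕ → H} {k l : ℕ} (h : k ≤ l) : sp f k ≤ sp f l :=
  sp_le fun _ hi => sp_mem (lt_of_lt_of_le hi h)

/-- The pure closure. -/
def cl (S : Submodule ℤ H) : Submodule ℤ H where
  carrier := {x | ∃ N : ℤ, N ≠ 0 ∧ N • x ∈ S}
  zero_mem' := ⟨1, one_ne_zero, by simp⟩
  add_mem' := by
    rintro x y ⟨N, hN, hx⟩ ⟨M, hM, hy⟩
    refine ⟨N * M, mul_ne_zero hN hM, ?_⟩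
    have : (N * M) • (x + y) = M • (N • x) + N • (M • y) := by
      rw [smul_add, smul_smul, smul_smul, mul_comm M N]
    rw [this]
    exact S.add_mem (S.smul_mem _ hx) (S.smul_mem _ hy)
  smul_mem' := by
    rintro k x ⟨N, hN, hx⟩
    refine ⟨N, hN, ?_⟩
    rw [smul_comm]
    exact S.smul_mem _ hx

theorem mem_cl {S : Submodule ℤ H} {x : H} : x ∈ cl S ↔ ∃ N : ℤ, N ≠ 0 ∧ N • x ∈ S := Iff.rfl

theorem le_cl (S : Submodule ℤ H) : S ≤ cl S := fun x hx => ⟨1, one_ne_zero, by simpa using hx⟩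

theorem cl_mono {S T : Submodule ℤ H} (h : S ≤ T) : cl S ≤ cl T := by
  rintro x ⟨N, hN, hx⟩
  exact ⟨N, hN, h hx⟩

theorem cl_cl {S : Submodule ℤ H} : cl (cl S) ≤ cl S := by
  rintro x ⟨N, hN, M, hM, hx⟩
  refine ⟨M * N, mul_ne_zero hM hN, ?_⟩
  rwa [mul_smul]

theorem cl_le_cl {S T : Submodule ℤ H} (h : S ≤ cl T) : cl S ≤ cl T := (cl_mono h).trans cl_cl

theorem cl_of_smul {S : Submodule ℤ H} {x : H} {N : ℤ} (hN : N ≠ 0) (h : N • x ∈ cl S) :
    x ∈ cl S := cl_cl ⟨N, hN, h⟩

end span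

section basis

variable {H : Type} [AddCommGroup H] (ν : ℕ → H)

/-- `ν j` depends on the earlier elements. -/
def dep (j : ℕ) : Prop := ν j ∈ cl (sp ν j)

/-- The elements `ν (nth p i)`. -/
noncomputable def fam (p : ℕ → Prop) (i : ℕ) : H := ν (Nat.nth p i)

variable {ν}

theorem mem_fam (p : ℕ → Prop) [DecidablePred p] (hp : ∀ j, ¬ p j → dep ν j) (a : ℕ) :
    ν a ∈ cl (sp (fam ν p) (Nat.count p (a + 1))) := by
  induction a using Nat.strong_induction_on with
  | _ a ih =>
    by_cases h : p a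
    · have h1 : fam ν p (Nat.count p a) = ν a := by unfold fam; rw [Nat.nth_count h]
      rw [← h1]
      refine le_cl _ (sp_mem ?_)
      exact Nat.count_lt_count_succ_iff.2 h
    · refine cl_le_cl (sp_le fun j hj => ?_) (hp a h)
      exact cl_mono (sp_mono (Nat.count_monotone p (by omega))) (ih j hj)

/-- Better approximations give larger closures. -/
theorem fam_mem_fam (p p' : ℕ → Prop) (hp : ∀ j, ¬ p j → dep ν j) (hpp : ∀ j, p j → p' j)
    (hinf : (Set.ofPred p').Infinite) (i : ℕ) : fam ν p' i ∈ cl (sp (fam ν p) (i + 1)) := by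
  classical
  have h1 := mem_fam p hp (Nat.nth p' i)
  refine cl_mono (sp_mono ?_) h1
  have h2 : Nat.count p (Nat.nth p' i + 1) ≤ Nat.count p' (Nat.nth p' i + 1) :=
    Nat.count_mono_left fun k _ => hpp k
  rw [Nat.count_nth_succ_of_infinite hinf] at h2
  exact h2

/-- The true basis is independent. -/
theorem fam_not_mem (hinf : (Set.ofPred fun j => ¬ dep ν j).Infinite) (i : ℕ) :
    fam ν (fun j => ¬ dep ν j) i ∉ cl (sp (fam ν fun j => ¬ dep ν j) i) := by
  intro h
  have h1 : ¬ dep ν (Nat.nth (fun j => ¬ dep ν j) i) := Nat.nth_mem_of_infinite hinf i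
  apply h1
  refine cl_mono (sp_le fun j hj => ?_) h
  exact sp_mem (Nat.nth_strictMono hinf hj)

theorem infinite_not_dep (hν : Function.Surjective ν)
    (hrank : Cardinal.aleph0 ≤ Module.rank ℤ H) : (Set.ofPred fun j => ¬ dep ν j).Infinite := by
  intro hfin
  obtain ⟨M, hM⟩ := hfin.bddAbove
  have hdep : ∀ j, M < j → dep ν j := by
    intro j hj
    by_contra hcon
    exact absurd (hM hcon) (not_le.2 hj)
  have hall : ∀ a, ν a ∈ cl (sp ν (M + 1)) := by
    intro a
    induction a using Nat.strong_induction_on with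
    | _ a ih =>
      by_cases h : a < M + 1
      · exact le_cl _ (sp_mem h)
      · exact cl_le_cl (sp_le fun j hj => ih j hj) (hdep a (by omega))
  have h0 : Module.rank ℤ (H ⧸ sp ν (M + 1)) = 0 := by
    rw [rank_eq_zero_iff]
    intro x
    obtain ⟨y, rfl⟩ := Submodule.Quotient.mk_surjective _ x
    obtain ⟨a, rfl⟩ := hν y
    obtain ⟨N, hN, hx⟩ := hall a
    refine ⟨N, hN, ?_⟩
    rw [← Submodule.Quotient.mk_smul, Submodule.Quotient.mk_eq_zero]
    exact hx
  have h1 := rank_quotient_add_rank_of_isDomain (R := ℤ) (sp ν (M + 1))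
  rw [h0, zero_add] at h1
  rw [← h1] at hrank
  have h2 : Module.rank ℤ (sp ν (M + 1)) < Cardinal.aleph0 := by
    refine lt_of_le_of_lt (rank_span_le _) ?_
    exact Cardinal.lt_aleph0_iff_set_finite.2 ((Set.finite_Iio _).image _)
  exact absurd hrank (not_le.2 h2)

end basis

end Pool.Agent.U44.KLS
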