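import Pool.Agent.Helper446.Comp
import Pool.Agent.Helper425_zc.Comp
import Pool.Agent.U44.KLS.Act

/-!
Codes of vectors and computability of the basic relations.
-/

namespace Pool.Agent.U44.KLS

open Encodable Finsupp Pool.Agent.Helper446 Pool.Agent.Helper446.RE

section comp

variable {α β : Type*} [Primcodable α] [Primcodable β]

@[fun_prop] theorem czadd {f g : α → ℤ} (hf : Computable f) (hg : Computable g) :
    Computable (fun x => f x + g x) := Helper425_zc.prim_add.to_comp.comp hf hg
@[fun_prop] theorem czsub {f g : α → ℤ} (hf : Computable f) (hg : Computable g) :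
    Computable (fun x => f x - g x) := Helper425_zc.prim_sub.to_comp.comp hf hg
@[fun_prop] theorem czmul {f g : α → ℤ} (hf : Computable f) (hg : Computable g) :
    Computable (fun x => f x * g x) := Helper425_zc.prim_mul.to_comp.comp hf hg
@[fun_prop] theorem cncast {f : α → ℕ} (hf : Computable f) :
    Computable (fun x => ((f x : ℕ) : ℤ)) := Helper425_zc.prim_natCast.to_comp.comp hf
@[fun_prop] theorem cnatAbs {f : α → ℤ} (hf : Computable f) :
    Computable (fun x => (f x).natAbs) := Helper425_zc.prim_natAbs.to_comp.comp hf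

theorem cp_zlt {f g : α → ℤ} (hf : Computable f) (hg : Computable g) :
    ComputablePred fun a => f a < g a := by
  have h1 : PrimrecPred fun x : ℤ × ℤ => x.1 < x.2 :=
    Helper425_zc.pp_lt Primrec.fst Primrec.snd
  exact cp_comp (p := fun x : ℤ × ℤ => x.1 < x.2) h1.computablePred (hf.pair hg)

theorem cp_and {p q : α → Prop} (hp : ComputablePred p) (hq : ComputablePred q) :
    ComputablePred fun a => p a ∧ q a := by
  refine cp_of_re (RE.and hp.to_re hq.to_re) ?_
  refine (RE.or hp.not.to_re hq.not.to_re).of_eq fun a => ?_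
  tauto

theorem cp_or {p q : α → Prop} (hp : ComputablePred p) (hq : ComputablePred q) :
    ComputablePred fun a => p a ∨ q a := by
  refine cp_of_re (RE.or hp.to_re hq.to_re) ?_
  refine (RE.and hp.not.to_re hq.not.to_re).of_eq fun a => ?_
  tauto

theorem cp_imp {p q : α → Prop} (hp : ComputablePred p) (hq : ComputablePred q) :
    ComputablePred fun a => p a → q a :=
  (cp_or hp.not hq).of_eq fun a => by tauto

theorem cp_bool {f : α → Bool} (hf : Computable f) : ComputablePred fun a => f a = true :=
  ComputablePred.computable_iff.2 ⟨f, hf, rfl⟩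

theorem cp_all {p : α → ℕ → Prop} (hp : ComputablePred fun x : α × ℕ => p x.1 x.2) {f : α → ℕ}
    (hf : Computable f) : ComputablePred fun a => ∀ i < f a, p a i := by
  classical
  obtain ⟨q, hq, h⟩ := ComputablePred.computable_iff.1 hp
  have h1 : Computable fun a => allB (fun i => q (a, i)) (f a) :=
    computable_allB (q := fun a i => q (a, i)) (by exact hq) hf
  refine (cp_bool h1).of_eq fun a => ?_
  rw [allB_iff]
  have : ∀ i, p a i ↔ q (a, i) = true := fun i => by
    have := congrFun h (a, i)
    simpa using this
  simp only [this]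

theorem cp_ex {p : α → ℕ → Prop} (hp : ComputablePred fun x : α × ℕ => p x.1 x.2) {f : α → ℕ}
    (hf : Computable f) : ComputablePred fun a => ∃ i < f a, p a i := by
  have h := (cp_all (p := fun a i => ¬ p a i) hp.not hf).not
  refine h.of_eq fun a => ?_
  push Not
  rfl

/-- Finite sums of computable integer functions. -/
theorem csum {f : α → ℕ → ℤ} (hf : Computable₂ f) {n : α → ℕ} (hn : Computable n) :
    Computable fun a => ∑ i ∈ Finset.range (n a), f a i := by
  have h := Computable.nat_rec (f := n) (g := fun _ : α => (0 : ℤ))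
    (h := fun (a : α) (y : ℕ × ℤ) => y.2 + f a y.1) hn (Computable.const 0)
    (czadd (Computable.snd.comp Computable.snd)
      (hf.comp Computable.fst (Computable.fst.comp Computable.snd)))
  refine h.of_eq fun a => ?_
  generalize n a = k
  induction k with
  | zero => rfl
  | succ k ih => rw [Finset.sum_range_succ]; simp only; rw [← ih]

@[fun_prop] theorem cgetD {f : α → List β} {g : α → ℕ} {d : β} (hf : Computable f)
    (hg : Computable g) : Computable (fun x => (f x).getD (g x) d) := by
  have h : Computable (fun x => ((f x)[g x]?).getD d) :=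
    Primrec.option_getD.to_comp.comp (cgetElem hf hg) (Computable.const d)
  exact h.of_eq fun x => by rw [List.getD_eq_getElem?_getD]

end comp

/-- The `i`-th coordinate of a coded vector. -/
def co (Y : List ℤ) (i : ℕ) : ℤ := Y.getD i 0

theorem co_zero {Y : List ℤ} {i : ℕ} (h : Y.length ≤ i) : co Y i = 0 := by
  unfold co
  rw [List.getD_eq_getElem?_getD, List.getElem?_eq_none h]; rfl

@[fun_prop] theorem cco {α : Type*} [Primcodable α] {f : α → List ℤ} {g : α → ℕ}
    (hf : Computable f) (hg : Computable g) : Computable (fun x => co (f x) (g x)) :=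
  cgetD hf hg

/-- The `m`-th row. -/
def row (L : List (List ℤ)) (m : ℕ) : List ℤ := L.getD m []

@[fun_prop] theorem crow {α : Type*} [Primcodable α] {f : α → List (List ℤ)} {g : α → ℕ}
    (hf : Computable f) (hg : Computable g) : Computable (fun x => row (f x) (g x)) :=
  cgetD hf hg

/-- The integer pairing. -/
def dot (R Y : List ℤ) : ℤ := ∑ i ∈ Finset.range Y.length, co R i * co Y i

@[fun_prop] theorem cdot {α : Type*} [Primcodable α] {f g : α → List ℤ}
    (hf : Computable f) (hg : Computable g) : Computable (fun x => dot (f x) (g x)) := by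
  unfold dot
  refine csum (f := fun x i => co (f x) i * co (g x) i) ?_ (by fun_prop)
  unfold Computable₂
  fun_prop

/-- The vector with code `(Y, D)`. -/
noncomputable def vec (Y : List ℤ) (D : ℕ) : V :=
  Finsupp.onFinset (Finset.range Y.length) (fun i => (co Y i : ℚ) / (D + 1)) (fun i hi => by
    by_contra h
    rw [Finset.mem_range, not_lt] at h
    apply hi
    rw [co_zero h]; simp)

theorem vec_apply (Y : List ℤ) (D i : ℕ) : vec Y D i = (co Y i : ℚ) / (D + 1) := rfl

/-- The functional with code `R`. -/
noncomputable def fn (R : List ℤ) : V →ₗ[ℚ] ℚ :=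
  Finsupp.linearCombination ℚ (fun i => (co R i : ℚ))

theorem fn_vec (R Y : List ℤ) (D : ℕ) : fn R (vec Y D) = (dot R Y : ℚ) / (D + 1) := by
  unfold fn
  rw [Finsupp.linearCombination_apply, Finsupp.sum_of_support_subset (s := Finset.range Y.length)]
  · unfold dot
    push_cast
    rw [Finset.sum_div]
    refine Finset.sum_congr rfl fun i _ => ?_
    rw [vec_apply, smul_eq_mul]; ring
  · intro i hi
    by_contra h
    rw [Finset.mem_range, not_lt] at h
    rw [Finsupp.mem_support_iff, vec_apply, co_zero h] at hi
    simp at hi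
  · intro i _; simp

theorem fn_single (R : List ℤ) (i : ℕ) : fn R (single i 1) = co R i := by
  unfold fn; simp

theorem fn_nil : fn [] = 0 := by
  ext i
  simp [fn_single, co]

theorem dpos (D : ℕ) : (0 : ℚ) < (D : ℚ) + 1 := by positivity

/-- The basic relation on codes. -/
theorem vec_rel (Y Y1 X : List ℤ) (D D1 E : ℕ) (k : ℤ) :
    vec Y D = vec Y1 D1 + (k : ℚ) • vec X E ↔
      ∀ i < Y.length + Y1.length + X.length,
        co Y i * ((D1 + 1) * (E + 1)) =
          (D + 1) * (co Y1 i * (E + 1) + k * co X i * (D1 + 1)) := by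
  have key : ∀ i, (vec Y D i = (vec Y1 D1 + (k : ℚ) • vec X E) i) ↔
      co Y i * ((D1 + 1) * (E + 1)) =
          (D + 1) * (co Y1 i * (E + 1) + k * co X i * (D1 + 1)) := by
    intro i
    rw [Finsupp.add_apply, Finsupp.smul_apply, vec_apply, vec_apply, vec_apply, smul_eq_mul]
    have h1 := (dpos D).ne'
    have h2 := (dpos D1).ne'
    have h3 := (dpos E).ne'
    rw [← @Int.cast_inj ℚ]
    push_cast
    constructor
    · intro h
      field_simp at h
      linear_combination h
    · intro h
      field_simp
      linear_combination h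
  constructor
  · intro h i _
    exact (key i).1 (by rw [h])
  · intro h
    ext i
    by_cases hi : i < Y.length + Y1.length + X.length
    · exact (key i).2 (h i hi)
    · rw [Finsupp.add_apply, Finsupp.smul_apply, vec_apply, vec_apply, vec_apply,
        co_zero (by omega), co_zero (by omega), co_zero (by omega)]
      simp

section

variable {α : Type*} [Primcodable α]

theorem cp_vec {Y Y1 X : α → List ℤ} {D D1 E : α → ℕ} {k : α → ℤ} (hY : Computable Y)
    (hY1 : Computable Y1) (hX : Computable X) (hD : Computable D) (hD1 : Computable D1)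
    (hE : Computable E) (hk : Computable k) :
    ComputablePred fun a => vec (Y a) (D a) = vec (Y1 a) (D1 a) + (k a : ℚ) • vec (X a) (E a) := by
  have h : ComputablePred fun a => ∀ i < (Y a).length + (Y1 a).length + (X a).length,
        co (Y a) i * ((D1 a + 1) * (E a + 1)) =
          (D a + 1) * (co (Y1 a) i * (E a + 1) + k a * co (X a) i * (D1 a + 1)) := by
    refine cp_all (p := fun a i => co (Y a) i * ((D1 a + 1) * (E a + 1)) =
          (D a + 1) * (co (Y1 a) i * (E a + 1) + k a * co (X a) i * (D1 a + 1))) ?_ (by fun_prop)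
    exact cp_eq (by fun_prop) (by fun_prop)
  exact h.of_eq fun a => (vec_rel _ _ _ _ _ _ _).symm

theorem cp_vec_eq {Y Y1 : α → List ℤ} {D D1 : α → ℕ} (hY : Computable Y)
    (hY1 : Computable Y1) (hD : Computable D) (hD1 : Computable D1) :
    ComputablePred fun a => vec (Y a) (D a) = vec (Y1 a) (D1 a) := by
  refine (cp_vec hY hY1 (Computable.const []) hD hD1 (Computable.const 0)
    (Computable.const 0)).of_eq fun a => ?_
  simp

theorem cp_fn_pos {Y R : α → List ℤ} {D : α → ℕ} (hY : Computable Y) (hR : Computable R) :
    ComputablePred fun a => 0 < fn (R a) (vec (Y a) (D a)) := by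
  have h : ComputablePred fun a => (0 : ℤ) < dot (R a) (Y a) := cp_zlt (by fun_prop) (by fun_prop)
  refine h.of_eq fun a => ?_
  rw [fn_vec, lt_div_iff₀ (dpos _), zero_mul]
  exact Int.cast_pos.symm

theorem cp_fn_neg {Y R : α → List ℤ} {D : α → ℕ} (hY : Computable Y) (hR : Computable R) :
    ComputablePred fun a => fn (R a) (vec (Y a) (D a)) < 0 := by
  have h : ComputablePred fun a => dot (R a) (Y a) < (0 : ℤ) := cp_zlt (by fun_prop) (by fun_prop)
  refine h.of_eq fun a => ?_
  rw [fn_vec, div_lt_iff₀ (dpos _), zero_mul]
  exact Int.cast_lt_zero.symm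

theorem Lv_vec (k : ℕ) (Y : List ℤ) (D : ℕ) :
    Lv k (vec Y D) ↔ ∀ i < Y.length, k ≤ i → co Y i = 0 := by
  constructor
  · intro h i _ hk
    have := h i hk
    rw [vec_apply, div_eq_zero_iff] at this
    rcases this with h | h
    · exact_mod_cast h
    · exact absurd h (dpos D).ne'
  · intro h i hk
    rw [vec_apply]
    by_cases hi : i < Y.length
    · rw [h i hi hk]; simp
    · rw [co_zero (by omega)]; simp

theorem cp_Lv {k : α → ℕ} {Y : α → List ℤ} {D : α → ℕ} (hk : Computable k) (hY : Computable Y) :
    ComputablePred fun a => Lv (k a) (vec (Y a) (D a)) := by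
  have h : ComputablePred fun a => ∀ i < (Y a).length, k a ≤ i → co (Y a) i = 0 := by
    refine cp_all (p := fun a i => k a ≤ i → co (Y a) i = 0) ?_ (by fun_prop)
    exact cp_imp (cp_le (by fun_prop) (by fun_prop)) (cp_eq (by fun_prop) (by fun_prop))
  exact h.of_eq fun a => (Lv_vec _ _ _).symm

/-- The code of a unit vector. -/
def unitL (i : ℕ) : List ℤ := (List.range (i + 1)).map fun j => if j = i then 1 else 0

theorem cunitL : Computable unitL := by
  have h : Primrec unitL := by
    refine Primrec.list_map (Primrec.list_range.comp (Primrec.succ)) ?_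
    refine Primrec.ite ?_ (Primrec.const 1) (Primrec.const 0)
    exact Primrec.eq.comp Primrec.snd Primrec.fst
  exact h.to_comp

theorem vec_unitL (i : ℕ) : vec (unitL i) 0 = single i 1 := by
  ext j
  rw [vec_apply, Finsupp.single_apply]
  unfold unitL co
  rw [List.getD_eq_getElem?_getD, List.getElem?_map]
  by_cases h : j < i + 1
  · rw [List.getElem?_range h]
    by_cases h2 : j = i
    · simp [h2]
    · simp [h2, Ne.symm h2]
  · rw [List.getElem?_eq_none (by simpa using h)]
    have : i ≠ j := by omega
    simp [this]

end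

end Pool.Agent.U44.KLS
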