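import Pool.Agent.U44.KLS.Alg
import Pool.Agent.U44.KLS.Seq

/-!
A recursively enumerable subgroup of the rational vector space isomorphic to a given computable
torsion-free group of infinite rank.
-/

namespace Pool.Agent.U44.KLS

open Encodable Finsupp Pool.Agent.Helper446 Pool.Agent.Helper446.RE

section group

variable {H : Type} [AddCommGroup H] {ν : ℕ ≃ H}
variable {α : Type*} [Primcodable α]

theorem c_hadd (hadd : Computable₂ fun a b : ℕ => ν.symm (ν a + ν b)) {f g : α → ℕ}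
    (hf : Computable f) (hg : Computable g) : Computable fun x => ν.symm (ν (f x) + ν (g x)) :=
  hadd.comp hf hg

theorem c_hsum (hadd : Computable₂ fun a b : ℕ => ν.symm (ν a + ν b)) {f : α → ℕ → ℕ}
    (hf : Computable₂ f) {n : α → ℕ} (hn : Computable n) :
    Computable fun a => ν.symm (∑ i ∈ Finset.range (n a), ν (f a i)) := by
  have h := Computable.nat_rec (f := n) (g := fun _ : α => ν.symm 0)
    (h := fun (a : α) (y : ℕ × ℕ) => ν.symm (ν y.2 + ν (f a y.1))) hn (Computable.const _)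
    (c_hadd hadd (Computable.snd.comp Computable.snd)
      (hf.comp Computable.fst (Computable.fst.comp Computable.snd)))
  refine h.of_eq fun a => ?_
  generalize n a = k
  induction k with
  | zero => simp
  | succ k ih =>
    rw [Finset.sum_range_succ]
    simp only
    rw [ih, Equiv.apply_symm_apply]

theorem c_nsm (hadd : Computable₂ fun a b : ℕ => ν.symm (ν a + ν b)) {f g : α → ℕ}
    (hf : Computable f) (hg : Computable g) : Computable fun x => ν.symm (f x • ν (g x)) := by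
  have h := c_hsum (ν := ν) hadd (f := fun x _ => g x) (n := f)
    (by unfold Computable₂; fun_prop) hf
  refine h.of_eq fun x => ?_
  simp

theorem c_zsm (hadd : Computable₂ fun a b : ℕ => ν.symm (ν a + ν b)) {f : α → ℤ} {g : α → ℕ}
    (hf : Computable f) (hg : Computable g) : Computable fun x => ν.symm (f x • ν (g x)) := by
  have h : Computable fun x : ℤ × ℕ => ν.symm (x.1 • ν x.2) := by
    apply computable_of_graph
    have h1 : REPred fun x : (ℤ × ℕ) × ℕ => ∃ p : ℕ × ℕ, x.1.1 = (p.1 : ℤ) - (p.2 : ℤ) ∧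
        ν.symm (p.1 • ν x.1.2) = ν.symm (ν x.2 + ν (ν.symm (p.2 • ν x.1.2))) := by
      refine RE.ex (p := fun (x : (ℤ × ℕ) × ℕ) (p : ℕ × ℕ) => x.1.1 = (p.1 : ℤ) - (p.2 : ℤ) ∧
        ν.symm (p.1 • ν x.1.2) = ν.symm (ν x.2 + ν (ν.symm (p.2 • ν x.1.2)))) ?_
      refine RE.and (RE.eq (by fun_prop) (by fun_prop)) (RE.eq ?_ ?_)
      · exact c_nsm hadd (by fun_prop) (by fun_prop)
      · exact c_hadd hadd (by fun_prop) (c_nsm hadd (by fun_prop) (by fun_prop))
    refine h1.of_eq fun x => ?_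
    obtain ⟨⟨k, a⟩, c⟩ := x
    simp only [Equiv.apply_symm_apply, EmbeddingLike.apply_eq_iff_eq]
    constructor
    · rintro ⟨p, h1, h2⟩
      rw [h1, sub_smul, natCast_zsmul, natCast_zsmul, h2, add_sub_cancel_right,
        Equiv.symm_apply_apply]
    · intro h
      refine ⟨(k.toNat, (-k).toNat), by simp only; omega, ?_⟩
      rw [← h, Equiv.apply_symm_apply]
      have : ((k.toNat : ℕ) : ℤ) = k + ((-k).toNat : ℕ) := by omega
      rw [← natCast_zsmul, this, add_smul, natCast_zsmul]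
  exact h.comp (hf.pair hg)

theorem c_lc (hadd : Computable₂ fun a b : ℕ => ν.symm (ν a + ν b)) {Y : α → List ℤ} {k : α → ℕ}
    {g : α → ℕ → ℕ} (hY : Computable Y) (hk : Computable k) (hg : Computable₂ g) :
    Computable fun a => ν.symm (∑ i ∈ Finset.range (k a), co (Y a) i • ν (g a i)) := by
  have hg' : Computable fun x : α × ℕ => g x.1 x.2 := hg
  have h := c_hsum (ν := ν) hadd (f := fun a i => ν.symm (co (Y a) i • ν (g a i))) (n := k)
    (by
      unfold Computable₂
      exact c_zsm hadd (f := fun x : α × ℕ => co (Y x.1) x.2) (g := fun x : α × ℕ => g x.1 x.2)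
        (by fun_prop) hg') hk
  refine h.of_eq fun x => ?_
  simp only [Equiv.apply_symm_apply]

theorem cl_sp_iff {f : ℕ → H} {k : ℕ} {x : H} : x ∈ cl (sp f k) ↔
    ∃ NY : ℤ × List ℤ, NY.1 ≠ 0 ∧ NY.1 • x = ∑ i ∈ Finset.range k, co NY.2 i • f i := by
  constructor
  · rintro ⟨N, hN, hx⟩
    obtain ⟨c, hc⟩ := mem_sp.1 hx
    refine ⟨(N, (List.range k).map c), hN, ?_⟩
    show N • x = _
    rw [hc]
    refine Finset.sum_congr rfl fun i hi => ?_
    simp only
    rw [co_map, if_pos (Finset.mem_range.1 hi)]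
  · rintro ⟨⟨N, Y⟩, hN, hx⟩
    exact ⟨N, hN, mem_sp.2 ⟨co Y, hx⟩⟩

theorem re_dep (hadd : Computable₂ fun a b : ℕ => ν.symm (ν a + ν b)) :
    REPred fun j => dep (fun a => ν a) j := by
  have h : REPred fun j : ℕ => ∃ NY : ℤ × List ℤ, NY.1 ≠ 0 ∧
      ν.symm (NY.1 • ν j) = ν.symm (∑ i ∈ Finset.range j, co NY.2 i • ν i) := by
    refine RE.ex (p := fun (j : ℕ) (NY : ℤ × List ℤ) => NY.1 ≠ 0 ∧
      ν.symm (NY.1 • ν j) = ν.symm (∑ i ∈ Finset.range j, co NY.2 i • ν i)) ?_
    refine RE.and (RE.ne (by fun_prop) (by fun_prop)) (RE.eq ?_ ?_)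
    · exact c_zsm hadd (by fun_prop) (by fun_prop)
    · exact c_lc hadd (Y := fun x : ℕ × (ℤ × List ℤ) => x.2.2) (k := fun x => x.1)
        (g := fun _ i => i) (by fun_prop) (by fun_prop) (by unfold Computable₂; fun_prop)
  refine h.of_eq fun j => ?_
  unfold dep
  rw [cl_sp_iff]
  simp only [EmbeddingLike.apply_eq_iff_eq]

end group

section approx

variable {P : ℕ → Prop}

/-- Approximations of an r.e. predicate. -/
theorem exists_approx (hre : REPred P) : ∃ D : ℕ → ℕ → Prop,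
    ComputablePred (fun x : ℕ × ℕ => D x.1 x.2) ∧ (∀ t j, D t j → P j ∧ j < t) ∧
    (∀ t t' j, t ≤ t' → D t j → D t' j) ∧ ∀ j, P j → ∃ t, D t j := by
  obtain ⟨q, hq, h⟩ := re_iff.1 hre
  have hq' : Computable fun x : ℕ × ℕ => q x.1 x.2 := hq
  refine ⟨fun t j => j < t ∧ ∃ s < t, q j s = true, ?_, ?_, ?_, ?_⟩
  · refine cp_and (cp_lt (by fun_prop) (by fun_prop)) ?_
    refine cp_ex (p := fun (x : ℕ × ℕ) s => q x.2 s = true) ?_ (by fun_prop)
    exact cp_bool (hq'.comp (g := fun x : (ℕ × ℕ) × ℕ => (x.1.2, x.2)) (by fun_prop))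
  · rintro t j ⟨h1, s, -, h2⟩
    exact ⟨(h j).2 ⟨s, h2⟩, h1⟩
  · rintro t t' j ht ⟨h1, s, hs, h2⟩
    exact ⟨lt_of_lt_of_le h1 ht, s, lt_of_lt_of_le hs ht, h2⟩
  · intro j hj
    obtain ⟨s, hs⟩ := (h j).1 hj
    exact ⟨max j s + 1, by omega, s, by omega, hs⟩

/-- The approximate basis. -/
noncomputable def bb (D : ℕ → ℕ → Prop) (t i : ℕ) : ℕ := Nat.nth (fun j => ¬ D t j) i

variable {D : ℕ → ℕ → Prop}

theorem inf_D (h1 : ∀ t j, D t j → P j ∧ j < t) (t : ℕ) :
    (Set.ofPred fun j => ¬ D t j).Infinite := by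
  refine (Set.Ici_infinite t).mono fun j hj hD => ?_
  exact absurd (h1 t j hD).2 (not_lt.2 hj)

theorem c_bb (hD : ComputablePred (fun x : ℕ × ℕ => D x.1 x.2))
    (h1 : ∀ t j, D t j → P j ∧ j < t) : Computable fun x : ℕ × ℕ => bb D x.1 x.2 := by
  classical
  have hcnt : Computable fun x : ℕ × ℕ => Nat.count (fun j => ¬ D x.1 j) x.2 := by
    have h := Computable.nat_rec (f := fun x : ℕ × ℕ => x.2) (g := fun _ => (0 : ℕ))
      (h := fun (x : ℕ × ℕ) (y : ℕ × ℕ) => y.2 + if ¬ D x.1 y.1 then 1 else 0)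
      (by fun_prop) (by fun_prop) (by
        unfold Computable₂
        refine cadd (by fun_prop) (cite ?_ (by fun_prop) (by fun_prop))
        exact (cp_comp hD (f := fun x : (ℕ × ℕ) × (ℕ × ℕ) => (x.1.1, x.2.1)) (by fun_prop)).not)
    refine h.of_eq fun x => ?_
    obtain ⟨t, n⟩ := x
    simp only
    induction n with
    | zero => simp
    | succ n ih => rw [Nat.count_succ, ← ih]
  apply computable_of_graph
  have h2 : ComputablePred fun x : (ℕ × ℕ) × ℕ => ¬ D x.1.1 x.2 ∧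
      Nat.count (fun j => ¬ D x.1.1 j) x.2 = x.1.2 := by
    refine cp_and (cp_comp hD (f := fun x : (ℕ × ℕ) × ℕ => (x.1.1, x.2)) (by fun_prop)).not ?_
    exact cp_eq (hcnt.comp (g := fun x : (ℕ × ℕ) × ℕ => (x.1.1, x.2)) (by fun_prop))
      (by fun_prop)
  refine h2.to_re.of_eq fun x => ?_
  obtain ⟨⟨t, i⟩, a⟩ := x
  simp only
  have hinf := inf_D h1 t
  constructor
  · rintro ⟨h3, h4⟩
    unfold bb
    rw [← h4]
    exact Nat.nth_count (p := fun j => ¬ D t j) h3
  · rintro rfl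
    exact ⟨Nat.nth_mem_of_infinite hinf i, Nat.count_nth_of_infinite hinf i⟩

theorem bb_conv (h1 : ∀ t j, D t j → P j ∧ j < t) (h2 : ∀ t t' j, t ≤ t' → D t j → D t' j)
    (h3 : ∀ j, P j → ∃ t, D t j) (hinf : (Set.ofPred fun j => ¬ P j).Infinite) (k : ℕ) :
    ∃ t0, ∀ t ≥ t0, ∀ i < k, bb D t i = Nat.nth (fun j => ¬ P j) i := by
  classical
  have h4 : ∀ M, ∃ t0, ∀ j < M, P j → D t0 j := by
    intro M
    induction M with
    | zero => exact ⟨0, fun j hj => absurd hj (Nat.not_lt_zero j)⟩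
    | succ M ih =>
      obtain ⟨t0, ht0⟩ := ih
      by_cases hM : P M
      · obtain ⟨t1, ht1⟩ := h3 M hM
        refine ⟨max t0 t1, fun j hj hP => ?_⟩
        rcases Nat.lt_succ_iff_lt_or_eq.1 hj with h | rfl
        · exact h2 _ _ j (le_max_left _ _) (ht0 j h hP)
        · exact h2 _ _ _ (le_max_right _ _) ht1
      · refine ⟨t0, fun j hj hP => ?_⟩
        rcases Nat.lt_succ_iff_lt_or_eq.1 hj with h | rfl
        · exact ht0 j h hP
        · exact absurd hP hM
  obtain ⟨t0, ht0⟩ := h4 (Nat.nth (fun j => ¬ P j) k)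
  refine ⟨t0, fun t ht i hi => ?_⟩
  set b := Nat.nth (fun j => ¬ P j) i with hb
  have hbk : b < Nat.nth (fun j => ¬ P j) k := Nat.nth_strictMono hinf hi
  have hPb : ¬ P b := Nat.nth_mem_of_infinite hinf i
  have hDb : ¬ D t b := fun h => hPb (h1 t b h).1
  have hcount : Nat.count (fun j => ¬ D t j) b = i := by
    have e1 : Nat.count (fun j => ¬ D t j) b = Nat.count (fun j => ¬ P j) b := by
      apply le_antisymm
      · refine Nat.count_mono_left fun j hj hD hP => hD ?_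
        exact h2 t0 t j ht (ht0 j (hj.trans hbk) hP)
      · exact Nat.count_mono_left fun j _ hP hD => hP (h1 t j hD).1
    rw [e1, hb, Nat.count_nth_of_infinite hinf]
  unfold bb
  rw [← hcount]
  exact Nat.nth_count (p := fun j => ¬ D t j) hDb

end approx

end Pool.Agent.U44.KLS
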