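import Pool.Agent.U44.KLS.Dob

/-!
The approximation of a basis by elements whose divisibility properties are kept.
-/

namespace Pool.Agent.U44.KLS

open Encodable Finsupp Pool.Agent.Helper446 Pool.Agent.Helper446.RE

/-- The data of the approximation. -/
structure Appr (H : Type) [AddCommGroup H] (ν : ℕ ≃ H) (D : ℕ → ℕ → Prop) : Prop where
  hadd : Computable₂ fun a b : ℕ => ν.symm (ν a + ν b)
  cD : ComputablePred (fun x : ℕ × ℕ => D x.1 x.2)
  d1 : ∀ t j, D t j → dep (fun a => ν a) j ∧ j < t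
  d2 : ∀ t t' j, t ≤ t' → D t j → D t' j
  d3 : ∀ j, dep (fun a => ν a) j → ∃ t, D t j
  inf : (Set.ofPred fun j => ¬ dep (fun a => ν a) j).Infinite
  tf : ∀ (n : ℤ) (x : H), n ≠ 0 → n • x = 0 → x = 0

namespace Appr

variable {H : Type} [AddCommGroup H] {ν : ℕ ≃ H} {D : ℕ → ℕ → Prop}

/-- Triangular representation. -/
def Tri (ν : ℕ ≃ H) (D : ℕ → ℕ → Prop) (t : ℕ) (hs : List ℕ) : Prop :=
  ∀ i < hs.length, ∃ NY : ℤ × List ℤ, (NY.1 ≠ 0 ∧ co NY.2 i ≠ 0) ∧
    ν.symm (NY.1 • ν (hs.getD i 0)) =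
      ν.symm (∑ l ∈ Finset.range (i + 1), co NY.2 l • ν (bb D t l))

theorem Tri.spec {t : ℕ} {hs : List ℕ} (h : Tri ν D t hs) {i : ℕ} (hi : i < hs.length) :
    ∃ (N : ℤ) (c : ℕ → ℤ), N ≠ 0 ∧ c i ≠ 0 ∧
      N • ν (hs.getD i 0) = ∑ l ∈ Finset.range (i + 1), c l • ν (bb D t l) := by
  obtain ⟨⟨N, Y⟩, ⟨h1, h2⟩, h3⟩ := h i hi
  exact ⟨N, co Y, h1, h2, ν.symm.injective h3⟩

theorem Tri.mk {t : ℕ} {hs : List ℕ} (h : ∀ i < hs.length, ∃ (N : ℤ) (c : ℕ → ℤ), N ≠ 0 ∧ c i ≠ 0 ∧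
      N • ν (hs.getD i 0) = ∑ l ∈ Finset.range (i + 1), c l • ν (bb D t l)) : Tri ν D t hs := by
  intro i hi
  obtain ⟨N, c, h1, h2, h3⟩ := h i hi
  refine ⟨(N, (List.range (i + 1)).map c), ⟨h1, ?_⟩, ?_⟩
  · show co _ i ≠ 0
    rw [co_map, if_pos (by omega)]; exact h2
  · show ν.symm (N • ν (hs.getD i 0)) = _
    rw [h3]
    congr 1
    refine Finset.sum_congr rfl fun l hl => ?_
    show _ = co ((List.range (i + 1)).map c) l • _
    rw [co_map, if_pos (Finset.mem_range.1 hl)]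

/-- The step relation. -/
def R1 (ν : ℕ ≃ H) (D : ℕ → ℕ → Prop) (n : ℕ) (s s' : ℕ × List ℕ) : Prop :=
  s.1 < s'.1 ∧ s'.2.length = s.2.length + 1 ∧ Tri ν D s'.1 s'.2 ∧
  ∀ i < s.2.length, s'.2.getD i 0 = s.2.getD i 0 ∨
    ((∃ j < i + 1, bb D s'.1 j ≠ bb D s.1 j) ∧
      ∃ z, s'.2.getD i 0 = ν.symm (ν (s.2.getD i 0) + ν (ν.symm ((n + 1).factorial • ν z))))

theorem cfact : Computable Nat.factorial := by
  have h := Computable.nat_rec (f := fun n : ℕ => n) (g := fun _ => (1 : ℕ))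
    (h := fun (_ : ℕ) (y : ℕ × ℕ) => (y.1 + 1) * y.2) (by fun_prop) (by fun_prop)
    (by unfold Computable₂; fun_prop)
  refine h.of_eq fun n => ?_
  induction n with
  | zero => rfl
  | succ n ih => rw [Nat.factorial_succ, ← ih]

section re

variable {α : Type*} [Primcodable α]

theorem re_Tri (A : Appr H ν D) {t : α → ℕ} {hs : α → List ℕ} (ht : Computable t)
    (hh : Computable hs) : REPred fun a => Tri ν D (t a) (hs a) := by
  have hbb := c_bb A.cD A.d1
  unfold Tri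
  refine RE.all_lt (p := fun a i => ∃ NY : ℤ × List ℤ, (NY.1 ≠ 0 ∧ co NY.2 i ≠ 0) ∧
    ν.symm (NY.1 • ν ((hs a).getD i 0)) =
      ν.symm (∑ l ∈ Finset.range (i + 1), co NY.2 l • ν (bb D (t a) l))) ?_ (by fun_prop)
  refine RE.ex (p := fun (x : α × ℕ) (NY : ℤ × List ℤ) => (NY.1 ≠ 0 ∧ co NY.2 x.2 ≠ 0) ∧
    ν.symm (NY.1 • ν ((hs x.1).getD x.2 0)) =
      ν.symm (∑ l ∈ Finset.range (x.2 + 1), co NY.2 l • ν (bb D (t x.1) l))) ?_
  refine RE.and (RE.and (RE.ne (by fun_prop) (by fun_prop)) (RE.ne (by fun_prop) (by fun_prop)))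
    (RE.eq ?_ ?_)
  · exact c_zsm A.hadd (by fun_prop) (by fun_prop)
  · exact c_lc A.hadd (Y := fun y : (α × ℕ) × (ℤ × List ℤ) => y.2.2) (k := fun y => y.1.2 + 1)
      (g := fun y l => bb D (t y.1.1) l) (by fun_prop) (by fun_prop) (by
        unfold Computable₂
        exact hbb.comp (g := fun z : ((α × ℕ) × (ℤ × List ℤ)) × ℕ => (t z.1.1.1, z.2))
          (by fun_prop))

theorem re_R1 (A : Appr H ν D) {n : α → ℕ} {s s' : α → ℕ × List ℕ} (hn : Computable n)
    (hs : Computable s) (hs' : Computable s') : REPred fun a => R1 ν D (n a) (s a) (s' a) := by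
  have hbb := c_bb A.cD A.d1
  unfold R1
  refine RE.and (RE.lt (by fun_prop) (by fun_prop)) (RE.and (RE.eq (by fun_prop) (by fun_prop))
    (RE.and (A.re_Tri (by fun_prop) (by fun_prop)) ?_))
  refine RE.all_lt (p := fun a i => (s' a).2.getD i 0 = (s a).2.getD i 0 ∨
    ((∃ j < i + 1, bb D (s' a).1 j ≠ bb D (s a).1 j) ∧
      ∃ z, (s' a).2.getD i 0 =
        ν.symm (ν ((s a).2.getD i 0) + ν (ν.symm ((n a + 1).factorial • ν z))))) ?_ (by fun_prop)
  refine RE.or (RE.eq (by fun_prop) (by fun_prop)) (RE.and ?_ ?_)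
  · refine (cp_ex (p := fun (x : α × ℕ) j => bb D (s' x.1).1 j ≠ bb D (s x.1).1 j) ?_
      (by fun_prop)).to_re
    refine (cp_eq ?_ ?_).not
    · exact hbb.comp (g := fun y : (α × ℕ) × ℕ => ((s' y.1.1).1, y.2)) (by fun_prop)
    · exact hbb.comp (g := fun y : (α × ℕ) × ℕ => ((s y.1.1).1, y.2)) (by fun_prop)
  · refine RE.exN (p := fun (x : α × ℕ) z => (s' x.1).2.getD x.2 0 =
      ν.symm (ν ((s x.1).2.getD x.2 0) + ν (ν.symm ((n x.1 + 1).factorial • ν z)))) ?_
    refine RE.eq (by fun_prop) (c_hadd A.hadd (by fun_prop) ?_)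
    exact c_nsm A.hadd (cfact.comp (by fun_prop)) (by fun_prop)

end re

/-- The true basis. -/
noncomputable def tb (ν : ℕ ≃ H) (i : ℕ) : H := fam (fun a => ν a) (fun j => ¬ dep (fun a => ν a) j) i

theorem bb_mem_tb (A : Appr H ν D) (t l : ℕ) : ν (bb D t l) ∈ cl (sp (tb ν) (l + 1)) :=
  fam_mem_fam (ν := fun a => ν a) (fun j => ¬ dep (fun a => ν a) j) (fun j => ¬ D t j)
    (fun j h => not_not.1 h) (fun _ h hD => h (A.d1 t _ hD).1) (inf_D A.d1 t) l

theorem tb_not_mem (A : Appr H ν D) (i : ℕ) : tb ν i ∉ cl (sp (tb ν) i) :=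
  fam_not_mem (ν := fun a => ν a) A.inf i

theorem mem_tb (x : H) : ∃ k, x ∈ cl (sp (tb ν) k) := by
  classical
  obtain ⟨a, rfl⟩ := ν.surjective x
  exact ⟨_, mem_fam (ν := fun a => ν a) (fun j => ¬ dep (fun a => ν a) j)
    (fun j h => not_not.1 h) a⟩

theorem bb_tb (A : Appr H ν D) (k : ℕ) : ∃ t0, ∀ t ≥ t0, ∀ i < k, ν (bb D t i) = tb ν i := by
  obtain ⟨t0, h⟩ := bb_conv A.d1 A.d2 A.d3 A.inf k
  refine ⟨t0, fun t ht i hi => ?_⟩
  rw [h t ht i hi]; rfl

theorem bb_const (A : Appr H ν D) (k : ℕ) :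
    ∃ t0, ∀ t ≥ t0, ∀ t' ≥ t0, ∀ i < k, bb D t i = bb D t' i := by
  obtain ⟨t0, h⟩ := bb_conv A.d1 A.d2 A.d3 A.inf k
  exact ⟨t0, fun t ht t' ht' i hi => (h t ht i hi).trans (h t' ht' i hi).symm⟩

/-- Existence of steps. -/
theorem step1 (A : Appr H ν D) (n : ℕ) (s : ℕ × List ℕ) (hlen : s.2.length = n)
    (hT : Tri ν D s.1 s.2) : ∃ s', R1 ν D n s s' := by
  classical
  obtain ⟨t, hs⟩ := s
  simp only at hlen hT
  obtain ⟨t0, ht0⟩ := A.bb_tb (n + 1)
  set t' := max t0 (t + 1) with ht'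
  have htb : ∀ i < n + 1, ν (bb D t' i) = tb ν i := ht0 t' (le_max_left _ _)
  -- coordinates of the old elements in the true basis
  have hold : ∀ i < n, ∃ (M : ℤ) (c : ℕ → ℤ), M ≠ 0 ∧
      M • ν (hs.getD i 0) = ∑ l ∈ Finset.range (i + 1), c l • tb ν l := by
    intro i hi
    obtain ⟨N, c, hN, -, hc⟩ := hT.spec (hlen.symm ▸ hi)
    have h1 : ν (hs.getD i 0) ∈ cl (sp (tb ν) (i + 1)) := by
      refine cl_of_smul hN ?_
      rw [hc]
      refine Submodule.sum_mem _ fun l hl => Submodule.smul_mem _ _ ?_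
      exact cl_mono (sp_mono (by have := Finset.mem_range.1 hl; omega)) (A.bb_mem_tb t l)
    obtain ⟨M, hM, hx⟩ := h1
    obtain ⟨d, hd⟩ := mem_sp.1 hx
    exact ⟨M, d, hM, hd⟩
  have hnew : ∀ i, ∃ x : H, (i < n → ((x = ν (hs.getD i 0) ∧ ∀ j < i + 1, bb D t' j = bb D t j) ∨
      ((∃ j < i + 1, bb D t' j ≠ bb D t j) ∧
        ∃ z : H, x = ν (hs.getD i 0) + (n + 1).factorial • z))) ∧
      (i < n + 1 → ∃ (N : ℤ) (c : ℕ → ℤ), N ≠ 0 ∧ c i ≠ 0 ∧
        N • x = ∑ l ∈ Finset.range (i + 1), c l • ν (bb D t' l)) := by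
    intro i
    by_cases hin : i < n
    · by_cases hch : ∀ j < i + 1, bb D t' j = bb D t j
      · refine ⟨ν (hs.getD i 0), fun _ => Or.inl ⟨rfl, hch⟩, fun _ => ?_⟩
        obtain ⟨N, c, hN, hc0, hc⟩ := hT.spec (hlen.symm ▸ hin)
        refine ⟨N, c, hN, hc0, ?_⟩
        rw [hc]
        refine Finset.sum_congr rfl fun l hl => ?_
        rw [hch l (Finset.mem_range.1 hl)]
      · obtain ⟨M, c, hM, hc⟩ := hold i hin
        have hr : ∃ r : ℕ, c i + M * ((n + 1).factorial * r : ℕ) ≠ 0 := by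
          by_contra hcon
          push Not at hcon
          have h1 := hcon 0
          have h2 := hcon 1
          simp only [mul_zero, Nat.cast_zero, add_zero, mul_one] at h1 h2
          rw [h1, zero_add] at h2
          rcases mul_eq_zero.1 h2 with h3 | h3
          · exact hM h3
          · have h4 : (n + 1).factorial ≠ 0 := Nat.factorial_ne_zero _
            exact h4 (by exact_mod_cast h3)
        obtain ⟨r, hr⟩ := hr
        push Not at hch
        refine ⟨ν (hs.getD i 0) + (n + 1).factorial • (r • tb ν i),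
          fun _ => Or.inr ⟨hch, r • tb ν i, rfl⟩, fun _ => ?_⟩
        refine ⟨M, fun l => if l = i then c i + M * ((n + 1).factorial * r : ℕ) else c l, hM,
          by simpa using hr, ?_⟩
        rw [smul_add, hc, Finset.sum_range_succ, Finset.sum_range_succ]
        beta_reduce
        rw [if_pos rfl]
        have e1 : ∑ l ∈ Finset.range i, (if l = i then c i + M * ((n + 1).factorial * r : ℕ)
            else c l) • ν (bb D t' l) = ∑ l ∈ Finset.range i, c l • tb ν l := by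
          refine Finset.sum_congr rfl fun l hl => ?_
          have := Finset.mem_range.1 hl
          rw [if_neg (by omega), htb l (by omega)]
        rw [e1, htb i (by omega), add_smul, mul_smul, smul_smul, natCast_zsmul]
        abel
    · refine ⟨ν (bb D t' i), fun h => absurd h hin, fun _ => ⟨1, fun l => if l = i then 1 else 0,
        one_ne_zero, by simp, ?_⟩⟩
      rw [Finset.sum_eq_single i]
      · simp
      · intro j _ hj; simp [hj]
      · intro h; exact absurd (Finset.mem_range.2 (Nat.lt_succ_self i)) h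
  choose x hx1 hx2 using hnew
  have hget : ∀ i < n + 1, ((List.range (n + 1)).map fun i => ν.symm (x i)).getD i 0 =
      ν.symm (x i) := by
    intro i hi
    rw [List.getD_eq_getElem?_getD, List.getElem?_map, List.getElem?_range hi]; rfl
  refine ⟨(t', (List.range (n + 1)).map fun i => ν.symm (x i)), ?_, ?_, ?_, ?_⟩
  · show t < t'
    omega
  · show ((List.range (n + 1)).map fun i => ν.symm (x i)).length = hs.length + 1
    rw [List.length_map, List.length_range, hlen]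
  · refine Tri.mk fun i hi => ?_
    have hi' : i < n + 1 := by simpa using hi
    obtain ⟨N, c, h1, h2, h3⟩ := hx2 i hi'
    refine ⟨N, c, h1, h2, ?_⟩
    rw [hget i hi', Equiv.apply_symm_apply]
    exact h3
  · intro i hi
    have hin : i < n := by
      have : i < hs.length := hi
      omega
    simp only
    rw [hget i (by omega)]
    rcases hx1 i hin with ⟨h1, -⟩ | ⟨h1, z, h2⟩
    · left; rw [h1, Equiv.symm_apply_apply]
    · right
      refine ⟨h1, ν.symm z, ?_⟩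
      rw [Equiv.apply_symm_apply, Equiv.apply_symm_apply, h2]

end Appr

end Pool.Agent.U44.KLS
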