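import Pool.Agent.U44.KLS.Seq

/-!
The order of the limit and the uniqueness of computable orders.
-/

namespace Pool.Agent.U44.KLS

open Encodable Finsupp Filter Pool.Agent.Helper446 Pool.Agent.Helper446.RE

/-- Orders on the group `Hs`. -/
def IsOrd (Hs : AddSubgroup V) (Q : Set V) : Prop :=
  (∀ a ∈ Hs, ∀ b ∈ Hs, a ∈ Q → b ∈ Q → a + b ∈ Q) ∧ (∀ a ∈ Hs, a ∈ Q → -a ∈ Q → a = 0) ∧
    ∀ a ∈ Hs, a ∈ Q ∨ -a ∈ Q

namespace IsOrd

variable {Hs : AddSubgroup V} {Q : Set V}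

theorem zero_mem (h : IsOrd Hs Q) : (0 : V) ∈ Q := by
  rcases h.2.2 0 Hs.zero_mem with h1 | h1
  · exact h1
  · rwa [neg_zero] at h1

theorem nsmul_mem (h : IsOrd Hs Q) {a : V} (ha : a ∈ Hs) (haQ : a ∈ Q) (n : ℕ) : n • a ∈ Q := by
  induction n with
  | zero => rw [zero_smul]; exact h.zero_mem
  | succ n ih =>
    rw [succ_nsmul]
    exact h.1 _ (Hs.nsmul_mem ha n) _ ha ih haQ

theorem neg_of_not (h : IsOrd Hs Q) {a : V} (ha : a ∈ Hs) (haQ : a ∉ Q) : -a ∈ Q :=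
  (h.2.2 a ha).resolve_left haQ

theorem of_nsmul (h : IsOrd Hs Q) {a : V} (ha : a ∈ Hs) {n : ℕ} (hn : n ≠ 0) (hQ : n • a ∈ Q) :
    a ∈ Q := by
  by_contra hcon
  have h1 := h.nsmul_mem (Hs.neg_mem ha) (h.neg_of_not ha hcon) n
  rw [smul_neg] at h1
  have h2 := h.2.1 _ (Hs.nsmul_mem ha n) hQ h1
  rw [← Nat.cast_smul_eq_nsmul ℚ] at h2
  rcases smul_eq_zero.1 h2 with h3 | h3
  · exact hn (by exact_mod_cast h3)
  · rw [h3] at hcon
    exact hcon h.zero_mem

theorem exists_dom (h : IsOrd Hs Q) (he : ∀ i, (single i 1 : V) ∈ Hs) (i0 : ℕ) :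
    ∃ g ∈ Hs, g ∈ Q ∧ Lv (i0 + 1) g ∧ g ≠ 0 ∧
      ∀ j < i0 + 1, g - single j 1 ∈ Q ∧ g + single j 1 ∈ Q := by
  have hunit : ∀ i : ℕ, ∃ t ∈ Hs, t ∈ Q ∧ Lv (i + 1) t ∧ t ≠ 0 ∧
      t - single i 1 ∈ Q ∧ t + single i 1 ∈ Q := by
    intro i
    have hne : (single i 1 : V) ≠ 0 := by simp
    have hlv : Lv (i + 1) (single i 1 : V) := by
      intro j hj
      rw [Finsupp.single_apply, if_neg (by omega)]
    rcases h.2.2 _ (he i) with h1 | h1
    · refine ⟨single i 1, he i, h1, hlv, hne, ?_, h.1 _ (he i) _ (he i) h1 h1⟩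
      rw [sub_self]; exact h.zero_mem
    · refine ⟨-single i 1, Hs.neg_mem (he i), h1, ?_, neg_ne_zero.2 hne, ?_, ?_⟩
      · intro j hj
        rw [Finsupp.neg_apply, hlv j hj, neg_zero]
      · rw [sub_eq_add_neg]
        exact h.1 _ (Hs.neg_mem (he i)) _ (Hs.neg_mem (he i)) h1 h1
      · rw [neg_add_cancel]; exact h.zero_mem
  induction i0 with
  | zero =>
    obtain ⟨t, h1, h2, h3, h4, h5, h6⟩ := hunit 0
    refine ⟨t, h1, h2, h3, h4, fun j hj => ?_⟩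
    obtain rfl : j = 0 := by omega
    exact ⟨h5, h6⟩
  | succ i ih =>
    obtain ⟨g, hg1, hg2, hg3, hg4, hg5⟩ := ih
    obtain ⟨t, h1, h2, h3, h4, h5, h6⟩ := hunit (i + 1)
    by_cases hc : g - t ∈ Q
    · refine ⟨g, hg1, hg2, Lv_mono (by omega) hg3, hg4, fun j hj => ?_⟩
      rcases Nat.lt_succ_iff_lt_or_eq.1 hj with h | rfl
      · exact hg5 j h
      · have hgt := Hs.sub_mem hg1 h1
        constructor
        · have := h.1 _ hgt _ (Hs.sub_mem h1 (he (i + 1))) hc h5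
          rwa [sub_add_sub_cancel] at this
        · have := h.1 _ hgt _ (Hs.add_mem h1 (he (i + 1))) hc h6
          have e : g - t + (t + single (i + 1) 1) = g + single (i + 1) 1 := by abel
          rwa [e] at this
    · have hc' := h.neg_of_not (Hs.sub_mem hg1 h1) hc
      rw [neg_sub] at hc'
      refine ⟨t, h1, h2, h3, h4, fun j hj => ?_⟩
      rcases Nat.lt_succ_iff_lt_or_eq.1 hj with h' | rfl
      · have htg := Hs.sub_mem h1 hg1
        constructor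
        · have := h.1 _ htg _ (Hs.sub_mem hg1 (he j)) hc' (hg5 j h').1
          rwa [sub_add_sub_cancel] at this
        · have := h.1 _ htg _ (Hs.add_mem hg1 (he j)) hc' (hg5 j h').2
          have e : t - g + (g + single j 1) = t + single j 1 := by abel
          rwa [e] at this
      · exact ⟨h5, h6⟩

end IsOrd

/-- The order of the limit. -/
def PP (σ : ℕ → St) : Set V := {v | ∃ n0, ∀ n ≥ n0, 0 ≤ rho (σ n) v}

namespace Lim

variable {Hs : AddSubgroup V} {q : List ℤ × ℕ → ℕ → Bool} {σ : ℕ → St} {X : ℕ → V}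

theorem ev (h : Lim Hs q σ X) (m : ℕ) : ∀ᶠ n in atTop, m < len (σ n) ∧ nm (σ n) m = X m :=
  eventually_atTop.2 (h.lim m)

theorem nonneg_PP (h : Lim Hs q σ X) {m n : ℕ} (hm : m < len (σ n))
    (hr : 0 ≤ rho (σ n) (nm (σ n) m)) : X m ∈ PP σ := by
  obtain ⟨n0, hn0⟩ := h.lim m
  refine ⟨max n n0, fun n' hn' => ?_⟩
  have h1 := h.toRun.sgn_mono ((le_max_left n n0).trans hn') hm
  rw [(hn0 n' ((le_max_right _ _).trans hn')).2] at h1
  by_contra hcon
  exact absurd (h1.2.2 (not_le.1 hcon)) (not_lt.2 hr)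

theorem neg_ev (h : Lim Hs q σ X) {m n : ℕ} (hm : m < len (σ n))
    (hr : rho (σ n) (nm (σ n) m) < 0) : ∃ n0, ∀ n ≥ n0, rho (σ n) (X m) < 0 := by
  obtain ⟨n0, hn0⟩ := h.lim m
  refine ⟨max n n0, fun n' hn' => ?_⟩
  have h1 := h.toRun.sgn_mono ((le_max_left n n0).trans hn') hm
  rw [(hn0 n' ((le_max_right _ _).trans hn')).2] at h1
  exact h1.2.1 hr

theorem neg_not_PP (h : Lim Hs q σ X) {m n : ℕ} (hm : m < len (σ n))
    (hr : rho (σ n) (nm (σ n) m) < 0) : X m ∉ PP σ := by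
  rintro ⟨n1, hn1⟩
  obtain ⟨n0, hn0⟩ := h.neg_ev hm hr
  exact absurd (hn0 (max n0 n1) (le_max_left _ _)) (not_lt.2 (hn1 _ (le_max_right _ _)))

theorem isOrd_PP (h : Lim Hs q σ X) : IsOrd Hs (PP σ) := by
  refine ⟨?_, ?_, ?_⟩
  · rintro a - b - ⟨n0, h0⟩ ⟨n1, h1⟩
    refine ⟨max n0 n1, fun n hn => ?_⟩
    rw [map_add]
    exact add_nonneg (h0 n ((le_max_left _ _).trans hn)) (h1 n ((le_max_right _ _).trans hn))
  · rintro a ha ⟨n0, h0⟩ ⟨n1, h1⟩
    obtain ⟨m, rfl⟩ := h.surj ha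
    obtain ⟨n2, hn2⟩ := h.lim m
    by_contra hcon
    set n := max (max n0 n1) n2
    obtain ⟨h3, h4⟩ := hn2 n (le_max_right _ _)
    have h5 := (h.inv n).2.2 m h3 (by rw [h4]; exact hcon)
    rw [h4] at h5
    have h6 := h0 n (by omega)
    have h7 := h1 n (by omega)
    rw [map_neg] at h7
    exact h5 (by linarith)
  · intro a ha
    obtain ⟨m, rfl⟩ := h.surj ha
    obtain ⟨n, hn⟩ := h.lim m
    obtain ⟨h3, h4⟩ := hn n le_rfl
    rcases le_or_gt 0 (rho (σ n) (nm (σ n) m)) with h5 | h5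
    · exact Or.inl (h.nonneg_PP h3 h5)
    · obtain ⟨n0, hn0⟩ := h.neg_ev h3 h5
      right
      refine ⟨n0, fun n hn => ?_⟩
      rw [map_neg]
      linarith [hn0 n hn]

theorem cp_PP (h : Lim Hs q σ X) : ComputablePred fun m => X m ∈ PP σ := by
  have hσ : Computable σ := h.comp
  have hneg : ComputablePred fun x : ℕ × ℕ => rho (σ x.2) (nm (σ x.2) x.1) < 0 :=
    cp_rho_neg (by fun_prop) (by fun_prop)
  have hlt : REPred fun x : ℕ × ℕ => x.1 < len (σ x.2) := by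
    unfold len; exact RE.lt (by fun_prop) (by fun_prop)
  refine cp_of_re ?_ ?_
  · have h1 : REPred fun m => ∃ n, m < len (σ n) ∧ ¬ rho (σ n) (nm (σ n) m) < 0 :=
      RE.exN (p := fun m n => m < len (σ n) ∧ ¬ rho (σ n) (nm (σ n) m) < 0)
        (RE.and hlt hneg.not.to_re)
    refine h1.of_eq fun m => ?_
    constructor
    · rintro ⟨n, h1, h2⟩
      exact h.nonneg_PP h1 (not_lt.1 h2)
    · intro hP
      obtain ⟨n, hn⟩ := h.lim m
      obtain ⟨h3, h4⟩ := hn n le_rfl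
      exact ⟨n, h3, fun h5 => h.neg_not_PP h3 h5 hP⟩
  · have h1 : REPred fun m => ∃ n, m < len (σ n) ∧ rho (σ n) (nm (σ n) m) < 0 :=
      RE.exN (p := fun m n => m < len (σ n) ∧ rho (σ n) (nm (σ n) m) < 0)
        (RE.and hlt hneg.to_re)
    refine h1.of_eq fun m => ?_
    constructor
    · rintro ⟨n, h1, h2⟩
      exact h.neg_not_PP h1 h2
    · intro hP
      obtain ⟨n, hn⟩ := h.lim m
      obtain ⟨h3, h4⟩ := hn n le_rfl
      refine ⟨n, h3, ?_⟩
      by_contra h5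
      exact hP (h.nonneg_PP h3 (not_lt.1 h5))

theorem ev_pos (h : Lim Hs q σ X) {v : V} (hv : v ∈ Hs) (h0 : v ≠ 0) (hP : v ∈ PP σ) :
    ∀ᶠ n in atTop, 0 < rho (σ n) v := by
  obtain ⟨m, rfl⟩ := h.surj hv
  filter_upwards [h.ev m, eventually_atTop.2 hP] with n h1 h2
  have h5 := (h.inv n).2.2 m h1.1 (by rw [h1.2]; exact h0)
  rw [h1.2] at h5
  exact lt_of_le_of_ne h2 h5.symm

theorem exists_cert (h : Lim Hs q σ X) {n e : ℕ} (he : e ∈ (σ n).2.2) :
    ∃ n1, Cert n1 e (σ (n1 + 1)) := by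
  induction n with
  | zero => rw [h.init] at he; exact absurd he List.not_mem_nil
  | succ n ih =>
    obtain ⟨-, -, -, ⟨al, Xc, E⟩, -, hor⟩ := h.step n
    rcases hor with ⟨-, -, hC, hZ⟩ | ⟨-, -, hZ, -⟩
    · rw [hZ] at he
      rcases List.mem_cons.1 he with h1 | h1
      · rw [h1]; exact ⟨n, hC⟩
      · exact ih h1
    · rw [hZ] at he
      exact ih he

/-- A certificate refutes the order. -/
theorem cert_false (h : Lim Hs q σ X) {Q : Set V} (hQ : IsOrd Hs Q) {n e : ℕ}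
    (hC : Cert n e (σ (n + 1)))
    (he : ∀ m b, wst (ℕ × Bool) e n (m, b) = true → (b = true ↔ X m ∈ Q)) : False := by
  obtain ⟨⟨l, l'⟩, hne, h1, h2, h3⟩ := hC
  simp only at hne h1 h2 h3
  have hrel := h.rel_lim (fun m hm => (h1 m hm).1) (fun m hm => (h2 m hm).1) h3
  have hpos : ∀ l : List ℕ, (∀ m ∈ l, X m ∈ Q) → (l.map X).sum ∈ Hs ∧ (l.map X).sum ∈ Q := by
    intro l
    induction l with
    | nil => intro _; exact ⟨by simpa using Hs.zero_mem, by simpa using hQ.zero_mem⟩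
    | cons a l ih =>
      intro hl
      obtain ⟨i1, i2⟩ := ih fun m hm => hl m (List.mem_cons_of_mem _ hm)
      rw [List.map_cons, List.sum_cons]
      exact ⟨Hs.add_mem (h.mem a) i1, hQ.1 _ (h.mem a) _ i1 (hl a List.mem_cons_self) i2⟩
  have hneg : ∀ l : List ℕ, (∀ m ∈ l, X m ∉ Q) → (l.map X).sum ∈ Hs ∧ -(l.map X).sum ∈ Q := by
    intro l
    induction l with
    | nil => intro _; exact ⟨by simpa using Hs.zero_mem, by simpa using hQ.zero_mem⟩
    | cons a l ih =>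
      intro hl
      obtain ⟨i1, i2⟩ := ih fun m hm => hl m (List.mem_cons_of_mem _ hm)
      rw [List.map_cons, List.sum_cons]
      refine ⟨Hs.add_mem (h.mem a) i1, ?_⟩
      rw [neg_add]
      exact hQ.1 _ (Hs.neg_mem (h.mem a)) _ (Hs.neg_mem i1)
        (hQ.neg_of_not (h.mem a) (hl a List.mem_cons_self)) i2
  obtain ⟨s1, s2⟩ := hpos l fun m hm => (he m true (h1 m hm).2).1 rfl
  cases l' with
  | nil => exact hne rfl
  | cons a l' =>
    have hnot : ∀ m ∈ a :: l', X m ∉ Q := by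
      intro m hm hmQ
      have := (he m false (h2 m hm).2).2 hmQ
      exact absurd this (by simp)
    obtain ⟨t1, t2⟩ := hneg l' fun m hm => hnot m (List.mem_cons_of_mem _ hm)
    apply hnot a List.mem_cons_self
    rw [List.map_cons, List.sum_cons] at hrel
    have : X a = (l.map X).sum + -(l'.map X).sum := by rw [hrel]; abel
    rw [this]
    exact hQ.1 _ s1 _ (Hs.neg_mem t1) s2 t2

theorem exists_minor {g1 g2 : V} (h1 : g1 ≠ 0)
    (hn : ∀ k l, g1 k * g2 l - g1 l * g2 k = 0) : ∃ r : ℚ, g2 = r • g1 := by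
  obtain ⟨k, hk⟩ : ∃ k, g1 k ≠ 0 := by
    by_contra hc; push Not at hc; exact h1 (Finsupp.ext hc)
  refine ⟨g2 k / g1 k, ?_⟩
  ext l
  rw [Finsupp.smul_apply, smul_eq_mul]
  have := hn k l
  field_simp
  linarith

/-- The only computable orders are `P` and `-P`. -/
theorem unique (h : Lim Hs q σ X) {Q : Set V} (hQ : IsOrd Hs Q)
    (hc : ComputablePred fun m => X m ∈ Q) :
    (∀ v ∈ Hs, v ∈ Q ↔ v ∈ PP σ) ∨ (∀ v ∈ Hs, v ∈ Q ↔ -v ∈ PP σ) := by
  classical
  by_contra hcon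
  push Not at hcon
  obtain ⟨hA, hB⟩ := hcon
  have hP := h.isOrd_PP
  -- two witnesses
  have hu : ∃ u ∈ Hs, u ∈ PP σ ∧ u ∉ Q := by
    by_contra hcon
    push Not at hcon
    obtain ⟨v, hv, hv2⟩ := hA
    rcases hv2 with ⟨h1, h2⟩ | ⟨h1, h2⟩
    · have h3 := hP.neg_of_not hv h2
      have h4 := hcon _ (Hs.neg_mem hv) h3
      have h5 := hQ.2.1 v hv h1 h4
      rw [h5] at h2
      exact h2 hP.zero_mem
    · exact h1 (hcon v hv h2)
  have hu' : ∃ u ∈ Hs, -u ∈ PP σ ∧ u ∉ Q := by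
    by_contra hcon
    push Not at hcon
    obtain ⟨v, hv, hv2⟩ := hB
    rcases hv2 with ⟨h1, h2⟩ | ⟨h1, h2⟩
    · have h3 := hP.neg_of_not (Hs.neg_mem hv) h2
      have h4 := hcon _ (Hs.neg_mem hv) h3
      have h5 := hQ.2.1 v hv h1 h4
      rw [h5, neg_zero] at h2
      exact h2 hP.zero_mem
    · exact h1 (hcon v hv h2)
  obtain ⟨u, huH, huP, huQ⟩ := hu
  obtain ⟨u', huH', huP', huQ'⟩ := hu'
  have hu0 : u ≠ 0 := by rintro rfl; exact huQ hQ.zero_mem
  have hu0' : u' ≠ 0 := by rintro rfl; exact huQ' hQ.zero_mem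
  -- the index
  have hre : REPred fun x : ℕ × Bool => (x.2 = true ∧ X x.1 ∈ Q) ∨ (x.2 = false ∧ X x.1 ∉ Q) := by
    have hc' : ComputablePred fun x : ℕ × Bool => X x.1 ∈ Q :=
      cp_comp hc (f := fun x : ℕ × Bool => x.1) (by fun_prop)
    exact RE.or (RE.and (RE.eq (by fun_prop) (by fun_prop)) hc'.to_re)
      (RE.and (RE.eq (by fun_prop) (by fun_prop)) hc'.not.to_re)
  obtain ⟨e, he⟩ := wst_univ hre
  have hew : ∀ m b, (b = true ↔ X m ∈ Q) → ∀ᶠ n in atTop, wst (ℕ × Bool) e n (m, b) = true := by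
    intro m b hb
    have h1 : ∃ s, wst (ℕ × Bool) e s (m, b) = true := by
      rw [← he (m, b)]
      cases b
      · right; exact ⟨rfl, fun h => by simpa using hb.2 h⟩
      · left; exact ⟨rfl, hb.1 rfl⟩
    obtain ⟨s, hs⟩ := h1
    exact eventually_atTop.2 ⟨s, fun n hn => wst_mono hn hs⟩
  have hew' : ∀ n m b, wst (ℕ × Bool) e n (m, b) = true → (b = true ↔ X m ∈ Q) := by
    intro n m b hw
    have := (he (m, b)).2 ⟨n, hw⟩
    rcases this with ⟨h1, h2⟩ | ⟨h1, h2⟩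
    · simp only at h1 h2; simp [h1, h2]
    · simp only at h1 h2; simp [h1, h2]
  -- the level
  obtain ⟨B1, hB1⟩ := exists_Lv_all X (e + 1)
  obtain ⟨B2, hB2⟩ := exists_Lv u
  obtain ⟨B3, hB3⟩ := exists_Lv u'
  set i1 := max (max B1 B2) (max B3 e) with hi1
  obtain ⟨g1, hg1H, hg1Q, hg1L, hg10, hdom⟩ := hQ.exists_dom h.unit i1
  set i0 := i1 + 1 with hi0
  -- the second element
  have hg2 : ∃ g2 ∈ Hs, g2 ∉ Q ∧ Lv i0 g2 ∧ g2 ≠ 0 ∧
      ((∀ᶠ n in atTop, 0 < rho (σ n) g1 ∧ 0 < rho (σ n) g2) ∨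
        (∀ᶠ n in atTop, rho (σ n) g1 < 0 ∧ rho (σ n) g2 < 0)) := by
    rcases hP.2.2 g1 hg1H with h1 | h1
    · refine ⟨u, huH, huQ, Lv_mono (by omega) hB2, hu0, Or.inl ?_⟩
      exact (h.ev_pos hg1H hg10 h1).and (h.ev_pos huH hu0 huP)
    · refine ⟨u', huH', huQ', Lv_mono (by omega) hB3, hu0', Or.inr ?_⟩
      filter_upwards [h.ev_pos (Hs.neg_mem hg1H) (neg_ne_zero.2 hg10) h1,
        h.ev_pos (Hs.neg_mem huH') (neg_ne_zero.2 hu0') huP'] with n h2 h3
      rw [map_neg] at h2 h3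
      exact ⟨by linarith, by linarith⟩
  obtain ⟨g2, hg2H, hg2Q, hg2L, hg20, hsame⟩ := hg2
  -- the minor
  have hmin : ∃ k l, g1 k * g2 l - g1 l * g2 k ≠ 0 := by
    by_contra hn
    push Not at hn
    obtain ⟨r, hr⟩ := exists_minor hg10 hn
    have hrpos : 0 < r := by
      rcases hsame with hs | hs
      · obtain ⟨n, h1, h2⟩ := hs.exists
        rw [hr, map_smul, smul_eq_mul] at h2
        exact pos_of_mul_pos_left h2 h1.le
      · obtain ⟨n, h1, h2⟩ := hs.exists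
        rw [hr, map_smul, smul_eq_mul] at h2
        by_contra h3
        have h3' := not_lt.1 h3
        nlinarith
    have h1 : r.den • g2 = r.num.toNat • g1 := by
      rw [hr, ← Nat.cast_smul_eq_nsmul ℚ, ← Nat.cast_smul_eq_nsmul ℚ, smul_smul]
      congr 1
      have h2 : ((r.num.toNat : ℕ) : ℚ) = r.num := by
        have : ((r.num.toNat : ℕ) : ℤ) = r.num := Int.toNat_of_nonneg (Rat.num_nonneg.2 hrpos.le)
        exact_mod_cast this
      rw [h2, Rat.den_mul_eq_num]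
    have h2 : r.den • g2 ∈ Q := by rw [h1]; exact hQ.nsmul_mem hg1H hg1Q _
    exact hg2Q (hQ.of_nsmul hg2H r.den_ne_zero h2)
  obtain ⟨k, l, hkl⟩ := hmin
  -- names
  obtain ⟨a1, ha1⟩ := h.surj hg1H
  obtain ⟨a2, ha2⟩ := h.surj hg2H
  obtain ⟨c, hcn⟩ := h.surj (h.unit i0)
  choose up hup using fun j => h.surj (Hs.add_mem hg1H (h.unit j))
  choose um hum using fun j => h.surj (Hs.sub_mem hg1H (h.unit j))
  set b : Bool := decide (X c ∈ Q) with hb
  have hev : ∀ᶠ n in atTop, e ∉ (σ n).2.2 → Trig n (σ n) e i0 a1 a2 c k l b := by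
    have e1 : ∀ᶠ n in atTop, ∀ m ∈ Finset.range (e + 1), m < len (σ n) ∧ nm (σ n) m = X m :=
      (Filter.eventually_all_finset _).2 fun m _ => h.ev m
    have e2 : ∀ᶠ n in atTop, ∀ j ∈ Finset.range i0, (up j < len (σ n) ∧ nm (σ n) (up j) = X (up j)) ∧
        wst (ℕ × Bool) e n (up j, true) = true := by
      refine (Filter.eventually_all_finset _).2 fun j hj => (h.ev _).and (hew _ _ ?_)
      rw [hup]
      simp only [true_iff]
      exact (hdom j (Finset.mem_range.1 hj)).2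
    have e3 : ∀ᶠ n in atTop, ∀ j ∈ Finset.range i0, (um j < len (σ n) ∧ nm (σ n) (um j) = X (um j)) ∧
        wst (ℕ × Bool) e n (um j, true) = true := by
      refine (Filter.eventually_all_finset _).2 fun j hj => (h.ev _).and (hew _ _ ?_)
      rw [hum]
      simp only [true_iff]
      exact (hdom j (Finset.mem_range.1 hj)).1
    have e4 := hew a1 true (by rw [ha1]; simpa using hg1Q)
    have e5 := hew a2 false (by rw [ha2]; simpa using hg2Q)
    have e6 := hew c b (by rw [hb]; simp)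
    have e7 : ∀ᶠ n in atTop, Same (σ n) a1 a2 := by
      rcases hsame with hs | hs
      · filter_upwards [hs, h.ev a1, h.ev a2] with n h1 h2 h3
        left; rw [h2.2, h3.2, ha1, ha2]; exact h1
      · filter_upwards [hs, h.ev a1, h.ev a2] with n h1 h2 h3
        right; rw [h2.2, h3.2, ha1, ha2]; exact h1
    filter_upwards [e1, e2, e3, e4, e5, e6, e7, h.ev a1, h.ev a2, h.ev c] with n f1 f2 f3 f4 f5 f6 f7
      f8 f9 f10 hZ
    have g8 : nm (σ n) a1 = g1 := f8.2.trans ha1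
    have g9 : nm (σ n) a2 = g2 := f9.2.trans ha2
    refine ⟨⟨hZ, by omega, f8.1, f9.1, f10.1⟩, ?_, ?_, ?_, f10.2.trans hcn, f7, ?_, ⟨f4, f5, f6⟩,
      ?_, ?_⟩
    · intro m _ hm
      rw [(f1 m (Finset.mem_range.2 (by omega))).2]
      exact Lv_mono (by omega) (hB1 m (by omega))
    · rw [g8]; exact hg1L
    · rw [g9]; exact hg2L
    · unfold Minor; rw [g8, g9]; exact hkl
    · intro j hj
      obtain ⟨⟨h1, h2⟩, h3⟩ := f2 j (Finset.mem_range.2 hj)
      refine ⟨up j, h1, h3, ?_⟩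
      rw [h2, hup, g8]; simp
    · intro j hj
      obtain ⟨⟨h1, h2⟩, h3⟩ := f3 j (Finset.mem_range.2 hj)
      refine ⟨um j, h1, h3, ?_⟩
      rw [h2, hum, g8]
      push_cast
      module
  obtain ⟨N, hN⟩ := eventually_atTop.1 hev
  obtain ⟨n, hn, hpar⟩ := par_inf (((e, i0), (a1, a2), (c, k), (l, b)), ([], 0), 0) N
  have hin : ∃ n, e ∈ (σ n).2.2 := by
    by_cases hZ : e ∈ (σ n).2.2
    · exact ⟨n, hZ⟩
    · refine ⟨n + 1, h.toRun.acts_Z ⟨?_, ?_⟩⟩
      · rw [hpar]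
        exact hN n hn hZ
      · rw [hpar]
  obtain ⟨n', hn'⟩ := hin
  obtain ⟨n1, hn1⟩ := h.exists_cert hn'
  exact h.cert_false hQ hn1 (hew' n1)

end Lim

end Pool.Agent.U44.KLS
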