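import Pool.Agent.U44.KLS.Code

/-!
States, the step relation, and its enumerability.
-/

namespace Pool.Agent.U44.KLS

open Encodable Finsupp Pool.Agent.Helper446 Pool.Agent.Helper446.RE

/-- A state: denominator, names, functional, requirements that have acted. -/
abbrev St := (ℕ × List (List ℤ)) × (List ℤ × List ℕ)

/-- The value of a name. -/
noncomputable def nm (σ : St) (m : ℕ) : V := vec (row σ.1.2 m) σ.1.1

/-- The number of names. -/
def len (σ : St) : ℕ := σ.1.2.length

/-- The functional of the state. -/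
noncomputable def rho (σ : St) : V →ₗ[ℚ] ℚ := fn σ.2.1

/-- Domination. -/
def Dom (n : ℕ) (σ : St) (e i0 g1 : ℕ) (s : ℤ) : Prop :=
  ∀ j < i0, ∃ u < len σ, wst (ℕ × Bool) e n (u, true) = true ∧
    nm σ u = nm σ g1 + (s : ℚ) • single j 1

/-- The minor. -/
def Minor (σ : St) (g1 g2 k l : ℕ) : Prop :=
  nm σ g1 k * nm σ g2 l - nm σ g1 l * nm σ g2 k ≠ 0

/-- Same nonzero sign. -/
def Same (σ : St) (g1 g2 : ℕ) : Prop :=
  (0 < rho σ (nm σ g1) ∧ 0 < rho σ (nm σ g2)) ∨ (rho σ (nm σ g1) < 0 ∧ rho σ (nm σ g2) < 0)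

/-- The requirement `e` wants to act with the given parameters. -/
def Trig (n : ℕ) (σ : St) (e i0 g1 g2 c k l : ℕ) (b : Bool) : Prop :=
  (e ∉ σ.2.2 ∧ e < i0 ∧ g1 < len σ ∧ g2 < len σ ∧ c < len σ) ∧
  (∀ m < len σ, m ≤ e → Lv i0 (nm σ m)) ∧ Lv i0 (nm σ g1) ∧ Lv i0 (nm σ g2) ∧
  nm σ c = single i0 1 ∧ Same σ g1 g2 ∧ Minor σ g1 g2 k l ∧
  (wst (ℕ × Bool) e n (g1, true) = true ∧ wst (ℕ × Bool) e n (g2, false) = true ∧
    wst (ℕ × Bool) e n (c, b) = true) ∧ Dom n σ e i0 g1 1 ∧ Dom n σ e i0 g1 (-1)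

/-- The invariant. -/
def Inv (Hs : AddSubgroup V) (σ : St) : Prop :=
  (∀ m < len σ, nm σ m ∈ Hs) ∧ (∀ m < len σ, ∀ l < m, nm σ m ≠ nm σ l) ∧
    ∀ m < len σ, nm σ m ≠ 0 → rho σ (nm σ m) ≠ 0

/-- Certificates. -/
def Cert (n e : ℕ) (σ : St) : Prop :=
  ∃ PN : List ℕ × List ℕ, PN.2 ≠ [] ∧
    (∀ m ∈ PN.1, m < len σ ∧ wst (ℕ × Bool) e n (m, true) = true) ∧
    (∀ m ∈ PN.2, m < len σ ∧ wst (ℕ × Bool) e n (m, false) = true) ∧
    (PN.1.map (nm σ)).sum = (PN.2.map (nm σ)).sum

/-- Parameters. -/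
abbrev Pr := ((ℕ × ℕ) × (ℕ × ℕ) × (ℕ × ℕ) × (ℕ × Bool)) × (List ℤ × ℕ) × ℕ

/-- The trigger, on parameters. -/
def TrigP (p : Pr) (n : ℕ) (σ : St) : Prop :=
  Trig n σ p.1.1.1 p.1.1.2 p.1.2.1.1 p.1.2.1.2 p.1.2.2.1.1 p.1.2.2.1.2 p.1.2.2.2.1 p.1.2.2.2.2

/-- The rank one change of the values. -/
def TR (al X : List ℤ) (E : ℕ) (σ σ' : St) : Prop :=
  ∀ m < len σ, nm σ' m = nm σ m + fn al (nm σ m) • vec X E

/-- Signs are kept. -/
def Sgn (σ σ' : St) : Prop :=
  ∀ m < len σ, SS (rho σ (nm σ m)) (rho σ' (nm σ' m))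

/-- The requirement acts. -/
def ActC (p : Pr) (n : ℕ) (σ σ' : St) (al : List ℤ) : Prop :=
  TrigP p n σ ∧ (∀ i < p.1.1.2, co al i = 0) ∧ Cert n p.1.1.1 σ' ∧ σ'.2.2 = p.1.1.1 :: σ.2.2

/-- An element gets a name. -/
def AddC (q : List ℤ × ℕ → ℕ → Bool) (p : Pr) (n : ℕ) (σ σ' : St) (al : List ℤ) : Prop :=
  ¬ TrigP p n σ ∧ al = [] ∧ σ'.2.2 = σ.2.2 ∧
    (q p.2.1 p.2.2 = false ∨ ∃ m < len σ', nm σ' m = vec p.2.1.1 p.2.1.2)

/-- The step relation. -/
def Step (Hs : AddSubgroup V) (q : List ℤ × ℕ → ℕ → Bool) (p : Pr) (n : ℕ) (σ σ' : St) : Prop :=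
  len σ ≤ len σ' ∧ Inv Hs σ' ∧ Sgn σ σ' ∧
  ∃ aX : List ℤ × (List ℤ × ℕ), TR aX.1 aX.2.1 aX.2.2 σ σ' ∧
    (ActC p n σ σ' aX.1 ∨ AddC q p n σ σ' aX.1)

section re

variable {α : Type*} [Primcodable α]

theorem cp_wst {f g h : α → ℕ} {b : α → Bool} (hf : Computable f) (hg : Computable g)
    (hh : Computable h) (hb : Computable b) :
    ComputablePred fun a => wst (ℕ × Bool) (f a) (g a) (h a, b a) = true := by
  refine cp_bool ?_
  exact (wst_comp (α := ℕ × Bool)).comp ((hf.pair hg).pair (hh.pair hb))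

theorem cp_nm_rel {σ τ : α → St} {m l : α → ℕ} {k : α → ℤ} {X : α → List ℤ} {E : α → ℕ}
    (hσ : Computable σ) (hτ : Computable τ) (hm : Computable m) (hl : Computable l)
    (hk : Computable k) (hX : Computable X) (hE : Computable E) :
    ComputablePred fun a => nm (σ a) (m a) = nm (τ a) (l a) + (k a : ℚ) • vec (X a) (E a) := by
  unfold nm
  exact cp_vec (by fun_prop) (by fun_prop) (by fun_prop) (by fun_prop) (by fun_prop)
    (by fun_prop) (by fun_prop)

theorem cp_nm_unit {σ τ : α → St} {m l j : α → ℕ} {k : α → ℤ}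
    (hσ : Computable σ) (hτ : Computable τ) (hm : Computable m) (hl : Computable l)
    (hk : Computable k) (hj : Computable j) :
    ComputablePred fun a => nm (σ a) (m a) = nm (τ a) (l a) + (k a : ℚ) • single (j a) 1 := by
  refine (cp_nm_rel hσ hτ hm hl hk (cunitL.comp hj) (Computable.const 0)).of_eq fun a => ?_
  rw [vec_unitL]

theorem cp_Dom {n e i0 g1 : α → ℕ} {σ : α → St} {s : α → ℤ} (hn : Computable n) (hσ : Computable σ)
    (he : Computable e) (hi : Computable i0) (hg : Computable g1) (hs : Computable s) :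
    ComputablePred fun a => Dom (n a) (σ a) (e a) (i0 a) (g1 a) (s a) := by
  unfold Dom len
  refine cp_all (p := fun a j => ∃ u < (σ a).1.2.length,
    wst (ℕ × Bool) (e a) (n a) (u, true) = true ∧
    nm (σ a) u = nm (σ a) (g1 a) + (s a : ℚ) • single j 1) ?_ hi
  refine cp_ex (p := fun (x : α × ℕ) u =>
    wst (ℕ × Bool) (e x.1) (n x.1) (u, true) = true ∧
    nm (σ x.1) u = nm (σ x.1) (g1 x.1) + (s x.1 : ℚ) • single x.2 1) ?_ (by fun_prop)
  refine cp_and (cp_wst (by fun_prop) (by fun_prop) (by fun_prop) (by fun_prop)) ?_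
  exact cp_nm_unit (σ := fun y : (α × ℕ) × ℕ => σ y.1.1) (τ := fun y : (α × ℕ) × ℕ => σ y.1.1)
    (m := fun y => y.2) (l := fun y => g1 y.1.1) (k := fun y => s y.1.1) (j := fun y => y.1.2)
    (by fun_prop) (by fun_prop) (by fun_prop) (by fun_prop) (by fun_prop) (by fun_prop)

theorem cp_rho_pos {σ : α → St} {m : α → ℕ} (hσ : Computable σ) (hm : Computable m) :
    ComputablePred fun a => 0 < rho (σ a) (nm (σ a) (m a)) := by
  unfold rho nm
  exact cp_fn_pos (by fun_prop) (by fun_prop)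

theorem cp_rho_neg {σ : α → St} {m : α → ℕ} (hσ : Computable σ) (hm : Computable m) :
    ComputablePred fun a => rho (σ a) (nm (σ a) (m a)) < 0 := by
  unfold rho nm
  exact cp_fn_neg (by fun_prop) (by fun_prop)

theorem cp_Same {σ : α → St} {m l : α → ℕ} (hσ : Computable σ) (hm : Computable m)
    (hl : Computable l) : ComputablePred fun a => Same (σ a) (m a) (l a) := by
  unfold Same
  exact cp_or (cp_and (cp_rho_pos hσ hm) (cp_rho_pos hσ hl))
    (cp_and (cp_rho_neg hσ hm) (cp_rho_neg hσ hl))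

theorem cp_Minor {σ : α → St} {g1 g2 k l : α → ℕ} (hσ : Computable σ) (h1 : Computable g1)
    (h2 : Computable g2) (hk : Computable k) (hl : Computable l) :
    ComputablePred fun a => Minor (σ a) (g1 a) (g2 a) (k a) (l a) := by
  have h : ComputablePred fun a =>
      co (row (σ a).1.2 (g1 a)) (k a) * co (row (σ a).1.2 (g2 a)) (l a) -
      co (row (σ a).1.2 (g1 a)) (l a) * co (row (σ a).1.2 (g2 a)) (k a) = 0 :=
    cp_eq (by fun_prop) (by fun_prop)
  refine h.not.of_eq fun a => ?_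
  unfold Minor nm
  rw [vec_apply, vec_apply, vec_apply, vec_apply]
  rw [not_iff_not, ← @Int.cast_inj ℚ]
  push_cast
  have h1 := (dpos (σ a).1.1).ne'
  constructor
  · intro h
    field_simp
    linear_combination h
  · intro h
    field_simp at h
    linear_combination h

theorem cp_Lv_nm {σ : α → St} {m k : α → ℕ} (hσ : Computable σ) (hm : Computable m)
    (hk : Computable k) : ComputablePred fun a => Lv (k a) (nm (σ a) (m a)) := by
  unfold nm
  exact cp_Lv hk (by fun_prop)

theorem cp_Trig {n e i0 g1 g2 c k l : α → ℕ} {b : α → Bool} {σ : α → St} (hn : Computable n)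
    (hσ : Computable σ) (he : Computable e) (hi : Computable i0) (hg1 : Computable g1)
    (hg2 : Computable g2) (hc : Computable c) (hk : Computable k) (hl : Computable l)
    (hb : Computable b) :
    ComputablePred fun a =>
      Trig (n a) (σ a) (e a) (i0 a) (g1 a) (g2 a) (c a) (k a) (l a) (b a) := by
  unfold Trig
  refine cp_and ?_ ?_
  · unfold len
    refine cp_and (cp_mem (by fun_prop) (by fun_prop)).not ?_
    exact cp_and (cp_lt (by fun_prop) (by fun_prop)) (cp_and (cp_lt (by fun_prop) (by fun_prop))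
      (cp_and (cp_lt (by fun_prop) (by fun_prop)) (cp_lt (by fun_prop) (by fun_prop))))
  refine cp_and ?_ ?_
  · refine cp_all (p := fun a m => m ≤ e a → Lv (i0 a) (nm (σ a) m)) ?_ ?_
    · refine cp_imp (cp_le (by fun_prop) (by fun_prop)) ?_
      exact cp_Lv_nm (by fun_prop) (by fun_prop) (by fun_prop)
    · unfold len; fun_prop
  refine cp_and (cp_Lv_nm (by fun_prop) (by fun_prop) (by fun_prop)) ?_
  refine cp_and (cp_Lv_nm (by fun_prop) (by fun_prop) (by fun_prop)) ?_
  refine cp_and ?_ ?_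
  · have h := cp_vec_eq (Y := fun a => row (σ a).1.2 (c a)) (Y1 := fun a => unitL (i0 a))
      (D := fun a => (σ a).1.1) (D1 := fun _ => 0) (by fun_prop) (cunitL.comp hi) (by fun_prop)
      (by fun_prop)
    refine h.of_eq fun a => ?_
    rw [vec_unitL]; rfl
  refine cp_and (cp_Same hσ hg1 hg2) (cp_and (cp_Minor hσ hg1 hg2 hk hl) ?_)
  refine cp_and ?_ (cp_and (cp_Dom hn hσ he hi hg1 (Computable.const 1))
    (cp_Dom hn hσ he hi hg1 (Computable.const (-1))))
  refine cp_and (cp_wst he hn hg1 (by fun_prop)) (cp_and (cp_wst he hn hg2 (by fun_prop)) ?_)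
  exact cp_wst he hn hc hb

theorem cp_TrigP {p : α → Pr} {n : α → ℕ} {σ : α → St} (hp : Computable p) (hn : Computable n)
    (hσ : Computable σ) : ComputablePred fun a => TrigP (p a) (n a) (σ a) := by
  unfold TrigP
  exact cp_Trig (by fun_prop) (by fun_prop) (by fun_prop) (by fun_prop) (by fun_prop)
    (by fun_prop) (by fun_prop) (by fun_prop) (by fun_prop) (by fun_prop)

theorem re_Inv (Hs : AddSubgroup V) (hH : REPred fun y : List ℤ × ℕ => vec y.1 y.2 ∈ Hs)
    {σ : α → St} (hσ : Computable σ) : REPred fun a => Inv Hs (σ a) := by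
  unfold Inv
  have hlen : Computable fun a => len (σ a) := by unfold len; fun_prop
  refine RE.and ?_ (RE.and ?_ ?_)
  · refine RE.all_lt (p := fun a m => nm (σ a) m ∈ Hs) ?_ hlen
    unfold nm
    exact RE.comp hH (f := fun x : α × ℕ => (row (σ x.1).1.2 x.2, (σ x.1).1.1)) (by fun_prop)
  · refine RE.all_lt (p := fun a m => ∀ l < m, nm (σ a) m ≠ nm (σ a) l) ?_ hlen
    refine RE.all_lt (p := fun (x : α × ℕ) l => nm (σ x.1) x.2 ≠ nm (σ x.1) l) ?_ (by fun_prop)
    unfold nm
    exact (cp_vec_eq (by fun_prop) (by fun_prop) (by fun_prop) (by fun_prop)).not.to_re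
  · refine RE.all_lt (p := fun a m => nm (σ a) m ≠ 0 → rho (σ a) (nm (σ a) m) ≠ 0) ?_ hlen
    have h1 : ComputablePred fun x : α × ℕ => nm (σ x.1) x.2 = 0 := by
      have h := cp_vec_eq (Y := fun x : α × ℕ => row (σ x.1).1.2 x.2) (Y1 := fun _ => [])
        (D := fun x : α × ℕ => (σ x.1).1.1) (D1 := fun _ => 0) (by fun_prop) (by fun_prop)
        (by fun_prop) (by fun_prop)
      refine h.of_eq fun x => ?_
      have : vec [] 0 = 0 := by ext i; rw [vec_apply, co_zero (by simp)]; simp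
      rw [this]; rfl
    have h2 : ComputablePred fun x : α × ℕ => 0 < rho (σ x.1) (nm (σ x.1) x.2) ∨
        rho (σ x.1) (nm (σ x.1) x.2) < 0 :=
      cp_or (cp_rho_pos (by fun_prop) (by fun_prop)) (cp_rho_neg (by fun_prop) (by fun_prop))
    refine (cp_or h1 h2).to_re.of_eq fun x => ?_
    constructor
    · rintro (h | h) h3
      · exact absurd h h3
      · rcases h with h | h
        exacts [h.ne', h.ne]
    · intro h
      by_cases h3 : nm (σ x.1) x.2 = 0
      · exact Or.inl h3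
      · exact Or.inr ((lt_or_gt_of_ne (h h3)).symm)

/-- Coordinates of a sum over a list of names. -/
theorem sum_nm_apply (σ : St) (l : List ℕ) (i : ℕ) :
    (l.map (nm σ)).sum i =
      ((∑ k ∈ Finset.range l.length, co (row σ.1.2 (l.getD k 0)) i : ℤ) : ℚ) / (σ.1.1 + 1) := by
  induction l using List.reverseRecOn with
  | nil => simp
  | append_singleton l a ih =>
    rw [List.map_append, List.sum_append, Finsupp.add_apply, ih, List.length_append,
      List.length_singleton, Finset.sum_range_succ]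
    have h1 : ∑ k ∈ Finset.range l.length, co (row σ.1.2 ((l ++ [a]).getD k 0)) i =
        ∑ k ∈ Finset.range l.length, co (row σ.1.2 (l.getD k 0)) i := by
      refine Finset.sum_congr rfl fun k hk => ?_
      rw [List.getD_append _ _ _ _ (Finset.mem_range.1 hk)]
    have h2 : (l ++ [a]).getD l.length 0 = a := by simp
    rw [h1, h2]
    simp only [List.map_cons, List.map_nil, List.sum_cons, List.sum_nil, add_zero]
    unfold nm
    rw [vec_apply]
    push_cast
    ring

theorem re_Cert {n e : α → ℕ} {σ : α → St} (hn : Computable n) (he : Computable e)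
    (hσ : Computable σ) : REPred fun a => Cert (n a) (e a) (σ a) := by
  unfold Cert
  refine RE.ex (p := fun a (PN : List ℕ × List ℕ) => PN.2 ≠ [] ∧
    (∀ m ∈ PN.1, m < len (σ a) ∧ wst (ℕ × Bool) (e a) (n a) (m, true) = true) ∧
    (∀ m ∈ PN.2, m < len (σ a) ∧ wst (ℕ × Bool) (e a) (n a) (m, false) = true) ∧
    (PN.1.map (nm (σ a))).sum = (PN.2.map (nm (σ a))).sum) ?_
  refine RE.and (RE.ne (by fun_prop) (by fun_prop)) (RE.and ?_ (RE.and ?_ ?_))
  · refine RE.all_mem (p := fun (x : α × (List ℕ × List ℕ)) (m : ℕ) =>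
      m < len (σ x.1) ∧ wst (ℕ × Bool) (e x.1) (n x.1) (m, true) = true)
      (l := fun x => x.2.1) ?_ (by fun_prop)
    unfold len
    exact RE.and (RE.lt (by fun_prop) (by fun_prop))
      (cp_wst (by fun_prop) (by fun_prop) (by fun_prop) (by fun_prop)).to_re
  · refine RE.all_mem (p := fun (x : α × (List ℕ × List ℕ)) (m : ℕ) =>
      m < len (σ x.1) ∧ wst (ℕ × Bool) (e x.1) (n x.1) (m, false) = true)
      (l := fun x => x.2.2) ?_ (by fun_prop)
    unfold len
    exact RE.and (RE.lt (by fun_prop) (by fun_prop))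
      (cp_wst (by fun_prop) (by fun_prop) (by fun_prop) (by fun_prop)).to_re
  · have h : REPred fun x : α × (List ℕ × List ℕ) => ∃ B : ℕ,
        (∀ r ∈ (σ x.1).1.2, r.length ≤ B) ∧ ∀ i < B,
        ∑ k ∈ Finset.range x.2.1.length, co (row (σ x.1).1.2 (x.2.1.getD k 0)) i =
        ∑ k ∈ Finset.range x.2.2.length, co (row (σ x.1).1.2 (x.2.2.getD k 0)) i := by
      refine RE.exN (p := fun (x : α × (List ℕ × List ℕ)) (B : ℕ) =>
        (∀ r ∈ (σ x.1).1.2, r.length ≤ B) ∧ ∀ i < B,
        ∑ k ∈ Finset.range x.2.1.length, co (row (σ x.1).1.2 (x.2.1.getD k 0)) i =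
        ∑ k ∈ Finset.range x.2.2.length, co (row (σ x.1).1.2 (x.2.2.getD k 0)) i) ?_
      refine RE.and ?_ ?_
      · refine RE.all_mem (p := fun (y : (α × (List ℕ × List ℕ)) × ℕ) (r : List ℤ) =>
          r.length ≤ y.2) (l := fun y => (σ y.1.1).1.2) ?_ (by fun_prop)
        exact RE.le (by fun_prop) (by fun_prop)
      · refine RE.all_lt (p := fun (y : (α × (List ℕ × List ℕ)) × ℕ) (i : ℕ) =>
          ∑ k ∈ Finset.range y.1.2.1.length, co (row (σ y.1.1).1.2 (y.1.2.1.getD k 0)) i =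
          ∑ k ∈ Finset.range y.1.2.2.length, co (row (σ y.1.1).1.2 (y.1.2.2.getD k 0)) i) ?_
          (by fun_prop)
        refine RE.eq ?_ ?_
        · refine csum (α := ((α × (List ℕ × List ℕ)) × ℕ) × ℕ)
            (f := fun y k => co (row (σ y.1.1.1).1.2 (y.1.1.2.1.getD k 0)) y.2)
            (n := fun y => y.1.1.2.1.length) ?_ (by fun_prop)
          unfold Computable₂
          fun_prop
        · refine csum (α := ((α × (List ℕ × List ℕ)) × ℕ) × ℕ)
            (f := fun y k => co (row (σ y.1.1.1).1.2 (y.1.1.2.2.getD k 0)) y.2)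
            (n := fun y => y.1.1.2.2.length) ?_ (by fun_prop)
          unfold Computable₂
          fun_prop
    refine h.of_eq fun x => ?_
    have key : ∀ i, ((x.2.1.map (nm (σ x.1))).sum i = (x.2.2.map (nm (σ x.1))).sum i) ↔
        ∑ k ∈ Finset.range x.2.1.length, co (row (σ x.1).1.2 (x.2.1.getD k 0)) i =
        ∑ k ∈ Finset.range x.2.2.length, co (row (σ x.1).1.2 (x.2.2.getD k 0)) i := by
      intro i
      rw [sum_nm_apply, sum_nm_apply, div_left_inj' (dpos _).ne', Int.cast_inj]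
    constructor
    · rintro ⟨B, h1, h2⟩
      ext i
      rw [key]
      by_cases hi : i < B
      · exact h2 i hi
      · have h3 : ∀ m, co (row (σ x.1).1.2 m) i = 0 := by
          intro m
          by_cases hm : m < (σ x.1).1.2.length
          · apply co_zero
            unfold row
            rw [List.getD_eq_getElem _ _ hm]
            have := h1 _ (List.getElem_mem hm)
            omega
          · unfold row
            rw [List.getD_eq_default _ _ (by omega)]
            apply co_zero; simp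
        simp [h3]
    · intro h
      obtain ⟨B, hB⟩ : ∃ B : ℕ, ∀ r ∈ (σ x.1).1.2, r.length ≤ B := by
        generalize (σ x.1).1.2 = L
        induction L with
        | nil => exact ⟨0, by simp⟩
        | cons a L ih =>
          obtain ⟨B, hB⟩ := ih
          refine ⟨max a.length B, fun r hr => ?_⟩
          rcases List.mem_cons.1 hr with rfl | hr
          · exact le_max_left _ _
          · exact (hB r hr).trans (le_max_right _ _)
      exact ⟨B, hB, fun i _ => (key i).1 (by rw [h])⟩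

theorem re_TR {al X : α → List ℤ} {E : α → ℕ} {σ τ : α → St} (hal : Computable al)
    (hX : Computable X) (hE : Computable E) (hσ : Computable σ) (hτ : Computable τ) :
    REPred fun a => TR (al a) (X a) (E a) (σ a) (τ a) := by
  unfold TR
  refine RE.all_lt (p := fun a m =>
    nm (τ a) m = nm (σ a) m + fn (al a) (nm (σ a) m) • vec (X a) (E a)) ?_
    (by unfold len; fun_prop)
  have h := cp_nm_rel (σ := fun x : α × ℕ => τ x.1) (τ := fun x : α × ℕ => σ x.1)
    (m := fun x => x.2) (l := fun x => x.2) (k := fun x => dot (al x.1) (row (σ x.1).1.2 x.2))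
    (X := fun x => X x.1) (E := fun x => (E x.1 + 1) * ((σ x.1).1.1 + 1) - 1)
    (by fun_prop) (by fun_prop) (by fun_prop) (by fun_prop) (by fun_prop) (by fun_prop)
    (by fun_prop)
  refine h.to_re.of_eq fun x => ?_
  have h1 : (dot (al x.1) (row (σ x.1).1.2 x.2) : ℚ) •
      vec (X x.1) ((E x.1 + 1) * ((σ x.1).1.1 + 1) - 1) =
      fn (al x.1) (nm (σ x.1) x.2) • vec (X x.1) (E x.1) := by
    unfold nm
    rw [fn_vec]
    ext i
    rw [Finsupp.smul_apply, Finsupp.smul_apply, vec_apply, vec_apply, smul_eq_mul, smul_eq_mul]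
    have h2 : (((E x.1 + 1) * ((σ x.1).1.1 + 1) - 1 : ℕ) : ℚ) + 1 =
        (E x.1 + 1) * ((σ x.1).1.1 + 1) := by
      have h3 : (E x.1 + 1) * ((σ x.1).1.1 + 1) - 1 + 1 =
        (E x.1 + 1) * ((σ x.1).1.1 + 1) := by
        have : 0 < (E x.1 + 1) * ((σ x.1).1.1 + 1) := by positivity
        omega
      exact_mod_cast h3
    rw [h2]
    have h4 := (dpos (E x.1)).ne'
    have h5 := (dpos (σ x.1).1.1).ne'
    field_simp
  rw [h1]

theorem re_Sgn {σ τ : α → St} (hσ : Computable σ) (hτ : Computable τ) :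
    REPred fun a => Sgn (σ a) (τ a) := by
  unfold Sgn
  refine RE.all_lt (p := fun a m => SS (rho (σ a) (nm (σ a) m)) (rho (τ a) (nm (τ a) m))) ?_
    (by unfold len; fun_prop)
  unfold SS
  have h1 : ComputablePred fun x : α × ℕ => 0 < rho (σ x.1) (nm (σ x.1) x.2) :=
    cp_rho_pos (by fun_prop) (by fun_prop)
  have h2 : ComputablePred fun x : α × ℕ => 0 < rho (τ x.1) (nm (τ x.1) x.2) :=
    cp_rho_pos (by fun_prop) (by fun_prop)
  have h3 : ComputablePred fun x : α × ℕ => rho (σ x.1) (nm (σ x.1) x.2) < 0 :=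
    cp_rho_neg (by fun_prop) (by fun_prop)
  have h4 : ComputablePred fun x : α × ℕ => rho (τ x.1) (nm (τ x.1) x.2) < 0 :=
    cp_rho_neg (by fun_prop) (by fun_prop)
  refine (cp_and (cp_and (cp_imp h1 h2) (cp_imp h2 h1))
    (cp_and (cp_imp h3 h4) (cp_imp h4 h3))).to_re.of_eq fun x => ?_
  tauto

theorem re_ActC {p : α → Pr} {n : α → ℕ} {σ τ : α → St} {al : α → List ℤ} (hp : Computable p)
    (hn : Computable n) (hσ : Computable σ) (hτ : Computable τ) (hal : Computable al) :
    REPred fun a => ActC (p a) (n a) (σ a) (τ a) (al a) := by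
  unfold ActC
  refine RE.and (cp_TrigP hp hn hσ).to_re
    (RE.and ?_ (RE.and (re_Cert (by fun_prop) (by fun_prop) (by fun_prop))
      (RE.eq (by fun_prop) (by fun_prop))))
  refine RE.all_lt (p := fun a i => co (al a) i = 0) ?_ (by fun_prop)
  exact RE.eq (by fun_prop) (by fun_prop)

theorem re_AddC {q : List ℤ × ℕ → ℕ → Bool} (hq : Computable₂ q)
    {p : α → Pr} {n : α → ℕ} {σ τ : α → St} {al : α → List ℤ} (hp : Computable p)
    (hn : Computable n) (hσ : Computable σ) (hτ : Computable τ) (hal : Computable al) :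
    REPred fun a => AddC q (p a) (n a) (σ a) (τ a) (al a) := by
  unfold AddC
  refine RE.and (cp_TrigP hp hn hσ).not.to_re
    (RE.and (RE.eq hal (Computable.const [])) (RE.and (RE.eq (by fun_prop) (by fun_prop))
      (RE.or ?_ ?_)))
  · have h1 : Computable fun a => (p a).2.1 := by fun_prop
    have h2 : Computable fun a => (p a).2.2 := by fun_prop
    exact RE.eq (hq.comp h1 h2) (Computable.const false)
  · have h1 : ComputablePred fun a => ∃ m < len (τ a), nm (τ a) m = vec (p a).2.1.1 (p a).2.1.2 := by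
      refine cp_ex (p := fun a m => nm (τ a) m = vec (p a).2.1.1 (p a).2.1.2) ?_
        (by unfold len; fun_prop)
      unfold nm
      exact cp_vec_eq (by fun_prop) (by fun_prop) (by fun_prop) (by fun_prop)
    exact h1.to_re

theorem re_Step (Hs : AddSubgroup V) (hH : REPred fun y : List ℤ × ℕ => vec y.1 y.2 ∈ Hs)
    (q : List ℤ × ℕ → ℕ → Bool) (hq : Computable₂ q) {p : α → Pr} {n : α → ℕ} {σ τ : α → St}
    (hp : Computable p) (hn : Computable n) (hσ : Computable σ) (hτ : Computable τ) :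
    REPred fun a => Step Hs q (p a) (n a) (σ a) (τ a) := by
  unfold Step
  refine RE.and ?_ (RE.and (re_Inv Hs hH hτ) (RE.and (re_Sgn hσ hτ) ?_))
  · unfold len; exact RE.le (by fun_prop) (by fun_prop)
  · refine RE.ex (p := fun a (aX : List ℤ × (List ℤ × ℕ)) =>
      TR aX.1 aX.2.1 aX.2.2 (σ a) (τ a) ∧
      (ActC (p a) (n a) (σ a) (τ a) aX.1 ∨ AddC q (p a) (n a) (σ a) (τ a) aX.1)) ?_
    refine RE.and (re_TR (by fun_prop) (by fun_prop) (by fun_prop) (by fun_prop) (by fun_prop)) ?_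
    exact RE.or (re_ActC (by fun_prop) (by fun_prop) (by fun_prop) (by fun_prop) (by fun_prop))
      (re_AddC hq (by fun_prop) (by fun_prop) (by fun_prop) (by fun_prop) (by fun_prop))

end re

end Pool.Agent.U44.KLS
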