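import Pool.Agent.U44.KLS.Step

/-!
Existence of steps.
-/

namespace Pool.Agent.U44.KLS

open Encodable Finsupp Pool.Agent.Helper446 Pool.Agent.Helper446.RE

theorem Lv_sum {B : ℕ} {v : V} (h : Lv B v) :
    v = ∑ j ∈ Finset.range B, v j • (single j 1 : V) := by
  ext i
  simp only [Finsupp.finsetSum_apply, Finsupp.smul_apply, Finsupp.single_apply, smul_eq_mul,
    mul_ite, mul_one, mul_zero]
  rw [Finset.sum_ite_eq' (Finset.range B) i (fun j => v j)]
  by_cases h1 : i < B
  · simp [h1]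
  · simp [h1, h i (by omega)]

theorem Lv_mono {B C : ℕ} (hBC : B ≤ C) {v : V} (h : Lv B v) : Lv C v :=
  fun i hi => h i (hBC.trans hi)

theorem exists_Lv (v : V) : ∃ B, Lv B v := by
  refine ⟨v.support.sup id + 1, fun i hi => ?_⟩
  by_contra h
  have h1 : i ≤ v.support.sup id :=
    Finset.le_sup (f := id) (Finsupp.mem_support_iff.2 h)
  omega

theorem exists_Lv_all (f : ℕ → V) (n : ℕ) : ∃ B, ∀ m < n, Lv B (f m) := by
  induction n with
  | zero => exact ⟨0, fun m hm => absurd hm (Nat.not_lt_zero m)⟩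
  | succ n ih =>
    obtain ⟨B, hB⟩ := ih
    obtain ⟨C, hC⟩ := exists_Lv (f n)
    refine ⟨max B C, fun m hm => ?_⟩
    rcases Nat.lt_succ_iff_lt_or_eq.1 hm with h | rfl
    · exact Lv_mono (le_max_left _ _) (hB m h)
    · exact Lv_mono (le_max_right _ _) hC

theorem map_low {a : V →ₗ[ℚ] ℚ} {i0 : ℕ} (ha : ∀ i < i0, a (single i 1) = 0) {v : V}
    (hv : Lv i0 v) : a v = 0 := by
  rw [Lv_sum hv, map_sum]
  refine Finset.sum_eq_zero fun j hj => ?_
  rw [map_smul, ha j (Finset.mem_range.1 hj), smul_zero]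

theorem co_map (B : ℕ) (g : ℕ → ℤ) (i : ℕ) :
    co ((List.range B).map g) i = if i < B then g i else 0 := by
  unfold co
  rw [List.getD_eq_getElem?_getD, List.getElem?_map]
  by_cases h : i < B
  · rw [List.getElem?_range h, if_pos h]; rfl
  · rw [List.getElem?_eq_none (by simpa using h), if_neg h]; rfl

theorem row_map (n : ℕ) (g : ℕ → List ℤ) {m : ℕ} (h : m < n) :
    row ((List.range n).map g) m = g m := by
  unfold row
  rw [List.getD_eq_getElem?_getD, List.getElem?_map, List.getElem?_range h]; rfl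

theorem code_vecs (f : ℕ → V) (n : ℕ) : ∃ (D : ℕ) (L : List (List ℤ)), L.length = n ∧
    ∀ m < n, vec (row L m) D = f m := by
  obtain ⟨B, hB⟩ := exists_Lv_all f n
  obtain ⟨d, hd, P, hP⟩ := common_den (fun k => f (k / B) (k % B)) (n * B)
  refine ⟨d - 1, (List.range n).map fun m => (List.range B).map fun i => P (m * B + i),
    by simp, fun m hm => ?_⟩
  rw [row_map n _ hm]
  ext i
  rw [vec_apply, co_map]
  have hdd : ((d - 1 : ℕ) : ℚ) + 1 = d := by
    have : d - 1 + 1 = d := by omega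
    exact_mod_cast this
  have hdq : (d : ℚ) ≠ 0 := by exact_mod_cast hd.ne'
  rw [hdd]
  by_cases hi : i < B
  · rw [if_pos hi]
    have hk : m * B + i < n * B := by
      calc m * B + i < m * B + B := by omega
        _ = (m + 1) * B := by ring
        _ ≤ n * B := Nat.mul_le_mul_right B hm
    have h1 := hP _ hk
    have h2 : (m * B + i) / B = m := by
      rw [Nat.add_comm, Nat.add_mul_div_right _ _ (by omega), Nat.div_eq_of_lt hi, zero_add]
    have h3 : (m * B + i) % B = i := by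
      rw [Nat.add_comm, Nat.add_mul_mod_self_right, Nat.mod_eq_of_lt hi]
    rw [h2, h3] at h1
    rw [← h1]
    field_simp
  · rw [if_neg hi, hB m hm i (by omega)]; simp

theorem code_fn (ρ : V →ₗ[ℚ] ℚ) (B : ℕ) : ∃ (R : List ℤ) (N : ℚ), 0 < N ∧
    (∀ v, Lv B v → fn R v = N * ρ v) ∧ ∀ i, ρ (single i 1) = 0 → co R i = 0 := by
  obtain ⟨d, hd, P, hP⟩ := common_den (fun i => ρ (single i 1)) B
  refine ⟨(List.range B).map P, d, by exact_mod_cast hd, fun v hv => ?_, fun i hi => ?_⟩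
  · rw [Lv_sum hv, map_sum, map_sum, Finset.mul_sum]
    refine Finset.sum_congr rfl fun j hj => ?_
    rw [map_smul, map_smul, fn_single, co_map, if_pos (Finset.mem_range.1 hj),
      ← hP j (Finset.mem_range.1 hj), smul_eq_mul, smul_eq_mul]
    ring
  · rw [co_map]
    split_ifs with h
    · have := hP i h
      rw [hi, mul_zero] at this
      exact_mod_cast this.symm
    · rfl

theorem mk_state (n : ℕ) (f : ℕ → V) (ρ : V →ₗ[ℚ] ℚ) (Z : List ℕ) :
    ∃ σ : St, len σ = n ∧ (∀ m < n, nm σ m = f m) ∧ σ.2.2 = Z ∧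
      ∃ N : ℚ, 0 < N ∧ ∀ m < n, rho σ (f m) = N * ρ (f m) := by
  obtain ⟨D, L, hL, hf⟩ := code_vecs f n
  obtain ⟨B, hB⟩ := exists_Lv_all f n
  obtain ⟨R, N, hN, hR, -⟩ := code_fn ρ B
  exact ⟨((D, L), (R, Z)), hL, hf, rfl, N, hN, fun m hm => hR _ (hB m hm)⟩

theorem SS_scale {u v N : ℚ} (h : SS u v) (hN : 0 < N) : SS u (N * v) := by
  refine ⟨h.1.trans ?_, h.2.trans ?_⟩
  · constructor
    · intro h1; positivity
    · intro h1; exact pos_of_mul_pos_right h1 hN.le
  · constructor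
    · intro h1; exact mul_neg_of_pos_of_neg hN h1
    · intro h1
      by_contra h2
      exact absurd h1 (not_lt.2 (mul_nonneg hN.le (not_lt.1 h2)))

theorem SS.ne_zero {u v : ℚ} (h : SS u v) (hu : u ≠ 0) : v ≠ 0 := by
  rcases lt_or_gt_of_ne hu with h1 | h1
  · exact (h.2.1 h1).ne
  · exact (h.1.1 h1).ne'

theorem SS_refl (u : ℚ) : SS u u := ⟨Iff.rfl, Iff.rfl⟩

theorem add_exists (S : Set V) (hfin : S.Finite) (ρ : V →ₗ[ℚ] ℚ)
    (hρ : ∀ y ∈ S, y ≠ 0 → ρ y ≠ 0) (y0 : V) :
    ∃ ρ' : V →ₗ[ℚ] ℚ, (∀ y ∈ S, SS (ρ y) (ρ' y)) ∧ (y0 ≠ 0 → ρ' y0 ≠ 0) := by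
  by_cases h0 : y0 ≠ 0 ∧ ρ y0 = 0
  · obtain ⟨h0, h1⟩ := h0
    obtain ⟨k, hk⟩ : ∃ k, y0 k ≠ 0 := by
      by_contra h; push Not at h; exact h0 (Finsupp.ext h)
    obtain ⟨ε, hε, hε2⟩ := exists_eps {y ∈ S | y ≠ 0} (hfin.subset (fun y hy => hy.1))
      (fun y => |ρ y| / (|y k| + 1)) (fun y hy => by
        have h1 := abs_pos.2 (hρ y hy.1 hy.2)
        have h2 : 0 < |y k| + 1 := by linarith [abs_nonneg (y k)]
        exact div_pos h1 h2)
    refine ⟨ρ + (ε / 2) • Finsupp.lapply k, fun y hy => ?_, fun _ => ?_⟩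
    · show SS (ρ y) (ρ y + (ε / 2) * y k)
      by_cases hy0 : y = 0
      · rw [hy0]; simp [SS]
      · apply SS_add
        have h2 := hε2 y ⟨hy, hy0⟩
        have h3 : 0 < |y k| + 1 := by linarith [abs_nonneg (y k)]
        rw [le_div_iff₀ h3] at h2
        rw [abs_mul, abs_of_pos (by linarith : 0 < ε / 2)]
        nlinarith [abs_nonneg (y k)]
    · show ρ y0 + (ε / 2) * y0 k ≠ 0
      rw [h1, zero_add]
      exact mul_ne_zero (by linarith) hk
  · refine ⟨ρ, fun y _ => SS_refl _, fun h1 h2 => h0 ⟨h1, h2⟩⟩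

theorem sum_flatMap (n : ℕ) (g : ℕ → List ℕ) (f : ℕ → V) :
    (((List.range n).flatMap g).map f).sum = ∑ j ∈ Finset.range n, ((g j).map f).sum := by
  induction n with
  | zero => simp
  | succ n ih =>
    rw [List.range_succ, List.flatMap_append, List.map_append, List.sum_append, ih,
      Finset.sum_range_succ]
    simp

theorem step_act {Hs : AddSubgroup V} {q : List ℤ × ℕ → ℕ → Bool} {p : Pr} {n : ℕ} {σ : St}
    (hσ : Inv Hs σ) (hT : TrigP p n σ) : ∃ σ', Step Hs q p n σ σ' := by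
  obtain ⟨⟨⟨e, i0⟩, ⟨g1, g2⟩, ⟨c, k⟩, ⟨l, b⟩⟩, pa⟩ := p
  have hT' := hT
  obtain ⟨⟨-, hei, hg1, hg2, hc⟩, hle, hl1, hl2, hnc, hsame, hmin, ⟨hw1, hw2, hw3⟩, hd1, hd2⟩ := hT'
  simp only at hei hg1 hg2 hc hle hl1 hl2 hnc hsame hmin hw1 hw2 hw3 hd1 hd2
  obtain ⟨hI1, hI2, hI3⟩ := hσ
  let S : Set V := nm σ '' {m | m < len σ}
  have hSfin : S.Finite := (Set.finite_lt_nat _).image _
  have hmemS : ∀ m < len σ, nm σ m ∈ S := fun m hm => ⟨m, hm, rfl⟩
  obtain ⟨qq, hqq⟩ : ∃ qq : ℚ, (qq = 1 ∧ b = true) ∨ (qq = -1 ∧ b = false) := by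
    cases b
    · exact ⟨-1, Or.inr ⟨rfl, rfl⟩⟩
    · exact ⟨1, Or.inl ⟨rfl, rfl⟩⟩
  have hqq' : qq = 1 ∨ qq = -1 := by
    rcases hqq with h | h
    exacts [Or.inl h.1, Or.inr h.1]
  have hsgn : 0 < rho σ (nm σ g1) * rho σ (nm σ g2) := by
    rcases hsame with h | h
    · exact mul_pos h.1 h.2
    · exact mul_pos_of_neg_of_neg h.1 h.2
  obtain ⟨a, x, ρ', hlow, hH, hinj, hsg, d, A, C, B, hd, hC, hcert⟩ :=
    act_exists Hs S hSfin (by rintro _ ⟨m, hm, rfl⟩; exact hI1 m hm) i0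
      (by rw [← hnc]; exact hmemS c hc) (rho σ)
      (by rintro _ ⟨m, hm, rfl⟩ h; exact hI3 m hm h) (nm σ g1) (nm σ g2) (hmemS _ hg1)
      (hmemS _ hg2) hsgn k l hmin qq hqq'
  obtain ⟨Bd, hBd⟩ := exists_Lv_all (nm σ) (len σ)
  obtain ⟨al, N, hN, hal, hal0⟩ := code_fn a Bd
  obtain ⟨E, XL, -, hX⟩ := code_vecs (fun _ => N⁻¹ • x) 1
  have hXe : vec (row XL 0) E = N⁻¹ • x := hX 0 (by norm_num)
  have hTx : ∀ m < len σ, fn al (nm σ m) • vec (row XL 0) E = a (nm σ m) • x := by
    intro m hm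
    rw [hXe, hal _ (hBd m hm), smul_smul]
    congr 1
    field_simp
  obtain ⟨σ', hlen, hnm, hZ, N', hN', hrho⟩ :=
    mk_state (len σ) (fun m => nm σ m + a (nm σ m) • x) ρ' (e :: σ.2.2)
  have hnm' : ∀ m < len σ, nm σ' m = nm σ m + a (nm σ m) • x := hnm
  have hfix : ∀ m < len σ, Lv i0 (nm σ m) → nm σ' m = nm σ m := by
    intro m hm hl
    rw [hnm' m hm, map_low hlow hl, zero_smul, add_zero]
  refine ⟨σ', hlen.ge, ⟨?_, ?_, ?_⟩, ?_, (al, (row XL 0, E)), ?_, Or.inl ⟨hT, ?_, ?_, hZ⟩⟩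
  · intro m hm
    rw [hlen] at hm
    rw [hnm' m hm]
    exact hH _ (hmemS m hm)
  · intro m hm j hj h
    rw [hlen] at hm
    rw [hnm' m hm, hnm' j (hj.trans hm)] at h
    exact hI2 m hm j hj (hinj _ (hmemS m hm) _ (hmemS j (hj.trans hm)) h)
  · intro m hm h
    rw [hlen] at hm
    rw [hnm' m hm] at h ⊢
    rw [hrho m hm]
    refine mul_ne_zero hN'.ne' ?_
    have h1 : nm σ m ≠ 0 := by
      rintro h2
      apply h
      rw [h2]; simp
    exact (hsg _ (hmemS m hm)).ne_zero (hI3 m hm h1)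
  · intro m hm
    rw [hnm' m hm, hrho m hm]
    exact SS_scale (hsg _ (hmemS m hm)) hN'
  · intro m hm
    rw [hTx m hm]
    exact hnm' m hm
  · intro i hi
    exact hal0 i (hlow i hi)
  · -- the certificate
    have hu : ∀ j, ∃ u, j < i0 → B j ≠ 0 → u < len σ ∧ wst (ℕ × Bool) e n (u, true) = true ∧
        nm σ' u = nm σ g1 - (qq * ((B j).sign : ℤ)) • (single j 1 : V) := by
      intro j
      by_cases hj : j < i0 ∧ B j ≠ 0
      · obtain ⟨hj, hB⟩ := hj
        have hs : qq * ((B j).sign : ℤ) = 1 ∨ qq * ((B j).sign : ℤ) = -1 := by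
          rcases lt_or_gt_of_ne hB with h | h
          · rw [Int.sign_eq_neg_one_of_neg h]
            rcases hqq' with h2 | h2
            · right; rw [h2]; norm_num
            · left; rw [h2]; norm_num
          · rw [Int.sign_eq_one_of_pos h]
            rcases hqq' with h2 | h2
            · left; rw [h2]; norm_num
            · right; rw [h2]; norm_num
        have hlev : ∀ s : ℚ, Lv i0 (nm σ g1 + s • (single j 1 : V)) := by
          intro s i hi
          rw [Finsupp.add_apply, Finsupp.smul_apply, hl1 i hi, Finsupp.single_apply,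
            if_neg (by omega)]
          simp
        rcases hs with hs | hs
        · obtain ⟨u, hu1, hu2, hu3⟩ := hd2 j hj
          refine ⟨u, fun _ _ => ⟨hu1, hu2, ?_⟩⟩
          rw [hfix u hu1 (by rw [hu3]; exact hlev _), hu3, hs]
          push_cast
          module
        · obtain ⟨u, hu1, hu2, hu3⟩ := hd1 j hj
          refine ⟨u, fun _ _ => ⟨hu1, hu2, ?_⟩⟩
          rw [hfix u hu1 (by rw [hu3]; exact hlev _), hu3, hs]
          push_cast
          module
      · exact ⟨0, fun h1 h2 => absurd ⟨h1, h2⟩ hj⟩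
    choose u hu using hu
    have e1 : nm σ' g1 = nm σ g1 := hfix g1 hg1 hl1
    have e2 : nm σ' g2 = nm σ g2 := hfix g2 hg2 hl2
    have e3 : nm σ' c = single i0 1 + a (single i0 1) • x := by rw [hnm' c hc, hnc]
    set Fl : List ℕ := (List.range i0).flatMap (fun j => List.replicate (B j).natAbs (u j))
      with hFl
    have hFmem : ∀ m ∈ Fl, m < len σ ∧ wst (ℕ × Bool) e n (m, true) = true := by
      intro m hm
      obtain ⟨j, hj, hm⟩ := List.mem_flatMap.1 hm
      obtain ⟨hm1, rfl⟩ := List.mem_replicate.1 hm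
      obtain ⟨h1, h2, -⟩ := hu j (List.mem_range.1 hj) (by simpa using hm1)
      exact ⟨h1, h2⟩
    have hFsum : (Fl.map (nm σ')).sum = ∑ j ∈ Finset.range i0, (((B j).natAbs : ℕ) : ℚ) •
            (nm σ g1 - (qq * ((B j).sign : ℤ)) • (single j 1 : V)) := by
      rw [hFl, sum_flatMap]
      refine Finset.sum_congr rfl fun j hj => ?_
      rw [List.map_replicate, List.sum_replicate]
      by_cases hB : B j = 0
      · rw [hB]; simp
      · rw [(hu j (Finset.mem_range.1 hj) hB).2.2, ← Nat.cast_smul_eq_nsmul ℚ]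
    rcases hqq with ⟨hq1, hb⟩ | ⟨hq1, hb⟩
    · refine ⟨(List.replicate d c ++ (List.replicate A g1 ++ Fl), List.replicate C g2), ?_, ?_, ?_, ?_⟩
      · intro h
        have := congrArg List.length h
        simp at this
        omega
      · intro m hm
        rw [hlen]
        rcases List.mem_append.1 hm with h | h
        · obtain ⟨-, rfl⟩ := List.mem_replicate.1 h
          rw [hb] at hw3
          exact ⟨hc, hw3⟩
        · rcases List.mem_append.1 h with h | h
          · obtain ⟨-, rfl⟩ := List.mem_replicate.1 h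
            exact ⟨hg1, hw1⟩
          · exact hFmem m h
      · intro m hm
        rw [hlen]
        obtain ⟨-, rfl⟩ := List.mem_replicate.1 hm
        exact ⟨hg2, hw2⟩
      · show ((List.replicate d c ++ (List.replicate A g1 ++ Fl)).map (nm σ')).sum =
          ((List.replicate C g2).map (nm σ')).sum
        rw [List.map_append, List.map_append, List.sum_append, List.sum_append, hFsum,
          List.map_replicate, List.map_replicate, List.map_replicate, List.sum_replicate,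
          List.sum_replicate, List.sum_replicate, e1, e2, e3]
        rw [hq1] at hcert ⊢
        rw [one_mul] at hcert
        rw [← Nat.cast_smul_eq_nsmul ℚ d, ← Nat.cast_smul_eq_nsmul ℚ A,
          ← Nat.cast_smul_eq_nsmul ℚ C, ← hcert]
        abel
    · refine ⟨(List.replicate A g1 ++ Fl, List.replicate C g2 ++ List.replicate d c), ?_, ?_, ?_, ?_⟩
      · intro h
        have := congrArg List.length h
        simp at this
        omega
      · intro m hm
        rw [hlen]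
        rcases List.mem_append.1 hm with h | h
        · obtain ⟨-, rfl⟩ := List.mem_replicate.1 h
          exact ⟨hg1, hw1⟩
        · exact hFmem m h
      · intro m hm
        rw [hlen]
        rcases List.mem_append.1 hm with h | h
        · obtain ⟨-, rfl⟩ := List.mem_replicate.1 h
          exact ⟨hg2, hw2⟩
        · obtain ⟨-, rfl⟩ := List.mem_replicate.1 h
          rw [hb] at hw3
          exact ⟨hc, hw3⟩
      · show ((List.replicate A g1 ++ Fl).map (nm σ')).sum =
          ((List.replicate C g2 ++ List.replicate d c).map (nm σ')).sum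
        rw [List.map_append, List.map_append, List.sum_append, List.sum_append, hFsum,
          List.map_replicate, List.map_replicate, List.map_replicate, List.sum_replicate,
          List.sum_replicate, List.sum_replicate, e1, e2, e3]
        rw [hq1] at hcert ⊢
        rw [← Nat.cast_smul_eq_nsmul ℚ d, ← Nat.cast_smul_eq_nsmul ℚ A,
          ← Nat.cast_smul_eq_nsmul ℚ C, ← hcert]
        module

theorem step_add {Hs : AddSubgroup V} {q : List ℤ × ℕ → ℕ → Bool}
    (hq : ∀ y : List ℤ × ℕ, ∀ k, q y k = true → vec y.1 y.2 ∈ Hs) {p : Pr} {n : ℕ} {σ : St}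
    (hσ : Inv Hs σ) (hT : ¬ TrigP p n σ) : ∃ σ', Step Hs q p n σ σ' := by
  classical
  by_cases h : q p.2.1 p.2.2 = true ∧ ¬ ∃ m < len σ, nm σ m = vec p.2.1.1 p.2.1.2
  · obtain ⟨h1, h2⟩ := h
    push Not at h2
    obtain ⟨hI1, hI2, hI3⟩ := hσ
    set v := vec p.2.1.1 p.2.1.2 with hv
    let S : Set V := nm σ '' {m | m < len σ}
    have hSfin : S.Finite := (Set.finite_lt_nat _).image _
    have hmemS : ∀ m < len σ, nm σ m ∈ S := fun m hm => ⟨m, hm, rfl⟩
    obtain ⟨ρ', hρ1, hρ2⟩ := add_exists S hSfin (rho σ)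
      (by rintro _ ⟨m, hm, rfl⟩ h; exact hI3 m hm h) v
    obtain ⟨σ', hlen, hnm, hZ, N', hN', hrho⟩ :=
      mk_state (len σ + 1) (fun m => if m < len σ then nm σ m else v) ρ' σ.2.2
    have hn1 : ∀ m < len σ, nm σ' m = nm σ m := by
      intro m hm
      rw [hnm m (by omega), if_pos hm]
    have hn2 : nm σ' (len σ) = v := by
      rw [hnm _ (by omega), if_neg (lt_irrefl _)]
    have hr1 : ∀ m < len σ + 1, rho σ' (nm σ' m) = N' * ρ' (nm σ' m) := by
      intro m hm
      rw [hnm m hm]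
      exact hrho m hm
    refine ⟨σ', by omega, ⟨?_, ?_, ?_⟩, ?_, ([], ([], 0)), ?_, Or.inr ⟨hT, rfl, hZ, Or.inr ?_⟩⟩
    · intro m hm
      rw [hlen] at hm
      rcases Nat.lt_succ_iff_lt_or_eq.1 hm with h | rfl
      · rw [hn1 m h]; exact hI1 m h
      · rw [hn2]; exact hq _ _ h1
    · intro m hm j hj
      rw [hlen] at hm
      rcases Nat.lt_succ_iff_lt_or_eq.1 hm with h | rfl
      · rw [hn1 m h, hn1 j (hj.trans h)]; exact hI2 m h j hj
      · rw [hn2, hn1 j hj]
        exact (h2 j hj).symm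
    · intro m hm h0
      rw [hlen] at hm
      rw [hr1 m hm]
      refine mul_ne_zero hN'.ne' ?_
      rcases Nat.lt_succ_iff_lt_or_eq.1 hm with h | rfl
      · rw [hn1 m h] at h0 ⊢
        exact (hρ1 _ (hmemS m h)).ne_zero (hI3 m h h0)
      · rw [hn2] at h0 ⊢
        exact hρ2 h0
    · intro m hm
      rw [hr1 m (by omega), hn1 m hm]
      exact SS_scale (hρ1 _ (hmemS m hm)) hN'
    · intro m hm
      rw [hn1 m hm, fn_nil]; simp
    · exact ⟨len σ, by omega, hn2⟩
  · refine ⟨σ, le_rfl, hσ, fun m _ => SS_refl _, ([], ([], 0)), ?_, Or.inr ⟨hT, rfl, rfl, ?_⟩⟩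
    · intro m hm
      rw [fn_nil]; simp
    · by_cases h1 : q p.2.1 p.2.2 = true
      · right
        by_contra h2
        exact h ⟨h1, h2⟩
      · left
        simpa using h1

theorem step_exists {Hs : AddSubgroup V} {q : List ℤ × ℕ → ℕ → Bool}
    (hq : ∀ y : List ℤ × ℕ, ∀ k, q y k = true → vec y.1 y.2 ∈ Hs) (p : Pr) (n : ℕ) {σ : St}
    (hσ : Inv Hs σ) : ∃ σ', Step Hs q p n σ σ' := by
  by_cases hT : TrigP p n σ
  · exact step_act hσ hT
  · exact step_add hq hσ hT

end Pool.Agent.U44.KLS
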